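import Mathlib
import Pool.Agent.Work.MP_8b4a1b_an.Defs
import Pool.Agent.Work.MP_8b4a1b_an.Cutoff
import Pool.Agent.Work.MP_8b4a1b_an.Sobolev
import Pool.Agent.Work.MP_8b4a1b_an.Norm
import Pool.Agent.Work.MP_8b4a1b_an.Localise

/-! Bundle of small proof modules (one section per former module). -/

section

/-!
Vanishing of the integral of a divergence on the plane, for `L^1` and for `L^2` vector fields.
-/

open MeasureTheory Set Filter Topology
open scoped ENNReal NNReal ContDiff FourierTransform Real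

namespace Pool.Agent.EulerInflation.Stab

/-- Cutoff functions at scale `R`. -/
lemma exists_cutoff : ∃ (χ : ℝ → (EuclideanSpace ℝ (Fin 2)) → ℝ) (C : ℝ), 0 ≤ C ∧ ∀ R, 0 < R →
    ContDiff ℝ ∞ (χ R) ∧ HasCompactSupport (χ R) ∧ (∀ x, 0 ≤ χ R x) ∧ (∀ x, χ R x ≤ 1) ∧
    (∀ x, ‖x‖ ≤ R → χ R x = 1) ∧ (∀ i x, |pd i (χ R) x| ≤ C / R) ∧
    (∀ i x, ‖x‖ < R → pd i (χ R) x = 0) ∧ (∀ i x, 2 * R < ‖x‖ → pd i (χ R) x = 0) := by
  let b : ContDiffBump (0 : (EuclideanSpace ℝ (Fin 2))) := ⟨1, 2, one_pos, one_lt_two⟩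
  have hb : ContDiff ℝ ∞ b := b.contDiff
  obtain ⟨C, hC⟩ : ∃ C, ∀ x, ‖fderiv ℝ b x‖ ≤ C :=
    (hb.continuous_fderiv (by simp)).bounded_above_of_compact_support
      (b.hasCompactSupport.fderiv (𝕜 := ℝ))
  have hC0 : 0 ≤ C := (norm_nonneg _).trans (hC 0)
  refine ⟨fun R x => b (R⁻¹ • x), C, hC0, fun R hR => ?_⟩
  have hcd : ContDiff ℝ ∞ (fun x : (EuclideanSpace ℝ (Fin 2)) => b (R⁻¹ • x)) := hb.comp (contDiff_const_smul _)
  have h1 : ∀ x : (EuclideanSpace ℝ (Fin 2)), ‖x‖ ≤ R → b (R⁻¹ • x) = 1 := by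
    intro x hx
    apply b.one_of_mem_closedBall
    rw [mem_closedBall_zero_iff, norm_smul, norm_inv, Real.norm_of_nonneg hR.le]
    show R⁻¹ * ‖x‖ ≤ 1
    rw [inv_mul_le_iff₀ hR, mul_one]
    exact hx
  have h0 : ∀ x : (EuclideanSpace ℝ (Fin 2)), 2 * R ≤ ‖x‖ → b (R⁻¹ • x) = 0 := by
    intro x hx
    apply b.zero_of_le_dist
    rw [dist_zero_right, norm_smul, norm_inv, Real.norm_of_nonneg hR.le]
    show 2 ≤ R⁻¹ * ‖x‖
    rw [le_inv_mul_iff₀ hR]
    linarith
  have hder : ∀ x v : (EuclideanSpace ℝ (Fin 2)), fderiv ℝ (fun x : (EuclideanSpace ℝ (Fin 2)) => b (R⁻¹ • x)) x v =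
      R⁻¹ * fderiv ℝ b (R⁻¹ • x) v := by
    intro x v
    have e1 : HasFDerivAt (fun x : (EuclideanSpace ℝ (Fin 2)) => b (R⁻¹ • x))
        ((fderiv ℝ b (R⁻¹ • x)).comp (R⁻¹ • ContinuousLinearMap.id ℝ (EuclideanSpace ℝ (Fin 2)))) x := by
      apply HasFDerivAt.comp x (g := b) (f := fun x : (EuclideanSpace ℝ (Fin 2)) => R⁻¹ • x)
      · exact (hb.differentiable (by simp) _).hasFDerivAt
      · exact (hasFDerivAt_id x).const_smul R⁻¹
    rw [e1.fderiv]
    simp
  refine ⟨hcd, ?_, fun x => b.nonneg, fun x => b.le_one, h1, ?_, ?_, ?_⟩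
  · apply HasCompactSupport.of_support_subset_isCompact (isCompact_closedBall (0 : (EuclideanSpace ℝ (Fin 2))) (2 * R))
    intro x hx
    rw [mem_closedBall_zero_iff]
    by_contra hlt
    exact hx (h0 x (not_le.mp hlt).le)
  · intro i x
    unfold pd
    rw [hder, abs_mul, abs_of_pos (inv_pos.mpr hR), div_eq_inv_mul]
    apply mul_le_mul_of_nonneg_left _ (inv_pos.mpr hR).le
    have := (fderiv ℝ b (R⁻¹ • x)).le_opNorm (EuclideanSpace.single i (1 : ℝ))
    rw [PiLp.norm_single, norm_one, mul_one, Real.norm_eq_abs] at this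
    exact this.trans (hC _)
  · intro i x hx
    unfold pd
    have : (fun x : (EuclideanSpace ℝ (Fin 2)) => b (R⁻¹ • x)) =ᶠ[𝓝 x] fun _ => (1 : ℝ) := by
      filter_upwards [(isOpen_lt continuous_norm continuous_const).mem_nhds
        (show x ∈ {y : (EuclideanSpace ℝ (Fin 2)) | ‖y‖ < R} from hx)] with y hy
      exact h1 y (le_of_lt hy)
    rw [this.fderiv_eq]
    simp
  · intro i x hx
    unfold pd
    have : (fun x : (EuclideanSpace ℝ (Fin 2)) => b (R⁻¹ • x)) =ᶠ[𝓝 x] fun _ => (0 : ℝ) := by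
      filter_upwards [(isOpen_lt continuous_const continuous_norm).mem_nhds
        (show x ∈ {y : (EuclideanSpace ℝ (Fin 2)) | 2 * R < ‖y‖} from hx)] with y hy
      exact h0 y (le_of_lt hy)
    rw [this.fderiv_eq]
    simp

lemma continuous_pd {f : (EuclideanSpace ℝ (Fin 2)) → ℝ} (hf : ContDiff ℝ 1 f) (i : Fin 2) : Continuous (pd i f) := by
  unfold pd
  exact (hf.continuous_fderiv one_ne_zero).clm_apply continuous_const

/-- Integration by parts against a compactly supported function. -/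
lemma ibp {χ F : (EuclideanSpace ℝ (Fin 2)) → ℝ} (hχ : ContDiff ℝ 1 χ) (hχs : HasCompactSupport χ) (hF : ContDiff ℝ 1 F)
    (i : Fin 2) : ∫ x, χ x * pd i F x = - ∫ x, pd i χ x * F x := by
  unfold pd
  have hpχ : HasCompactSupport (fun x => fderiv ℝ χ x (EuclideanSpace.single i (1 : ℝ))) := by
    have h1 := hχs.fderiv (𝕜 := ℝ)
    exact h1.comp_left (g := fun L : (EuclideanSpace ℝ (Fin 2)) →L[ℝ] ℝ => L (EuclideanSpace.single i (1 : ℝ))) (by simp)
  apply integral_mul_fderiv_eq_neg_fderiv_mul_of_integrable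
  · apply Continuous.integrable_of_hasCompactSupport
    · exact ((hχ.continuous_fderiv one_ne_zero).clm_apply continuous_const).mul hF.continuous
    · exact hpχ.mul_right
  · apply Continuous.integrable_of_hasCompactSupport
    · exact hχ.continuous.mul ((hF.continuous_fderiv one_ne_zero).clm_apply continuous_const)
    · exact hχs.mul_right
  · apply Continuous.integrable_of_hasCompactSupport
    · exact hχ.continuous.mul hF.continuous
    · exact hχs.mul_right
  · intro x _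
    exact hχ.differentiable (by simp) x
  · intro x _
    exact hF.differentiable (by simp) x

/-- If the error terms tend to zero then the integral of the divergence vanishes. -/
lemma div_zero_aux (χ : ℝ → (EuclideanSpace ℝ (Fin 2)) → ℝ) (C : ℝ) (hχ : ∀ R, 0 < R →
    ContDiff ℝ ∞ (χ R) ∧ HasCompactSupport (χ R) ∧ (∀ x, 0 ≤ χ R x) ∧ (∀ x, χ R x ≤ 1) ∧
    (∀ x, ‖x‖ ≤ R → χ R x = 1) ∧ (∀ i x, |pd i (χ R) x| ≤ C / R) ∧
    (∀ i x, ‖x‖ < R → pd i (χ R) x = 0) ∧ (∀ i x, 2 * R < ‖x‖ → pd i (χ R) x = 0))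
    (F : Fin 2 → (EuclideanSpace ℝ (Fin 2)) → ℝ) (hF : ∀ i, ContDiff ℝ 1 (F i))
    (hD : Integrable (fun x => pd 0 (F 0) x + pd 1 (F 1) x))
    (A : ℝ) (B : ℕ → ℝ) (hB : Tendsto B atTop (𝓝 A))
    (hest : ∀ n : ℕ, ∀ i, |∫ x, pd i (χ (n + 1)) x * F i x| ≤ B n) :
    |∫ x, (pd 0 (F 0) x + pd 1 (F 1) x)| ≤ 2 * A := by
  have hpos : ∀ n : ℕ, (0 : ℝ) < n + 1 := fun n => by positivity
  have hlim : Tendsto (fun n : ℕ => ∫ x, χ (n + 1) x * (pd 0 (F 0) x + pd 1 (F 1) x)) atTop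
      (𝓝 (∫ x, (pd 0 (F 0) x + pd 1 (F 1) x))) := by
    apply tendsto_integral_of_dominated_convergence (fun x => |pd 0 (F 0) x + pd 1 (F 1) x|)
    · intro n
      exact ((hχ _ (hpos n)).1.continuous.mul ((continuous_pd (hF 0) 0).add
        (continuous_pd (hF 1) 1))).aestronglyMeasurable
    · exact hD.abs
    · intro n
      filter_upwards with x
      rw [Real.norm_eq_abs, abs_mul]
      have h1 := (hχ _ (hpos n)).2.2.1 x
      have h2 := (hχ _ (hpos n)).2.2.2.1 x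
      rw [abs_of_nonneg h1]
      exact mul_le_of_le_one_left (abs_nonneg _) h2
    · filter_upwards with x
      apply tendsto_const_nhds.congr'
      obtain ⟨N, hN⟩ := exists_nat_ge ‖x‖
      filter_upwards [eventually_ge_atTop N] with n hn
      have h1 : ‖x‖ ≤ (n : ℝ) + 1 := by
        have : (N : ℝ) ≤ n := by exact_mod_cast hn
        linarith
      rw [(hχ _ (hpos n)).2.2.2.2.1 x h1, one_mul]
  have hlim' := hlim.abs
  refine le_of_tendsto_of_tendsto hlim' (hB.const_mul 2) (Eventually.of_forall fun n => ?_)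
  obtain ⟨hc, hs, h0, h1, _⟩ := hχ _ (hpos n)
  have hc1 : ContDiff ℝ 1 (χ (n + 1)) := hc.of_le (by exact_mod_cast le_top)
  have e1 : ∫ x, χ (n + 1) x * (pd 0 (F 0) x + pd 1 (F 1) x) =
      (∫ x, χ (n + 1) x * pd 0 (F 0) x) + ∫ x, χ (n + 1) x * pd 1 (F 1) x := by
    rw [← integral_add]
    · congr 1
      ext x
      ring
    · apply Continuous.integrable_of_hasCompactSupport
      · exact hc.continuous.mul (continuous_pd (hF 0) 0)
      · exact hs.mul_right
    · apply Continuous.integrable_of_hasCompactSupport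
      · exact hc.continuous.mul (continuous_pd (hF 1) 1)
      · exact hs.mul_right
  simp only
  rw [e1, ibp hc1 hs (hF 0) 0, ibp hc1 hs (hF 1) 1]
  have h2 := hest n 0
  have h3 := hest n 1
  calc |-(∫ x, pd 0 (χ (n + 1)) x * F 0 x) + -(∫ x, pd 1 (χ (n + 1)) x * F 1 x)|
      ≤ |-(∫ x, pd 0 (χ (n + 1)) x * F 0 x)| + |-(∫ x, pd 1 (χ (n + 1)) x * F 1 x)| := abs_add_le _ _
    _ ≤ B n + B n := by rw [abs_neg, abs_neg]; exact add_le_add h2 h3
    _ = 2 * B n := by ring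

/-- The integral of the divergence of an `L^1` vector field vanishes. -/
theorem integral_div_eq_zero_of_L1 (F : Fin 2 → (EuclideanSpace ℝ (Fin 2)) → ℝ) (hF : ∀ i, ContDiff ℝ 1 (F i))
    (hD : Integrable (fun x => pd 0 (F 0) x + pd 1 (F 1) x)) (hF1 : ∀ i, Integrable (F i)) :
    ∫ x, (pd 0 (F 0) x + pd 1 (F 1) x) = 0 := by
  obtain ⟨χ, C, hC, hχ⟩ := exists_cutoff
  set M := (∫ x, |F 0 x|) + ∫ x, |F 1 x| with hM
  have hMi : ∀ i, ∫ x, |F i x| ≤ M := by
    intro i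
    have h0 : 0 ≤ ∫ x, |F 0 x| := integral_nonneg fun x => abs_nonneg _
    have h1 : 0 ≤ ∫ x, |F 1 x| := integral_nonneg fun x => abs_nonneg _
    fin_cases i <;> simp only [hM, Fin.zero_eta, Fin.mk_one] <;> linarith
  have hM0 : 0 ≤ M := (integral_nonneg fun x => abs_nonneg _).trans (hMi 0)
  have key := div_zero_aux χ C hχ F hF hD 0 (fun n : ℕ => C / (n + 1) * M) (by
    have : Tendsto (fun n : ℕ => C * M * (1 / ((n : ℝ) + 1))) atTop (𝓝 (C * M * 0)) :=
      tendsto_one_div_add_atTop_nhds_zero_nat.const_mul _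
    rw [mul_zero] at this
    refine this.congr fun n => ?_
    ring) (by
    intro n i
    obtain ⟨hc, hs, h0, h1, h2, h3, _⟩ := hχ (n + 1) (by positivity)
    calc |∫ x, pd i (χ (n + 1)) x * F i x| ≤ ∫ x, |pd i (χ (n + 1)) x * F i x| :=
          abs_integral_le_integral_abs
      _ ≤ ∫ x, C / (n + 1) * |F i x| := by
          apply integral_mono_of_nonneg (Eventually.of_forall fun x => abs_nonneg _)
            ((hF1 i).abs.const_mul _)
          filter_upwards with x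
          rw [abs_mul]
          exact mul_le_mul_of_nonneg_right (h3 i x) (abs_nonneg _)
      _ = C / (n + 1) * ∫ x, |F i x| := integral_const_mul _ _
      _ ≤ C / (n + 1) * M := mul_le_mul_of_nonneg_left (hMi i) (by positivity))
  rw [mul_zero] at key
  exact abs_eq_zero.mp (le_antisymm key (abs_nonneg _))

/-- The integral of the divergence of an `L^2` vector field on the plane vanishes. -/
theorem integral_div_eq_zero_of_L2 (F : Fin 2 → (EuclideanSpace ℝ (Fin 2)) → ℝ) (hF : ∀ i, ContDiff ℝ 1 (F i))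
    (hD : Integrable (fun x => pd 0 (F 0) x + pd 1 (F 1) x))
    (hF2 : ∀ i, Integrable (fun x => F i x ^ 2)) :
    ∫ x, (pd 0 (F 0) x + pd 1 (F 1) x) = 0 := by
  obtain ⟨χ, C, hC, hχ⟩ := exists_cutoff
  -- tails
  let tail : ℕ → ℝ := fun n => ∫ x in {x : (EuclideanSpace ℝ (Fin 2)) | (n : ℝ) + 1 ≤ ‖x‖}, (F 0 x ^ 2 + F 1 x ^ 2)
  have hsum : Integrable (fun x => F 0 x ^ 2 + F 1 x ^ 2) := (hF2 0).add (hF2 1)
  have hmeas : ∀ n : ℕ, MeasurableSet {x : (EuclideanSpace ℝ (Fin 2)) | (n : ℝ) + 1 ≤ ‖x‖} := fun n =>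
    measurableSet_le measurable_const measurable_norm
  have htail : Tendsto tail atTop (𝓝 0) := by
    have h1 : ∀ n, tail n = ∫ x, ({x : (EuclideanSpace ℝ (Fin 2)) | (n : ℝ) + 1 ≤ ‖x‖}).indicator
        (fun x => F 0 x ^ 2 + F 1 x ^ 2) x := fun n => (integral_indicator (hmeas n)).symm
    have h2 : Tendsto (fun n : ℕ => ∫ x, ({x : (EuclideanSpace ℝ (Fin 2)) | (n : ℝ) + 1 ≤ ‖x‖}).indicator
        (fun x => F 0 x ^ 2 + F 1 x ^ 2) x) atTop (𝓝 (∫ _ : (EuclideanSpace ℝ (Fin 2)), (0 : ℝ))) := by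
      apply tendsto_integral_of_dominated_convergence (fun x => F 0 x ^ 2 + F 1 x ^ 2)
      · intro n
        exact (hsum.indicator (hmeas n)).aestronglyMeasurable
      · exact hsum
      · intro n
        filter_upwards with x
        rw [Real.norm_eq_abs]
        unfold indicator
        split_ifs
        · rw [abs_of_nonneg (by positivity)]
        · rw [abs_zero]; positivity
      · filter_upwards with x
        apply tendsto_const_nhds.congr'
        obtain ⟨N, hN⟩ := exists_nat_ge ‖x‖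
        filter_upwards [eventually_ge_atTop N] with n hn
        rw [indicator_of_notMem]
        simp only [mem_ofPred_eq, not_le]
        have : (N : ℝ) ≤ n := by exact_mod_cast hn
        linarith
    simp only [integral_zero] at h2
    exact h2.congr fun n => (h1 n).symm
  -- the area of the unit disc
  set V : ℝ := (volume (Metric.ball (0 : (EuclideanSpace ℝ (Fin 2))) 1)).toReal with hV
  have hvol : ∀ R : ℝ, 0 < R → (volume (Metric.closedBall (0 : (EuclideanSpace ℝ (Fin 2))) (2 * R))).toReal =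
      (2 * R) ^ 2 * V := by
    intro R hR
    rw [Measure.addHaar_closedBall _ _ (by positivity), finrank_euclideanSpace_fin,
      ENNReal.toReal_mul, ENNReal.toReal_ofReal (by positivity)]
  have hV0 : 0 ≤ V := ENNReal.toReal_nonneg
  -- main estimate
  have key : ∀ η : ℝ, 0 < η → |∫ x, (pd 0 (F 0) x + pd 1 (F 1) x)| ≤
      2 * (η * (4 * C ^ 2 * V)) := by
    intro η hη
    apply div_zero_aux χ C hχ F hF hD (η * (4 * C ^ 2 * V))
      (fun n : ℕ => η * (4 * C ^ 2 * V) + η⁻¹ * tail n)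
    · have := (htail.const_mul η⁻¹).const_add (η * (4 * C ^ 2 * V))
      rwa [mul_zero, add_zero] at this
    · intro n i
      have hR : (0 : ℝ) < n + 1 := by positivity
      obtain ⟨hc, hs, h0, h1, h2, h3, h4, h5⟩ := hχ (n + 1) hR
      have hg1 : Integrable (({x : (EuclideanSpace ℝ (Fin 2)) | (n : ℝ) + 1 ≤ ‖x‖}).indicator
        (fun x => F 0 x ^ 2 + F 1 x ^ 2)) := hsum.indicator (hmeas n)
      have hg2 : Integrable ((Metric.closedBall (0 : (EuclideanSpace ℝ (Fin 2))) (2 * (n + 1))).indicator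
        (fun _ => (C / (n + 1)) ^ 2)) := by
        apply IntegrableOn.integrable_indicator _ Metric.isClosed_closedBall.measurableSet
        exact integrableOn_const (isCompact_closedBall _ _).measure_lt_top.ne
      calc |∫ x, pd i (χ (n + 1)) x * F i x| ≤ ∫ x, |pd i (χ (n + 1)) x * F i x| :=
            abs_integral_le_integral_abs
        _ ≤ ∫ x, (η * (Metric.closedBall (0 : (EuclideanSpace ℝ (Fin 2))) (2 * (n + 1))).indicator
              (fun _ => (C / (n + 1)) ^ 2) x + η⁻¹ * ({x : (EuclideanSpace ℝ (Fin 2)) | (n : ℝ) + 1 ≤ ‖x‖}).indicator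
              (fun x => F 0 x ^ 2 + F 1 x ^ 2) x) := by
            apply integral_mono_of_nonneg (Eventually.of_forall fun x => abs_nonneg _)
              ((hg2.const_mul _).add (hg1.const_mul _))
            filter_upwards with x
            by_cases hx1 : ‖x‖ < (n : ℝ) + 1
            · rw [h4 i x hx1, zero_mul, abs_zero]
              apply add_nonneg
              · apply mul_nonneg hη.le
                apply indicator_nonneg
                intro _ _
                positivity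
              · apply mul_nonneg (inv_pos.mpr hη).le
                apply indicator_nonneg
                intro _ _
                positivity
            by_cases hx2 : 2 * ((n : ℝ) + 1) < ‖x‖
            · rw [h5 i x hx2, zero_mul, abs_zero]
              apply add_nonneg
              · apply mul_nonneg hη.le
                apply indicator_nonneg
                intro _ _
                positivity
              · apply mul_nonneg (inv_pos.mpr hη).le
                apply indicator_nonneg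
                intro _ _
                positivity
            simp only [Pi.add_apply]
            rw [indicator_of_mem (by rw [mem_closedBall_zero_iff]; exact not_lt.mp hx2),
              indicator_of_mem (show x ∈ {x : (EuclideanSpace ℝ (Fin 2)) | (n : ℝ) + 1 ≤ ‖x‖} from not_lt.mp hx1), abs_mul]
            have hFi : |F i x| ^ 2 ≤ F 0 x ^ 2 + F 1 x ^ 2 := by
              rw [sq_abs]
              fin_cases i <;> simp only [Fin.zero_eta, Fin.mk_one] <;> nlinarith [sq_nonneg (F 0 x),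
                sq_nonneg (F 1 x)]
            have h3' := h3 i x
            have hp0 := abs_nonneg (pd i (χ (n + 1)) x)
            have hp1 := abs_nonneg (F i x)
            have hsq : |pd i (χ (n + 1)) x| ^ 2 ≤ (C / (n + 1)) ^ 2 :=
              pow_le_pow_left₀ hp0 h3' 2
            have hyoung : |pd i (χ (n + 1)) x| * |F i x| ≤
                η * |pd i (χ (n + 1)) x| ^ 2 + η⁻¹ * |F i x| ^ 2 := by
              have e1 : 0 ≤ (|F i x| - η * |pd i (χ (n + 1)) x|) ^ 2 := sq_nonneg _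
              have e2 : η⁻¹ * (|F i x| - η * |pd i (χ (n + 1)) x|) ^ 2 =
                  η⁻¹ * |F i x| ^ 2 - 2 * (|pd i (χ (n + 1)) x| * |F i x|) +
                  η * |pd i (χ (n + 1)) x| ^ 2 := by
                field_simp
                ring
              have e3 : 0 ≤ η⁻¹ * (|F i x| - η * |pd i (χ (n + 1)) x|) ^ 2 :=
                mul_nonneg (inv_pos.mpr hη).le e1
              have e4 : 0 ≤ |pd i (χ (n + 1)) x| * |F i x| := mul_nonneg hp0 hp1
              linarith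
            calc |pd i (χ (n + 1)) x| * |F i x| ≤
                η * |pd i (χ (n + 1)) x| ^ 2 + η⁻¹ * |F i x| ^ 2 := hyoung
              _ ≤ η * (C / (n + 1)) ^ 2 + η⁻¹ * (F 0 x ^ 2 + F 1 x ^ 2) :=
                add_le_add (mul_le_mul_of_nonneg_left hsq hη.le)
                  (mul_le_mul_of_nonneg_left hFi (inv_pos.mpr hη).le)
        _ = η * (4 * C ^ 2 * V) + η⁻¹ * tail n := by
            rw [integral_add (hg2.const_mul _) (hg1.const_mul _), integral_const_mul,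
              integral_const_mul, integral_indicator (hmeas n),
              integral_indicator Metric.isClosed_closedBall.measurableSet, setIntegral_const,
              Measure.real, hvol _ hR]
            congr 2
            rw [smul_eq_mul]
            field_simp
            ring
  have h0 : |∫ x, (pd 0 (F 0) x + pd 1 (F 1) x)| ≤ 0 := by
    apply le_of_forall_pos_le_add
    intro ε hε
    rw [zero_add]
    have hA : 0 ≤ 2 * (4 * C ^ 2 * V) := by positivity
    have h1 := key (ε / (2 * (4 * C ^ 2 * V) + 1)) (by positivity)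
    refine h1.trans ?_
    rw [show 2 * (ε / (2 * (4 * C ^ 2 * V) + 1) * (4 * C ^ 2 * V)) =
      ε * ((2 * (4 * C ^ 2 * V)) / (2 * (4 * C ^ 2 * V) + 1)) by ring]
    apply mul_le_of_le_one_right hε.le
    rw [div_le_one (by positivity)]
    linarith
  exact abs_eq_zero.mp (le_antisymm h0 (abs_nonneg _))

end Pool.Agent.EulerInflation.Stab

end

section

/-!
Two calculus lemmas: choice of the parameters. (helper41)
-/

open MeasureTheory Set
open scoped ENNReal NNReal ContDiff FourierTransform Real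

namespace Pool.Agent.EulerInflation

namespace Params

open Filter Topology

theorem ev_pow (A r : ℝ) (hr : 0 < r) : ∀ᶠ n : ℕ in atTop, A ≤ (n : ℝ) ^ r :=
  ((tendsto_rpow_atTop hr).comp tendsto_natCast_atTop_atTop).eventually_ge_atTop A

theorem ev_lin (A r : ℝ) (hr : 0 < r) : ∀ᶠ n : ℕ in atTop, A ≤ r * (n : ℝ) :=
  (tendsto_natCast_atTop_atTop.const_mul_atTop hr).eventually_ge_atTop A

theorem ev_log (B r : ℝ) (hr : 0 < r) : ∀ᶠ n : ℕ in atTop, B * Real.log n ≤ r * (n : ℝ) := by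
  have hB : 0 < |B| + 1 := by positivity
  have h := (isLittleO_log_rpow_atTop (show (0 : ℝ) < 1 by norm_num)).bound
    (c := r / (|B| + 1)) (by positivity)
  have h2 := tendsto_natCast_atTop_atTop (R := ℝ) |>.eventually h
  filter_upwards [h2] with n hn
  rw [Real.norm_eq_abs, Real.norm_eq_abs, Real.rpow_one, abs_of_nonneg (Nat.cast_nonneg n : (0 : ℝ) ≤ (n : ℝ))] at hn
  calc B * Real.log n ≤ |B| * |Real.log n| := by
        rw [← abs_mul]; exact le_abs_self _
    _ ≤ |B| * (r / (|B| + 1) * (n : ℝ)) := by gcongr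
    _ = (|B| / (|B| + 1)) * (r * (n : ℝ)) := by ring
    _ ≤ 1 * (r * (n : ℝ)) := by
        gcongr
        rw [div_le_one hB]; linarith
    _ = _ := one_mul _

/-- the kernel -/
noncomputable def ker (T y : ℝ) : ℝ := 1 / (1 + T ^ 2 * Real.cos y ^ 2)

theorem ker_pos (T y : ℝ) : 0 < 1 + T ^ 2 * Real.cos y ^ 2 := by positivity

theorem ker_cont (T : ℝ) : Continuous (ker T) := by
  unfold ker
  exact continuous_const.div (by fun_prop) (fun y => (ker_pos T y).ne')

theorem ker_nonneg (T y : ℝ) : 0 ≤ ker T y := by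
  unfold ker; exact (one_div_pos.2 (ker_pos T y)).le

theorem ker_le_one (T y : ℝ) : ker T y ≤ 1 := by
  unfold ker
  rw [div_le_one (ker_pos T y)]
  nlinarith [mul_nonneg (sq_nonneg T) (sq_nonneg (Real.cos y))]

theorem ker_periodic (T : ℝ) : Function.Periodic (ker T) Real.pi := by
  intro y
  unfold ker
  rw [Real.cos_add_pi]; ring

theorem ae_cos_ne : ∀ᵐ x : ℝ, Real.cos x ≠ 0 := by
  have : {x : ℝ | ¬ Real.cos x ≠ 0} ⊆ Set.range (fun k : ℤ => (2 * (k : ℝ) + 1) * Real.pi / 2) := by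
    intro x hx
    simp only [ne_eq, not_not, mem_ofPred_eq] at hx
    obtain ⟨k, hk⟩ := Real.cos_eq_zero_iff.1 hx
    exact ⟨k, hk.symm⟩
  exact (Set.Countable.mono this (Set.countable_range _)).measure_zero _

theorem period_tendsto : Tendsto (fun n : ℕ => ∫ y in (0 : ℝ)..Real.pi, ker n y) atTop (𝓝 0) := by
  have h := intervalIntegral.tendsto_integral_filter_of_dominated_convergence
    (μ := volume) (a := 0) (b := Real.pi) (l := (atTop : Filter ℕ)) (F := fun n : ℕ => ker n)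
    (f := fun _ => 0) (fun _ => 1)
    (Eventually.of_forall fun n => (ker_cont n).aestronglyMeasurable)
    (Eventually.of_forall fun n => Eventually.of_forall fun x _ => by
      rw [Real.norm_eq_abs, abs_of_nonneg (ker_nonneg _ _)]; exact ker_le_one _ _)
    (by simp)
    (by
      filter_upwards [ae_cos_ne] with x hx _
      have hc : 0 < Real.cos x ^ 2 := by positivity
      have h1 : Tendsto (fun n : ℕ => 1 + (n : ℝ) ^ 2 * Real.cos x ^ 2) atTop atTop := by
        apply tendsto_atTop_add_const_left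
        apply Tendsto.atTop_mul_const hc
        exact (tendsto_pow_atTop (by norm_num)).comp tendsto_natCast_atTop_atTop
      have h2 := h1.inv_tendsto_atTop
      refine h2.congr fun n => ?_
      simp [ker])
  simpa using h

end Params

open Params Filter Topology

theorem exists_large {s M κ C c : ℝ} (hs : 0 < s) (hs1 : s < 1) (hM : 0 < M) (hκ : 0 < κ)
    (hC : 0 < C) (hc : 0 < c) :
    ∃ (m K : ℕ), 0 < m ∧ 1 ≤ K ∧ M * (m : ℝ) ^ (-s) ≤ κ ∧ ((K : ℝ) + 1) / m ≤ κ ∧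
      C * (1 / 16 : ℝ) ^ K * Real.exp (C * (1 + M * (m : ℝ) ^ (1 - s))) ≤
        c * (M * (m : ℝ) ^ (-s)) ^ 2 := by
  have hl16 : 0 < Real.log 16 := Real.log_pos (by norm_num)
  set L : ℝ := Real.log 16 * κ with hL
  have hLpos : 0 < L := mul_pos hl16 hκ
  obtain ⟨Q, hQ⟩ : ∃ Q, Q = Real.log (256 * C / (c * M ^ 2)) := ⟨_, rfl⟩
  set A : ℝ := C + Q with hA
  obtain ⟨m, h1, h2, h3, h4, h5, h6⟩ := ((eventually_ge_atTop 1).and
    ((ev_pow (M / κ) s hs).and ((ev_lin 2 κ hκ).and ((ev_lin A (L / 3) (by positivity)).and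
    ((ev_pow (C * M / (L / 3)) s hs).and (ev_log (2 * s) (L / 3) (by positivity))))))).exists
  have hm : (0 : ℝ) < m := by exact_mod_cast h1
  set K : ℕ := ⌊κ * m⌋₊ - 1 with hK
  have hfl : 2 ≤ ⌊κ * (m : ℝ)⌋₊ := Nat.le_floor (by exact_mod_cast h3)
  have hK1 : ((K : ℝ)) + 1 = ⌊κ * (m : ℝ)⌋₊ := by
    have : K + 1 = ⌊κ * (m : ℝ)⌋₊ := by omega
    exact_mod_cast this
  have hfl2 : (⌊κ * (m : ℝ)⌋₊ : ℝ) ≤ κ * m := Nat.floor_le (by positivity)
  have hfl3 : κ * m < (⌊κ * (m : ℝ)⌋₊ : ℝ) + 1 := Nat.lt_floor_add_one _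
  refine ⟨m, K, h1, by omega, ?_, ?_, ?_⟩
  · rw [Real.rpow_neg hm.le, ← div_eq_mul_inv, div_le_iff₀ (by positivity)]
    rwa [div_le_iff₀ hκ, mul_comm] at h2
  · rw [div_le_iff₀ hm, hK1]; exact hfl2
  · have hK2 : κ * m - 2 ≤ K := by linarith
    have e1 : (1 / 16 : ℝ) ^ K ≤ 256 * Real.exp (-(L * m)) := by
      have e2 : (1 / 16 : ℝ) ^ K = Real.exp (-(Real.log 16 * K)) := by
        rw [← Real.rpow_natCast, Real.rpow_def_of_pos (by norm_num), one_div, Real.log_inv]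
        ring_nf
      have e3 : (256 : ℝ) = Real.exp (Real.log 16 * 2) := by
        rw [mul_comm, ← Real.log_rpow (by norm_num), Real.exp_log (by positivity)]
        norm_num
      rw [e2, e3, ← Real.exp_add]
      apply Real.exp_le_exp.2
      rw [hL]
      nlinarith
    have e4 : C * (M * (m : ℝ) ^ (1 - s)) ≤ L / 3 * m := by
      rw [div_le_iff₀ (by positivity)] at h5
      have h7 : (m : ℝ) ^ s * (m : ℝ) ^ (1 - s) = m := by
        rw [← Real.rpow_add hm]; norm_num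
      calc C * (M * (m : ℝ) ^ (1 - s)) = (C * M) * (m : ℝ) ^ (1 - s) := by ring
        _ ≤ ((m : ℝ) ^ s * (L / 3)) * (m : ℝ) ^ (1 - s) := by gcongr
        _ = L / 3 * ((m : ℝ) ^ s * (m : ℝ) ^ (1 - s)) := by ring
        _ = L / 3 * m := by rw [h7]
    have e5 : (m : ℝ) ^ (-s) * (m : ℝ) ^ (-s) = Real.exp (-(2 * s * Real.log m)) := by
      rw [← Real.rpow_add hm, Real.rpow_def_of_pos hm]
      ring_nf
    have hcM : 0 < c * M ^ 2 := by positivity
    have e6 : 256 * C = c * M ^ 2 * Real.exp Q := by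
      rw [hQ, Real.exp_log (by positivity)]
      field_simp
    calc C * (1 / 16 : ℝ) ^ K * Real.exp (C * (1 + M * (m : ℝ) ^ (1 - s)))
        ≤ C * (256 * Real.exp (-(L * m))) * Real.exp (C * (1 + M * (m : ℝ) ^ (1 - s))) := by
          gcongr
      _ = (256 * C) * (Real.exp (-(L * m)) * Real.exp (C * (1 + M * (m : ℝ) ^ (1 - s)))) := by ring
      _ = c * M ^ 2 * (Real.exp Q *
          (Real.exp (-(L * m)) * Real.exp (C * (1 + M * (m : ℝ) ^ (1 - s))))) := by
          rw [e6]; ring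
      _ = c * M ^ 2 * Real.exp (Q + (-(L * m) +
          C * (1 + M * (m : ℝ) ^ (1 - s)))) := by
          rw [← Real.exp_add, ← Real.exp_add]
      _ ≤ c * M ^ 2 * Real.exp (-(2 * s * Real.log m)) := by
          gcongr
          have e7 : C * (1 + M * (m : ℝ) ^ (1 - s)) = C + C * (M * (m : ℝ) ^ (1 - s)) := by ring
          rw [e7]
          rw [hA] at h4
          linarith
      _ = c * (M * (m : ℝ) ^ (-s)) ^ 2 := by
          rw [← e5]; ring

theorem exists_time {η : ℝ} (hη : 0 < η) : ∃ T : ℝ, 1 ≤ T ∧ ∀ L : ℝ, 1 ≤ L →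
    ∫ y in (-(L + 1))..(L + 1), 1 / (1 + T ^ 2 * Real.cos y ^ 2) ≤ η * L := by
  obtain ⟨n, h1, h2⟩ := ((eventually_ge_atTop 1).and
    (period_tendsto.eventually (gt_mem_nhds (show (0 : ℝ) < η / 3 by positivity)))).exists
  refine ⟨n, by exact_mod_cast h1, fun L hL => ?_⟩
  change ∫ y in (-(L + 1))..(L + 1), ker n y ≤ η * L
  have hpi := Real.pi_gt_three
  have hpi0 := Real.pi_pos
  have hint : ∀ t₁ t₂ : ℝ, IntervalIntegrable (ker n) volume t₁ t₂ :=
    fun t₁ t₂ => (ker_cont n).intervalIntegrable _ _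
  set N : ℤ := ⌈2 * (L + 1) / Real.pi⌉ with hN
  have hN1 : 2 * (L + 1) / Real.pi ≤ N := Int.le_ceil _
  have hN2 : (N : ℝ) < 2 * (L + 1) / Real.pi + 1 := Int.ceil_lt_add_one _
  have hN3 : (N : ℝ) ≤ 3 * L := by
    have : 2 * (L + 1) / Real.pi ≤ 2 * (L + 1) / 3 := by gcongr
    linarith
  have hN0 : (0 : ℝ) ≤ N := le_trans (by positivity) hN1
  have hend : L + 1 ≤ -(L + 1) + N * Real.pi := by
    rw [div_le_iff₀ hpi0] at hN1
    linarith
  have hper := (ker_periodic n).intervalIntegral_add_zsmul_eq N (-(L + 1)) hint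
  rw [(ker_periodic n).intervalIntegral_add_eq (-(L + 1)) 0, zero_add] at hper
  simp only [zsmul_eq_mul] at hper
  calc ∫ y in (-(L + 1))..(L + 1), ker n y ≤ ∫ y in (-(L + 1))..(-(L + 1) + N * Real.pi), ker n y :=
        intervalIntegral.integral_mono_interval le_rfl (by linarith) hend
          (Eventually.of_forall fun y => ker_nonneg _ _) (hint _ _)
    _ = N * ∫ y in (0 : ℝ)..Real.pi, ker n y := hper
    _ ≤ (3 * L) * (η / 3) := by
        refine mul_le_mul hN3 h2.le ?_ (by linarith)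
        exact intervalIntegral.integral_nonneg hpi0.le fun y _ => ker_nonneg _ _
    _ = η * L := by ring

end Pool.Agent.EulerInflation

end

section

/-!
Behaviour of the plane Sobolev norms under scaling.
-/

open MeasureTheory Set
open scoped ENNReal NNReal ContDiff FourierTransform Real

namespace Pool.Agent.EulerInflation

theorem integral_scaled {c : ℝ} (hc : 0 < c) (f : EuclideanSpace ℝ (Fin 2) → ℝ) :
    ∫ x, f (c⁻¹ • x) = c ^ 2 * ∫ x, f x := by
  have h := Measure.integral_comp_inv_smul_of_nonneg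
    (volume : Measure (EuclideanSpace ℝ (Fin 2))) f hc.le
  rw [h, finrank_euclideanSpace_fin, smul_eq_mul]

theorem pd_scaled {c : ℝ} (f : EuclideanSpace ℝ (Fin 2) → ℝ) (hf : Differentiable ℝ f)
    (i : Fin 2) (x : EuclideanSpace ℝ (Fin 2)) :
    pd i (fun y => f (c • y)) x = c * pd i f (c • x) := by
  unfold pd
  have h1 : HasFDerivAt (fun y : EuclideanSpace ℝ (Fin 2) => c • y)
      (c • ContinuousLinearMap.id ℝ (EuclideanSpace ℝ (Fin 2))) x :=
    (hasFDerivAt_id x).const_smul c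
  have h2 := (hf (c • x)).hasFDerivAt.comp x h1
  have h3 : fderiv ℝ (fun y => f (c • y)) x = _ := h2.fderiv
  rw [h3]
  simp

theorem pd_const_mul {c : ℝ} (f : EuclideanSpace ℝ (Fin 2) → ℝ) (hf : Differentiable ℝ f)
    (i : Fin 2) (x : EuclideanSpace ℝ (Fin 2)) :
    pd i (fun y => c * f y) x = c * pd i f x := by
  unfold pd
  rw [fderiv_const_mul (hf x)]
  simp

theorem sq_rpow_mul {s : ℝ} {x : ℝ} (hx : 0 < x) (k : ℝ) : (x ^ k) ^ s = x ^ (k * s) := by
  rw [Real.rpow_mul hx.le]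

theorem sobSq_scaled {s : ℝ} (hs : 0 < s) (hs1 : s < 1) {lam τ L a b σ : ℝ} (hlam : 0 < lam)
    (hlam1 : lam ≤ 1) (hτ : 0 < τ) (hL : 0 < L) (ha : 0 ≤ a) (hb : 0 ≤ b) (hσ : σ ^ 2 = 1)
    {F : EuclideanSpace ℝ (Fin 2) → ℝ} (hF : ContDiff ℝ ∞ F) (hFc : HasCompactSupport F)
    (hA : ∫ x, F x ^ 2 ≤ a * L ^ 2)
    (hB : (∫ x, F x ^ 2) + (∫ x, pd 0 F x ^ 2) + (∫ x, pd 1 F x ^ 2) ≤ b * L ^ 2) :
    sobSq s (fun x => ((σ * (lam / τ) * F (lam⁻¹ • x) : ℝ) : ℂ)) ≤
      ENNReal.ofReal (lam ^ (4 - 2 * s) * L ^ 2 / τ ^ 2 * (a ^ (1 - s) * b ^ s)) := by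
  have hlam0 : lam ≠ 0 := hlam.ne'
  have hτ0 : τ ≠ 0 := hτ.ne'
  have hFd : Differentiable ℝ F := hF.differentiable (by simp)
  have hsm : ContDiff ℝ ∞ (fun x : EuclideanSpace ℝ (Fin 2) => lam⁻¹ • x) :=
    contDiff_id.const_smul _
  have hFs : ContDiff ℝ ∞ (fun x : EuclideanSpace ℝ (Fin 2) => F (lam⁻¹ • x)) := hF.comp hsm
  have hf : ContDiff ℝ ∞ (fun x : EuclideanSpace ℝ (Fin 2) => σ * (lam / τ) * F (lam⁻¹ • x)) :=
    contDiff_const.mul hFs
  have hfc : HasCompactSupport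
      (fun x : EuclideanSpace ℝ (Fin 2) => σ * (lam / τ) * F (lam⁻¹ • x)) := by
    have h1 : HasCompactSupport (fun x : EuclideanSpace ℝ (Fin 2) => F (lam⁻¹ • x)) :=
      hFc.comp_smul (inv_ne_zero hlam0)
    exact h1.mul_left
  have e0 : ∫ x : EuclideanSpace ℝ (Fin 2), (σ * (lam / τ) * F (lam⁻¹ • x)) ^ 2 =
      lam ^ 4 / τ ^ 2 * ∫ x, F x ^ 2 := by
    have h1 : ∀ x : EuclideanSpace ℝ (Fin 2), (σ * (lam / τ) * F (lam⁻¹ • x)) ^ 2 =
        (lam ^ 2 / τ ^ 2) * F (lam⁻¹ • x) ^ 2 := by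
      intro x
      rw [mul_pow, mul_pow, hσ, div_pow, one_mul]
    simp_rw [h1]
    rw [integral_const_mul, integral_scaled hlam (fun x => F x ^ 2)]
    field_simp
  have e1 : ∀ i : Fin 2, ∫ x : EuclideanSpace ℝ (Fin 2),
      (pd i (fun x => σ * (lam / τ) * F (lam⁻¹ • x)) x) ^ 2 =
      lam ^ 2 / τ ^ 2 * ∫ x, pd i F x ^ 2 := by
    intro i
    have h1 : ∀ x : EuclideanSpace ℝ (Fin 2),
        (pd i (fun x => σ * (lam / τ) * F (lam⁻¹ • x)) x) ^ 2 =
        (1 / τ ^ 2) * pd i F (lam⁻¹ • x) ^ 2 := by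
      intro x
      rw [pd_const_mul _ (hFs.differentiable (by simp)), pd_scaled F hFd]
      have : (σ * (lam / τ) * (lam⁻¹ * pd i F (lam⁻¹ • x))) ^ 2 =
          σ ^ 2 * (1 / τ ^ 2) * pd i F (lam⁻¹ • x) ^ 2 := by
        field_simp
      rw [this, hσ, one_mul]
    simp_rw [h1]
    rw [integral_const_mul, integral_scaled hlam (fun x => pd i F x ^ 2)]
    ring
  have hI0 : 0 ≤ ∫ x, F x ^ 2 := integral_nonneg (fun x => by positivity)
  have hI1 : 0 ≤ ∫ x, pd 0 F x ^ 2 := integral_nonneg (fun x => by positivity)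
  have hI2 : 0 ≤ ∫ x, pd 1 F x ^ 2 := integral_nonneg (fun x => by positivity)
  have key := sobSq_le (s := s) hs hs1 hf hfc (A := lam ^ 4 / τ ^ 2 * (a * L ^ 2))
    (B := lam ^ 2 / τ ^ 2 * (b * L ^ 2)) (by
      rw [e0]
      exact mul_le_mul_of_nonneg_left hA (by positivity)) (by
      rw [e0, e1, e1]
      have h2 : lam ^ 4 / τ ^ 2 * ∫ x, F x ^ 2 ≤ lam ^ 2 / τ ^ 2 * ∫ x, F x ^ 2 := by
        apply mul_le_mul_of_nonneg_right _ hI0
        apply div_le_div_of_nonneg_right _ (by positivity)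
        exact pow_le_pow_of_le_one hlam.le hlam1 (by norm_num)
      calc _ ≤ lam ^ 2 / τ ^ 2 * (∫ x, F x ^ 2) + lam ^ 2 / τ ^ 2 * (∫ x, pd 0 F x ^ 2) +
          lam ^ 2 / τ ^ 2 * (∫ x, pd 1 F x ^ 2) := by linarith
        _ = lam ^ 2 / τ ^ 2 * ((∫ x, F x ^ 2) + (∫ x, pd 0 F x ^ 2) + (∫ x, pd 1 F x ^ 2)) := by
          ring
        _ ≤ _ := mul_le_mul_of_nonneg_left hB (by positivity))
  refine key.trans (le_of_eq ?_)
  congr 1
  have hlt : lam ^ 4 / τ ^ 2 * (a * L ^ 2) = (lam ^ 4 * (L ^ 2 / τ ^ 2)) * a := by ring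
  have hlt' : lam ^ 2 / τ ^ 2 * (b * L ^ 2) = (lam ^ 2 * (L ^ 2 / τ ^ 2)) * b := by ring
  rw [hlt, hlt', Real.mul_rpow (by positivity) ha, Real.mul_rpow (by positivity) hb,
    Real.mul_rpow (by positivity) (by positivity), Real.mul_rpow (by positivity) (by positivity)]
  have h4 : (lam ^ 4) ^ (1 - s) * (lam ^ 2) ^ s = lam ^ (4 - 2 * s) := by
    rw [← Real.rpow_natCast, ← Real.rpow_natCast, ← Real.rpow_mul hlam.le, ← Real.rpow_mul hlam.le,
      ← Real.rpow_add hlam]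
    congr 1
    push_cast
    ring
  have h5 : (L ^ 2 / τ ^ 2) ^ (1 - s) * (L ^ 2 / τ ^ 2) ^ s = L ^ 2 / τ ^ 2 := by
    rw [← Real.rpow_add (by positivity), sub_add_cancel, Real.rpow_one]
  calc (lam ^ 4) ^ (1 - s) * (L ^ 2 / τ ^ 2) ^ (1 - s) * a ^ (1 - s) *
        ((lam ^ 2) ^ s * (L ^ 2 / τ ^ 2) ^ s * b ^ s) =
      ((lam ^ 4) ^ (1 - s) * (lam ^ 2) ^ s) *
        ((L ^ 2 / τ ^ 2) ^ (1 - s) * (L ^ 2 / τ ^ 2) ^ s) * (a ^ (1 - s) * b ^ s) := by ring
    _ = _ := by rw [h4, h5]; ring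

theorem integral_mul_sq_le {w G : EuclideanSpace ℝ (Fin 2) → ℝ} (hw : MemLp w 2 volume)
    (hG : MemLp G 2 volume) :
    (∫ x, w x * G x) ^ 2 ≤ (∫ x, w x ^ 2) * ∫ x, G x ^ 2 := by
  have e1 : ∀ {u v : EuclideanSpace ℝ (Fin 2) → ℝ} (hu : MemLp u 2 volume)
      (hv : MemLp v 2 volume),
      (inner ℝ (hu.toLp u) (hv.toLp v) : ℝ) = ∫ x, u x * v x := by
    intro u v hu hv
    rw [L2.inner_def]
    apply integral_congr_ae
    filter_upwards [hu.coeFn_toLp, hv.coeFn_toLp] with x h1 h2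
    rw [h1, h2]
    simp [mul_comm]
  have h := real_inner_mul_inner_self_le (hw.toLp w) (hG.toLp G)
  rw [e1, e1, e1] at h
  calc (∫ x, w x * G x) ^ 2 = (∫ x, w x * G x) * ∫ x, w x * G x := by ring
    _ ≤ _ := h
    _ = _ := by simp_rw [sq]

theorem lower_scaled {s : ℝ} (hs : 0 < s) (hs1 : s < 1) {lam τ L D m μ : ℝ} (hlam : 0 < lam)
    (hτ : 0 < τ) (hL : 0 < L) (hD : 0 < D) (hm : 0 < m) (hμ : 0 < μ)
    {H : EuclideanSpace ℝ (Fin 2) → ℝ} (hH : ContDiff ℝ ∞ H) (hHc : HasCompactSupport H)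
    (hA : ∫ x, pd 0 H x ^ 2 ≤ D * m ^ 2 * L ^ 2) (hB : 2 * ∫ x, H x ^ 2 ≤ D * L ^ 2)
    {g : EuclideanSpace ℝ (Fin 2) → ℝ} (hg : MemLp g 2 volume)
    (hgG : lam ^ 3 / (2 * τ) * (μ * L ^ 2) ≤ |∫ x, g x * (m⁻¹ * pd 0 H (lam⁻¹ • x))|) :
    ENNReal.ofReal (lam ^ (4 - 2 * s) * L ^ 2 / τ ^ 2 * (μ ^ 2 * m ^ (2 * s)) / (4 * D)) ≤
      sobSq s (fun x => (g x : ℂ)) := by
  have hlam0 : lam ≠ 0 := hlam.ne'
  have hm0 : m ≠ 0 := hm.ne'
  have hHd : Differentiable ℝ H := hH.differentiable (by simp)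
  have hsm : ContDiff ℝ ∞ (fun x : EuclideanSpace ℝ (Fin 2) => lam⁻¹ • x) :=
    contDiff_id.const_smul _
  have hHs : ContDiff ℝ ∞ (fun x : EuclideanSpace ℝ (Fin 2) => H (lam⁻¹ • x)) := hH.comp hsm
  have hf : ContDiff ℝ ∞ (fun x : EuclideanSpace ℝ (Fin 2) => (m⁻¹ * lam) * H (lam⁻¹ • x)) :=
    contDiff_const.mul hHs
  have hfc : HasCompactSupport
      (fun x : EuclideanSpace ℝ (Fin 2) => (m⁻¹ * lam) * H (lam⁻¹ • x)) := by
    have h1 : HasCompactSupport (fun x : EuclideanSpace ℝ (Fin 2) => H (lam⁻¹ • x)) :=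
      hHc.comp_smul (inv_ne_zero hlam0)
    exact h1.mul_left
  have e1 : ∀ x : EuclideanSpace ℝ (Fin 2),
      pd 0 (fun x => (m⁻¹ * lam) * H (lam⁻¹ • x)) x = m⁻¹ * pd 0 H (lam⁻¹ • x) := by
    intro x
    rw [pd_const_mul _ (hHs.differentiable (by simp)), pd_scaled H hHd]
    field_simp
  have hA' : ∫ x : EuclideanSpace ℝ (Fin 2),
      (pd 0 (fun x => (m⁻¹ * lam) * H (lam⁻¹ • x)) x + (fun _ => (0 : ℝ)) x) ^ 2 ≤
      lam ^ 2 * (D * L ^ 2) := by
    simp_rw [e1, add_zero]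
    have h1 : ∀ x : EuclideanSpace ℝ (Fin 2), (m⁻¹ * pd 0 H (lam⁻¹ • x)) ^ 2 =
        (m⁻¹) ^ 2 * pd 0 H (lam⁻¹ • x) ^ 2 := fun x => by ring
    simp_rw [h1]
    rw [integral_const_mul, integral_scaled hlam (fun x => pd 0 H x ^ 2)]
    calc (m⁻¹) ^ 2 * (lam ^ 2 * ∫ x, pd 0 H x ^ 2) ≤
        (m⁻¹) ^ 2 * (lam ^ 2 * (D * m ^ 2 * L ^ 2)) := by gcongr
      _ = _ := by field_simp
  have hB' : 2 * ((∫ x : EuclideanSpace ℝ (Fin 2), ((m⁻¹ * lam) * H (lam⁻¹ • x)) ^ 2) +
      (∫ x : EuclideanSpace ℝ (Fin 2), ((fun _ => (0 : ℝ)) x) ^ 2)) ≤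
      lam ^ 4 * (D * L ^ 2) * (m⁻¹) ^ 2 := by
    have h1 : ∀ x : EuclideanSpace ℝ (Fin 2), ((m⁻¹ * lam) * H (lam⁻¹ • x)) ^ 2 =
        (m⁻¹ * lam) ^ 2 * H (lam⁻¹ • x) ^ 2 := fun x => by ring
    simp_rw [h1]
    rw [integral_const_mul, integral_scaled hlam (fun x => H x ^ 2)]
    simp only [ne_eq, OfNat.ofNat_ne_zero, not_false_eq_true, zero_pow, integral_zero, add_zero]
    calc 2 * ((m⁻¹ * lam) ^ 2 * (lam ^ 2 * ∫ x, H x ^ 2)) =
        (m⁻¹ ^ 2 * lam ^ 4) * (2 * ∫ x, H x ^ 2) := by ring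
      _ ≤ (m⁻¹ ^ 2 * lam ^ 4) * (D * L ^ 2) := by gcongr
      _ = _ := by ring
  have hz : ContDiff ℝ ∞ (fun _ : EuclideanSpace ℝ (Fin 2) => (0 : ℝ)) := contDiff_const
  have hzc : HasCompactSupport (fun _ : EuclideanSpace ℝ (Fin 2) => (0 : ℝ)) :=
    HasCompactSupport.zero
  have key := pairing_sq_le (s := s) hs hs1 hg hf hfc hz hzc hA' hB'
  simp only [e1, add_zero] at key
  have hP : 0 < (lam ^ 2 * (D * L ^ 2)) ^ (1 - s) * (lam ^ 4 * (D * L ^ 2) * (m⁻¹) ^ 2) ^ s := by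
    positivity
  have hPe : (lam ^ 2 * (D * L ^ 2)) ^ (1 - s) * (lam ^ 4 * (D * L ^ 2) * (m⁻¹) ^ 2) ^ s =
      lam ^ (2 + 2 * s) * (D * L ^ 2) * (m ^ (2 * s))⁻¹ := by
    rw [Real.mul_rpow (x := lam ^ 2) (y := D * L ^ 2) (by positivity) (by positivity),
      Real.mul_rpow (x := lam ^ 4 * (D * L ^ 2)) (y := (m⁻¹) ^ 2) (by positivity) (by positivity),
      Real.mul_rpow (x := lam ^ 4) (y := D * L ^ 2) (by positivity) (by positivity)]
    have h4 : (lam ^ 2) ^ (1 - s) * (lam ^ 4) ^ s = lam ^ (2 + 2 * s) := by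
      rw [← Real.rpow_natCast, ← Real.rpow_natCast, ← Real.rpow_mul hlam.le,
        ← Real.rpow_mul hlam.le, ← Real.rpow_add hlam]
      congr 1
      push_cast
      ring
    have h5 : (D * L ^ 2) ^ (1 - s) * (D * L ^ 2) ^ s = D * L ^ 2 := by
      rw [← Real.rpow_add (by positivity), sub_add_cancel, Real.rpow_one]
    have h6 : ((m⁻¹) ^ 2) ^ s = (m ^ (2 * s))⁻¹ := by
      rw [inv_pow, Real.inv_rpow (by positivity), ← Real.rpow_natCast, ← Real.rpow_mul hm.le]
      norm_num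
    calc (lam ^ 2) ^ (1 - s) * (D * L ^ 2) ^ (1 - s) *
          ((lam ^ 4) ^ s * (D * L ^ 2) ^ s * ((m⁻¹) ^ 2) ^ s) =
        ((lam ^ 2) ^ (1 - s) * (lam ^ 4) ^ s) * ((D * L ^ 2) ^ (1 - s) * (D * L ^ 2) ^ s) *
          ((m⁻¹) ^ 2) ^ s := by ring
      _ = _ := by rw [h4, h5, h6]
  set P := (lam ^ 2 * (D * L ^ 2)) ^ (1 - s) * (lam ^ 4 * (D * L ^ 2) * (m⁻¹) ^ 2) ^ s with hPdef
  have hsq : (lam ^ 3 / (2 * τ) * (μ * L ^ 2)) ^ 2 ≤
      (∫ x, g x * (m⁻¹ * pd 0 H (lam⁻¹ • x))) ^ 2 := by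
    rw [← sq_abs (∫ x, g x * (m⁻¹ * pd 0 H (lam⁻¹ • x)))]
    exact pow_le_pow_left₀ (by positivity) hgG 2
  have hT : lam ^ (4 - 2 * s) * L ^ 2 / τ ^ 2 * (μ ^ 2 * m ^ (2 * s)) / (4 * D) * P =
      (lam ^ 3 / (2 * τ) * (μ * L ^ 2)) ^ 2 := by
    rw [hPe]
    have h7 : lam ^ (4 - 2 * s) * lam ^ (2 + 2 * s) = lam ^ 6 := by
      rw [← Real.rpow_add hlam, ← Real.rpow_natCast]
      congr 1
      push_cast
      ring
    have h8 : m ^ (2 * s) ≠ 0 := (Real.rpow_pos_of_pos hm _).ne'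
    calc lam ^ (4 - 2 * s) * L ^ 2 / τ ^ 2 * (μ ^ 2 * m ^ (2 * s)) / (4 * D) *
          (lam ^ (2 + 2 * s) * (D * L ^ 2) * (m ^ (2 * s))⁻¹) =
        (lam ^ (4 - 2 * s) * lam ^ (2 + 2 * s)) * (L ^ 2 / τ ^ 2 * (μ ^ 2 * m ^ (2 * s)) / (4 * D) *
          ((D * L ^ 2) * (m ^ (2 * s))⁻¹)) := by ring
      _ = _ := by
        rw [h7]
        field_simp
        ring
  have h9 : ENNReal.ofReal (lam ^ (4 - 2 * s) * L ^ 2 / τ ^ 2 * (μ ^ 2 * m ^ (2 * s)) / (4 * D)) *
      ENNReal.ofReal P ≤ sobSq s (fun x => (g x : ℂ)) * ENNReal.ofReal P := by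
    rw [← ENNReal.ofReal_mul (by positivity), hT]
    exact (ENNReal.ofReal_le_ofReal hsq).trans key
  exact (ENNReal.mul_le_mul_iff_left (by simpa using hP) ENNReal.ofReal_ne_top).1 h9

end Pool.Agent.EulerInflation

end

section

/-!
Quasi-additivity of the square of the Sobolev norm.
-/

open MeasureTheory Set
open scoped ENNReal NNReal ContDiff FourierTransform Real

namespace Pool.Agent.EulerInflation

namespace SobAdd

/-- `|a + b|^2 ≤ 2 (|a|^2 + |b|^2)` -/
theorem enorm_add_sq (a b : ℂ) : ‖a + b‖ₑ ^ 2 ≤ 2 * (‖a‖ₑ ^ 2 + ‖b‖ₑ ^ 2) := by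
  have h : ‖a + b‖ ^ 2 ≤ 2 * (‖a‖ ^ 2 + ‖b‖ ^ 2) := by
    have h1 := norm_add_le a b
    have h2 := norm_nonneg (a + b)
    nlinarith [sq_nonneg (‖a‖ - ‖b‖), norm_nonneg a, norm_nonneg b]
  rw [← ofReal_norm, ← ofReal_norm, ← ofReal_norm,
    ← ENNReal.ofReal_pow (norm_nonneg _), ← ENNReal.ofReal_pow (norm_nonneg _),
    ← ENNReal.ofReal_pow (norm_nonneg _), ← ENNReal.ofReal_add (by positivity) (by positivity),
    show (2 : ℝ≥0∞) = ENNReal.ofReal 2 by simp, ← ENNReal.ofReal_mul (by norm_num)]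
  exact ENNReal.ofReal_le_ofReal h

end SobAdd

theorem sobSq_add {s : ℝ} {f g : EuclideanSpace ℝ (Fin 2) → ℝ} (hf : MemLp f 2 volume)
    (hg : MemLp g 2 volume) :
    sobSq s (fun x => ((f x + g x : ℝ) : ℂ)) ≤
      2 * (sobSq s (fun x => (f x : ℂ)) + sobSq s (fun x => (g x : ℂ))) := by
  have hf' : MemLp (fun x => (f x : ℂ)) 2 volume := hf.ofReal
  have hg' : MemLp (fun x => (g x : ℂ)) 2 volume := hg.ofReal
  have hfg : MemLp (fun x => ((f x + g x : ℝ) : ℂ)) 2 volume := (hf.add hg).ofReal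
  rw [sobSq, sobSq, sobSq, dif_pos hf', dif_pos hg', dif_pos hfg]
  have h1 : hfg.toLp _ = hf'.toLp _ + hg'.toLp _ := by
    rw [← MemLp.toLp_add]
    congr 1
    funext x
    simp
  have h2 : (𝓕 (hfg.toLp _) : Lp ℂ 2 (volume : Measure (EuclideanSpace ℝ (Fin 2)))) =
      𝓕 (hf'.toLp _) + 𝓕 (hg'.toLp _) := by
    rw [h1]
    exact FourierTransform.fourier_add _ _
  rw [h2]
  set F := (𝓕 (hf'.toLp _) : Lp ℂ 2 (volume : Measure (EuclideanSpace ℝ (Fin 2))))
  set G := (𝓕 (hg'.toLp _) : Lp ℂ 2 (volume : Measure (EuclideanSpace ℝ (Fin 2))))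
  have hW : Measurable (fun ξ : EuclideanSpace ℝ (Fin 2) =>
      ENNReal.ofReal ((1 + (2 * π * ‖ξ‖) ^ 2) ^ s)) := by
    fun_prop
  rw [← lintegral_add_left', ← lintegral_const_mul']
  · refine lintegral_mono_ae ?_
    filter_upwards [Lp.coeFn_add F G] with ξ hξ
    rw [hξ, Pi.add_apply]
    calc _ ≤ ENNReal.ofReal ((1 + (2 * π * ‖ξ‖) ^ 2) ^ s) *
        (2 * (‖F ξ‖ₑ ^ 2 + ‖G ξ‖ₑ ^ 2)) := by
          gcongr
          exact SobAdd.enorm_add_sq _ _
      _ = _ := by ring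
  · simp
  · exact hW.aemeasurable.mul ((Lp.aestronglyMeasurable F).enorm.pow_const 2)

end Pool.Agent.EulerInflation

end

section

/-!
Bounds for the time integral and the time derivative.
-/

open Polynomial

namespace Pool.Agent.EulerInflation

theorem hasDerivAt_integ_eval (p : ℂ[X]) (t : ℂ) (σ : ℝ) :
    HasDerivAt (fun σ : ℝ => (integ p).eval ((σ : ℂ) * t)) (t * p.eval ((σ : ℂ) * t)) σ := by
  have h1 : HasDerivAt (fun z : ℂ => (integ p).eval z) ((derivative (integ p)).eval ((σ : ℂ) * t))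
      ((σ : ℂ) * t) := (integ p).hasDerivAt _
  rw [derivative_integ] at h1
  have h2 : HasDerivAt (fun σ : ℝ => (σ : ℂ) * t) t σ := by
    have := (Complex.ofRealCLM.hasDerivAt (x := σ)).mul_const t
    simpa using this
  have h3 := HasDerivAt.comp σ h1 h2
  rw [mul_comm t]
  exact h3

theorem integ_eval_eq (p : ℂ[X]) (t : ℂ) :
    (integ p).eval t = ∫ σ in (0:ℝ)..1, t * p.eval ((σ : ℂ) * t) := by
  have h := intervalIntegral.integral_eq_sub_of_hasDerivAt (a := (0:ℝ)) (b := 1)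
    (f := fun σ : ℝ => (integ p).eval ((σ : ℂ) * t)) (f' := fun σ : ℝ => t * p.eval ((σ : ℂ) * t))
    (fun σ _ => hasDerivAt_integ_eval p t σ)
    (Continuous.intervalIntegrable (by fun_prop) _ _)
  rw [h]
  simp [integ_eval_zero]

theorem gn_It_le {c : Idx → ℝ} (hc : ∀ a, 0 ≤ c a) {t : ℂ} {f : BB} {A : ℝ} {k : ℕ}
    (h : ∀ σ : ℝ, 0 ≤ σ → σ ≤ 1 → gn c ((σ : ℂ) * t) f ≤ A * (1 + σ * ‖t‖) ^ k) :
    gn c t (It f) ≤ A * (1 + ‖t‖) ^ (k + 1) / (k + 1) := by
  have hA : 0 ≤ A := by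
    have := (gn_nonneg hc _ f).trans (h 0 le_rfl zero_le_one)
    simpa using this
  have h1 : (It f).coeff.support ⊆ f.coeff.support := by
    intro a ha
    rw [Finsupp.mem_support_iff] at ha ⊢
    intro h0
    apply ha
    rw [It, op_coeff, h0, map_zero]
  rw [gn_eq_sum c t _ h1]
  have h2 : ∀ a ∈ f.coeff.support, ‖((It f).coeff a).eval t‖ * c a ≤
      ∫ σ in (0:ℝ)..1, ‖t‖ * (‖(f.coeff a).eval ((σ : ℂ) * t)‖ * c a) := by
    intro a _
    rw [It, op_coeff, integ_eval_eq]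
    have h3 : ‖∫ σ in (0:ℝ)..1, t * (f.coeff a).eval ((σ : ℂ) * t)‖ ≤
        ∫ σ in (0:ℝ)..1, ‖t * (f.coeff a).eval ((σ : ℂ) * t)‖ :=
      intervalIntegral.norm_integral_le_integral_norm zero_le_one
    calc _ ≤ (∫ σ in (0:ℝ)..1, ‖t * (f.coeff a).eval ((σ : ℂ) * t)‖) * c a :=
          mul_le_mul_of_nonneg_right h3 (hc a)
      _ = _ := by
          rw [← intervalIntegral.integral_mul_const]
          apply intervalIntegral.integral_congr
          intro σ _
          simp only [norm_mul]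
          ring
  refine (Finset.sum_le_sum h2).trans ?_
  rw [← intervalIntegral.integral_finsetSum]
  · have h4 : ∀ σ : ℝ, ∑ a ∈ f.coeff.support, ‖t‖ * (‖(f.coeff a).eval ((σ : ℂ) * t)‖ * c a) =
        ‖t‖ * gn c ((σ : ℂ) * t) f := by
      intro σ
      rw [gn, Finset.mul_sum]
    simp_rw [h4]
    have h5 : ∫ σ in (0:ℝ)..1, ‖t‖ * gn c ((σ : ℂ) * t) f ≤
        ∫ σ in (0:ℝ)..1, ‖t‖ * (A * (1 + σ * ‖t‖) ^ k) := by
      apply intervalIntegral.integral_mono_on zero_le_one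
      · apply Continuous.intervalIntegrable
        unfold gn
        fun_prop
      · apply Continuous.intervalIntegrable
        fun_prop
      · intro σ hσ
        exact mul_le_mul_of_nonneg_left (h σ hσ.1 hσ.2) (norm_nonneg _)
    refine h5.trans ?_
    have h6 : ∫ σ in (0:ℝ)..1, ‖t‖ * (A * (1 + σ * ‖t‖) ^ k) =
        A * (1 + 1 * ‖t‖) ^ (k + 1) / (k + 1) - A * (1 + 0 * ‖t‖) ^ (k + 1) / (k + 1) := by
      apply intervalIntegral.integral_eq_sub_of_hasDerivAt
        (f := fun σ : ℝ => A * (1 + σ * ‖t‖) ^ (k + 1) / (k + 1))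
      · intro σ _
        have hk : ((k : ℝ) + 1) ≠ 0 := by positivity
        have h7 : HasDerivAt (fun σ : ℝ => 1 + σ * ‖t‖) ‖t‖ σ := by
          simpa using ((hasDerivAt_id σ).mul_const ‖t‖).const_add 1
        have h8 := ((h7.pow (k + 1)).const_mul A).div_const (k + 1 : ℝ)
        refine h8.congr_deriv ?_
        rw [Nat.add_sub_cancel]
        push_cast
        field_simp
      · apply Continuous.intervalIntegrable
        fun_prop
    rw [h6, one_mul]
    have : 0 ≤ A * (1 + 0 * ‖t‖) ^ (k + 1) / ((k : ℝ) + 1) := by positivity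
    linarith
  · intro a _
    apply Continuous.intervalIntegrable
    fun_prop

theorem gn_Dt_le {c : Idx → ℝ} (hc : ∀ a, 0 ≤ c a) {t : ℂ} {f : BB} {A b : ℝ} (hb : 0 < b)
    (h : ∀ z : ℂ, ‖z - t‖ = b → gn c z f ≤ A) :
    gn c t (Dt f) ≤ A / b := by
  have h1 : (Dt f).coeff.support ⊆ f.coeff.support := by
    intro a ha
    rw [Finsupp.mem_support_iff] at ha ⊢
    intro h0
    apply ha
    rw [Dt, op_coeff, h0, map_zero]
  rw [gn_eq_sum c t _ h1]
  have hu : ∀ a : Idx, ∃ u : ℂ, ‖u‖ = 1 ∧ u * ((Dt f).coeff a).eval t =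
      (‖((Dt f).coeff a).eval t‖ : ℂ) := by
    intro a
    by_cases h0 : ((Dt f).coeff a).eval t = 0
    · exact ⟨1, by simp, by simp [h0]⟩
    · have hn : (‖((Dt f).coeff a).eval t‖ : ℂ) ≠ 0 := by
        exact_mod_cast norm_ne_zero_iff.mpr h0
      refine ⟨(‖((Dt f).coeff a).eval t‖ : ℂ) / ((Dt f).coeff a).eval t, ?_, ?_⟩
      · rw [norm_div]
        simp [norm_ne_zero_iff.mpr h0]
      · field_simp
  choose u hu1 hu2 using hu
  set G : ℂ → ℂ := fun z => ∑ a ∈ f.coeff.support, (c a : ℂ) * (u a * (f.coeff a).eval z) with hG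
  have hGd : ∀ z, HasDerivAt G (∑ a ∈ f.coeff.support,
      (c a : ℂ) * (u a * ((Dt f).coeff a).eval z)) z := by
    intro z
    apply HasDerivAt.fun_sum
    intro a _
    apply HasDerivAt.const_mul
    apply HasDerivAt.const_mul
    rw [Dt, op_coeff]
    exact (f.coeff a).hasDerivAt z
  have hder : deriv G t = ((∑ a ∈ f.coeff.support, ‖((Dt f).coeff a).eval t‖ * c a : ℝ) : ℂ) := by
    rw [(hGd t).deriv]
    push_cast
    apply Finset.sum_congr rfl
    intro a _
    rw [hu2 a]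
    ring
  have hbd : ∀ z ∈ Metric.sphere t b, ‖G z‖ ≤ A := by
    intro z hz
    rw [mem_sphere_iff_norm] at hz
    refine le_trans ?_ (h z hz)
    refine (norm_sum_le _ _).trans ?_
    unfold gn
    apply Finset.sum_le_sum
    intro a _
    rw [norm_mul, norm_mul, hu1 a, one_mul, Complex.norm_real, Real.norm_of_nonneg (hc a)]
    exact le_of_eq (mul_comm _ _)
  have hfin := Complex.norm_deriv_le_of_forall_mem_sphere_norm_le hb
    (f := G) (c := t) (C := A)
    (Differentiable.diffContOnCl (fun z => (hGd z).differentiableAt)) hbd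
  rw [hder, Complex.norm_real, Real.norm_of_nonneg] at hfin
  · exact hfin
  · exact Finset.sum_nonneg fun a _ => mul_nonneg (norm_nonneg _) (hc a)

end Pool.Agent.EulerInflation

end

section

/-!
Integral estimates for localised functions.
-/

open MeasureTheory Set
open scoped ENNReal NNReal ContDiff FourierTransform Real

namespace Pool.Agent.EulerInflation

namespace Est

open Loc

/-! ### spatial calculus -/

theorem pd_mul {f g : E2 → ℝ} (hf : ContDiff ℝ ∞ f) (hg : ContDiff ℝ ∞ g) (i : Fin 2) (x : E2) :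
    pd i (fun y => f y * g y) x = f x * pd i g x + pd i f x * g x := by
  unfold pd
  have h1 := (hf.differentiable (by simp) x)
  have h2 := (hg.differentiable (by simp) x)
  have : (fun y => f y * g y) = f * g := rfl
  rw [this, fderiv_mul h1 h2]
  simp [smul_eq_mul]
  ring

theorem pd_add {f g : E2 → ℝ} (hf : ContDiff ℝ ∞ f) (hg : ContDiff ℝ ∞ g) (i : Fin 2) (x : E2) :
    pd i (fun y => f y + g y) x = pd i f x + pd i g x := by
  unfold pd
  have h1 := (hf.differentiable (by simp) x)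
  have h2 := (hg.differentiable (by simp) x)
  have : (fun y => f y + g y) = f + g := rfl
  rw [this, fderiv_add h1 h2]
  simp

theorem pd_smooth {f : E2 → ℝ} (hf : ContDiff ℝ ∞ f) (i : Fin 2) : ContDiff ℝ ∞ (pd i f) :=
  (hf.fderiv_right (m := ∞) (by simp)).clm_apply contDiff_const

theorem pd_eq_zero {f : E2 → ℝ} {x : E2} (h : f =ᶠ[nhds x] fun _ => 0) (i : Fin 2) :
    pd i f x = 0 := by
  unfold pd
  rw [h.fderiv_eq]
  simp

theorem pd_congr {f g : E2 → ℝ} {x : E2} (h : f =ᶠ[nhds x] g) (i : Fin 2) :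
    pd i f x = pd i g x := by
  unfold pd
  rw [h.fderiv_eq]

theorem isOpen_boxo (L : ℝ) : IsOpen (boxo L) := by
  have : boxo L = ⋂ i : Fin 2, {x : E2 | |x i| < L} := by
    ext x; simp [boxo]
  rw [this]
  apply isOpen_iInter_of_finite
  intro i
  exact isOpen_lt (by fun_prop) continuous_const

theorem isClosed_boxc (L : ℝ) : IsClosed (boxc L) := by
  have : boxc L = ⋂ i : Fin 2, {x : E2 | |x i| ≤ L} := by
    ext x; simp [boxc]
  rw [this]
  apply isClosed_iInter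
  intro i
  exact isClosed_le (by fun_prop) continuous_const

theorem boxo_sub (L : ℝ) : boxo L ⊆ boxc (L + 1) := fun x hx i => by
  have := hx i
  linarith

/-! ### the cutoff -/

theorem smooth_chi (L : ℝ) : ContDiff ℝ ∞ (chi L) := by
  have h := (smooth_X L).comp (g := X L) (f := fun x : E2 => ((0 : ℝ), x))
    (contDiff_const.prodMk contDiff_id)
  exact h

theorem abs_chi (L : ℝ) (x : E2) : |chi L x| ≤ 1 := abs_X L (0, x)

theorem chi_one {L : ℝ} {x : E2} (hx : x ∈ boxo L) : chi L x = 1 := by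
  unfold chi
  rw [bump_eq_one (hx 0).le, bump_eq_one (hx 1).le, one_mul]

theorem chi_zero {L : ℝ} {x : E2} (hx : x ∉ boxc (L + 1)) : chi L x = 0 := by
  have : ∃ i, L + 1 < |x i| := by
    by_contra hcon
    push Not at hcon
    exact hx hcon
  exact (X_out (z := (0, x)) this).1

theorem pd_chi (L : ℝ) (i : Fin 2) (x : E2) : pd i (chi L) x = Dx i (X L) (0, x) :=
  pd_eq (smooth_X L) i 0 x

theorem pd2_chi (L : ℝ) (i j : Fin 2) (x : E2) :
    pd i (pd j (chi L)) x = Dx i (Dx j (X L)) (0, x) := by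
  have : pd j (chi L) = fun x => Dx j (X L) (0, x) := funext fun x => pd_chi L j x
  rw [this]
  exact pd_eq (smooth_Dx (smooth_X L) j) i 0 x

/-- the localised derivative -/
noncomputable def FL (L : ℝ) (ψ : E2 → ℝ) (j : Fin 2) (x : E2) : ℝ :=
  pd j (fun y => chi L y * ψ y) x

section
variable {L : ℝ} {ψ : E2 → ℝ} (hψ : ContDiff ℝ ∞ ψ)
include hψ

theorem FL_smooth (j : Fin 2) : ContDiff ℝ ∞ (FL L ψ j) := pd_smooth ((smooth_chi L).mul hψ) j

theorem FL_eq (j : Fin 2) (x : E2) : FL L ψ j x = chi L x * pd j ψ x + pd j (chi L) x * ψ x :=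
  pd_mul (smooth_chi L) hψ j x

omit hψ in
theorem chipsi_in {x : E2} (hx : x ∈ boxo L) : (fun y => chi L y * ψ y) =ᶠ[nhds x] ψ := by
  filter_upwards [(isOpen_boxo L).mem_nhds hx] with y hy
  rw [chi_one hy, one_mul]

omit hψ in
theorem chipsi_out {x : E2} (hx : x ∉ boxc (L + 1)) :
    (fun y => chi L y * ψ y) =ᶠ[nhds x] fun _ => 0 := by
  filter_upwards [(isClosed_boxc (L + 1)).isOpen_compl.mem_nhds hx] with y hy
  rw [chi_zero hy, zero_mul]

omit hψ in
theorem FL_in {x : E2} (hx : x ∈ boxo L) (j : Fin 2) : FL L ψ j x = pd j ψ x :=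
  pd_congr (chipsi_in hx) j

omit hψ in
theorem FL_out {x : E2} (hx : x ∉ boxc (L + 1)) (j : Fin 2) : FL L ψ j x = 0 :=
  pd_eq_zero (chipsi_out hx) j

omit hψ in
theorem pdFL_in {x : E2} (hx : x ∈ boxo L) (i j : Fin 2) :
    pd i (FL L ψ j) x = pd i (pd j ψ) x := by
  apply pd_congr
  filter_upwards [(isOpen_boxo L).mem_nhds hx] with y hy
  exact FL_in hy j

omit hψ in
theorem pdFL_out {x : E2} (hx : x ∉ boxc (L + 1)) (i j : Fin 2) : pd i (FL L ψ j) x = 0 := by
  apply pd_eq_zero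
  filter_upwards [(isClosed_boxc (L + 1)).isOpen_compl.mem_nhds hx] with y hy
  exact FL_out hy j

omit hψ in
theorem FL_compact (j : Fin 2) : HasCompactSupport (FL L ψ j) := by
  apply HasCompactSupport.of_support_subset_isCompact (isCompact_box L)
  intro x hx
  by_contra hxK
  exact hx (FL_out hxK j)

variable {B A A' G : ℝ} (hB1 : 1 ≤ B)
  (hB : ∀ L s : ℝ, |deriv (bump L) s| ≤ B ∧ |deriv (deriv (bump L)) s| ≤ B)
include hB1 hB

omit hψ in
theorem abs_pd_chi (j : Fin 2) (x : E2) : |pd j (chi L) x| ≤ B ^ 2 := by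
  rw [pd_chi]; exact abs_DX hB1 hB L j _

omit hψ in
theorem abs_pd2_chi (i j : Fin 2) (x : E2) : |pd i (pd j (chi L)) x| ≤ B ^ 2 := by
  rw [pd2_chi]; exact abs_DDX hB1 hB L i j _

theorem FL_abs (h0 : ∀ x, |ψ x| ≤ A) (h1 : ∀ x j, |pd j ψ x| ≤ A') (j : Fin 2) (x : E2) :
    |FL L ψ j x| ≤ A' + B ^ 2 * A := by
  rw [FL_eq hψ]
  have := aba (abm (abs_chi L x) (h1 x j)) (abm (abs_pd_chi hB1 hB (L := L) j x) (h0 x))
  linarith

theorem pdFL_abs (h0 : ∀ x, |ψ x| ≤ A) (h1 : ∀ x j, |pd j ψ x| ≤ A')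
    (h2 : ∀ x i j, |pd i (pd j ψ) x| ≤ G) (i j : Fin 2) (x : E2) :
    |pd i (FL L ψ j) x| ≤ G + B ^ 2 * (2 * A' + A) := by
  have e1 : FL L ψ j = fun x => chi L x * pd j ψ x + pd j (chi L) x * ψ x :=
    funext fun x => FL_eq hψ j x
  have hc := smooth_chi L
  rw [e1, pd_add (hc.mul (pd_smooth hψ j)) ((pd_smooth hc j).mul hψ),
    pd_mul hc (pd_smooth hψ j), pd_mul (pd_smooth hc j) hψ]
  have := aba (aba (abm (abs_chi L x) (h2 x i j)) (abm (abs_pd_chi hB1 hB (L := L) i x) (h1 x j)))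
    (aba (abm (abs_pd_chi hB1 hB (L := L) j x) (h1 x i))
      (abm (abs_pd2_chi hB1 hB (L := L) i j x) (h0 x)))
  linarith

theorem int_FL (hL : 1 ≤ L) (h0 : ∀ x, |ψ x| ≤ A) (h1 : ∀ x j, |pd j ψ x| ≤ A') (j : Fin 2) :
    ∫ x, FL L ψ j x ^ 2 ≤ 4 * L ^ 2 * A' ^ 2 + 12 * (A' + B ^ 2 * A) ^ 2 * L := by
  apply integral_bound hL (sq_nonneg _) _ (fun x => sq_nonneg _)
  · intro x hx
    rw [FL_in hx, ← sq_abs]
    exact pow_le_pow_left₀ (abs_nonneg _) (h1 x j) 2
  · intro x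
    rw [← sq_abs]
    exact pow_le_pow_left₀ (abs_nonneg _) (FL_abs hψ hB1 hB h0 h1 j x) 2
  · intro x hx
    rw [FL_out hx]
    ring

theorem int_pdFL (hL : 1 ≤ L) (h0 : ∀ x, |ψ x| ≤ A) (h1 : ∀ x j, |pd j ψ x| ≤ A')
    (h2 : ∀ x i j, |pd i (pd j ψ) x| ≤ G) (i j : Fin 2) :
    ∫ x, pd i (FL L ψ j) x ^ 2 ≤ 4 * L ^ 2 * G ^ 2 + 12 * (G + B ^ 2 * (2 * A' + A)) ^ 2 * L := by
  apply integral_bound hL (sq_nonneg _) _ (fun x => sq_nonneg _)
  · intro x hx
    rw [pdFL_in hx, ← sq_abs]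
    exact pow_le_pow_left₀ (abs_nonneg _) (h2 x i j) 2
  · intro x
    rw [← sq_abs]
    exact pow_le_pow_left₀ (abs_nonneg _) (pdFL_abs hψ hB1 hB h0 h1 h2 i j x) 2
  · intro x hx
    rw [pdFL_out hx]
    ring

end

/-! ### integrals over boxes -/

theorem box_prod (s : Set ℝ) (f g : ℝ → ℝ) :
    ∫ x in {x : E2 | ∀ i, x i ∈ s}, f (x 0) * g (x 1) =
      (∫ u in s, f u) * ∫ v in s, g v := by
  have h1 := (PiLp.volume_preserving_ofLp (Fin 2))
  have e1 : {x : E2 | ∀ i, x i ∈ s} = (WithLp.ofLp : E2 → (Fin 2 → ℝ)) ⁻¹'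
      {y : Fin 2 → ℝ | ∀ i, y i ∈ s} := rfl
  rw [e1]
  have e2 := h1.setIntegral_preimage_emb
    (MeasurableEquiv.toLp 2 (Fin 2 → ℝ)).symm.measurableEmbedding
    (fun y : Fin 2 → ℝ => f (y 0) * g (y 1)) {y : Fin 2 → ℝ | ∀ i, y i ∈ s}
  refine e2.trans ?_
  have h2 := volume_preserving_finTwoArrow ℝ
  have e3 : {y : Fin 2 → ℝ | ∀ i, y i ∈ s} = MeasurableEquiv.finTwoArrow ⁻¹' (s ×ˢ s) := by
    ext y
    simp [Fin.forall_fin_two]
  rw [e3]
  have e4 := h2.setIntegral_preimage_emb MeasurableEquiv.finTwoArrow.measurableEmbedding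
    (fun p : ℝ × ℝ => f p.1 * g p.2) (s ×ˢ s)
  refine e4.trans ?_
  rw [Measure.volume_eq_prod]
  exact setIntegral_prod_mul f g s s

end Est

end Pool.Agent.EulerInflation

end

section

/-!
Refined integral estimates: the sheared perturbation and the pairing.
-/

open MeasureTheory Set
open scoped ENNReal NNReal ContDiff FourierTransform Real

namespace Pool.Agent.EulerInflation

namespace Est

open Loc

theorem boxo_set (L : ℝ) : boxo L = {x : E2 | ∀ i, x i ∈ Ioo (-L) L} := by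
  ext x
  simp only [boxo, mem_ofPred_eq, mem_Ioo, abs_lt]

theorem boxc_set (L : ℝ) : boxc L = {x : E2 | ∀ i, x i ∈ Icc (-L) L} := by
  ext x
  simp only [boxc, mem_ofPred_eq, mem_Icc, abs_le]

theorem int_boxc_snd {R : ℝ} (hR : 0 ≤ R) (g : ℝ → ℝ) :
    ∫ x in boxc R, g (x 1) = 2 * R * ∫ y in (-R)..R, g y := by
  have := box_prod (Icc (-R) R) (fun _ => 1) g
  rw [← boxc_set] at this
  simp only [one_mul] at this
  rw [this, intervalIntegral.integral_of_le (by linarith), ← integral_Icc_eq_integral_Ioc]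
  congr 1
  simp
  rw [max_eq_left (by linarith)]
  ring

theorem int_boxo_fst {R : ℝ} (hR : 0 ≤ R) (f : ℝ → ℝ) :
    ∫ x in boxo R, f (x 0) = 2 * R * ∫ y in (-R)..R, f y := by
  have := box_prod (Ioo (-R) R) f (fun _ => 1)
  rw [← boxo_set] at this
  simp only [mul_one] at this
  rw [this, intervalIntegral.integral_of_le (by linarith), integral_Ioc_eq_integral_Ioo, mul_comm]
  congr 1
  simp
  rw [max_eq_left (by linarith)]
  ring

/-- refined bound of the mass -/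
theorem int_FL_fin {L : ℝ} {ψ : E2 → ℝ} (hψ : ContDiff ℝ ∞ ψ) {B A μ T ε η : ℝ} (hB1 : 1 ≤ B)
    (hB : ∀ L s : ℝ, |deriv (bump L) s| ≤ B ∧ |deriv (deriv (bump L)) s| ≤ B) (hL : 1 ≤ L)
    (hε : 0 ≤ ε) (h0 : ∀ x, |ψ x| ≤ A)
    (h1 : ∀ x j, (pd j ψ x) ^ 2 ≤ μ ^ 2 * (1 / (1 + T ^ 2 * Real.cos (x 1) ^ 2) + ε))
    (hT : ∫ y in (-(L + 1))..(L + 1), 1 / (1 + T ^ 2 * Real.cos y ^ 2) ≤ η * L) (j : Fin 2) :
    ∫ x, FL L ψ j x ^ 2 ≤ μ ^ 2 * (8 * η + 32 * ε) * L ^ 2 + 24 * (B ^ 2 * A) ^ 2 * L := by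
  set k : ℝ → ℝ := fun y => 1 / (1 + T ^ 2 * Real.cos y ^ 2) with hk
  have hkc : Continuous k := by
    rw [hk]
    apply Continuous.div continuous_const (by fun_prop)
    intro y
    positivity
  have hkcx : Continuous fun x : E2 => 2 * (μ ^ 2 * (k (x 1) + ε)) :=
    continuous_const.mul (continuous_const.mul ((hkc.comp (by fun_prop)).add continuous_const))
  have hcomp : IsCompact (boxc (L + 1)) := isCompact_box L
  have hLn : volume (boxc (L + 1) \ boxo L) ≠ ⊤ :=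
    ne_top_of_le_ne_top (vol_boxc_ne_top (L + 1)) (measure_mono sdiff_subset)
  have hg1 : Integrable ((boxc (L + 1)).indicator fun x : E2 => 2 * (μ ^ 2 * (k (x 1) + ε))) :=
    (hkcx.continuousOn.integrableOn_compact hcomp).integrable_indicator (meas_boxc _)
  have hg2 : Integrable ((boxc (L + 1) \ boxo L).indicator fun _ : E2 => 2 * (B ^ 2 * A) ^ 2) :=
    (integrableOn_const hLn).integrable_indicator ((meas_boxc _).diff (meas_boxo L))
  have hle : ∀ x, FL L ψ j x ^ 2 ≤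
      (boxc (L + 1)).indicator (fun x : E2 => 2 * (μ ^ 2 * (k (x 1) + ε))) x +
      (boxc (L + 1) \ boxo L).indicator (fun _ : E2 => 2 * (B ^ 2 * A) ^ 2) x := by
    intro x
    have hx1 : (pd j ψ x) ^ 2 ≤ μ ^ 2 * (k (x 1) + ε) := h1 x j
    have hp : 0 ≤ μ ^ 2 * (k (x 1) + ε) := (sq_nonneg _).trans hx1
    by_cases hx : x ∈ boxo L
    · rw [indicator_of_mem (boxo_sub L hx), indicator_of_notMem (fun h => h.2 hx), add_zero,
        FL_in hx]
      linarith
    · by_cases hx' : x ∈ boxc (L + 1)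
      · rw [indicator_of_mem hx', indicator_of_mem (show x ∈ boxc (L + 1) \ boxo L from ⟨hx', hx⟩),
          FL_eq hψ]
        have e1 : (chi L x * pd j ψ x) ^ 2 ≤ μ ^ 2 * (k (x 1) + ε) := by
          rw [mul_pow]
          have : chi L x ^ 2 ≤ 1 := by
            rw [← sq_abs]
            exact pow_le_one₀ (abs_nonneg _) (abs_chi L x)
          nlinarith [sq_nonneg (pd j ψ x)]
        have e2 : (pd j (chi L) x * ψ x) ^ 2 ≤ (B ^ 2 * A) ^ 2 := by
          rw [← sq_abs]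
          exact pow_le_pow_left₀ (abs_nonneg _)
            (abm (abs_pd_chi hB1 hB (L := L) j x) (h0 x)) 2
        nlinarith [sq_nonneg (chi L x * pd j ψ x - pd j (chi L) x * ψ x)]
      · rw [indicator_of_notMem hx', indicator_of_notMem (fun h => hx' h.1), FL_out hx']
        norm_num
  have hint := integral_mono_of_nonneg (μ := volume)
    (Filter.Eventually.of_forall fun x => sq_nonneg (FL L ψ j x)) (hg1.add hg2)
    (Filter.Eventually.of_forall hle)
  refine hint.trans ?_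
  have e1 : ∫ x : E2, ((boxc (L + 1)).indicator (fun x : E2 => (2 * (μ ^ 2 * (k (x 1) + ε)) : ℝ)) +
      (boxc (L + 1) \ boxo L).indicator (fun _ : E2 => (2 * (B ^ 2 * A) ^ 2 : ℝ)) : E2 → ℝ) x =
      (∫ x in boxc (L + 1), 2 * (μ ^ 2 * (k (x 1) + ε))) +
        volume.real (boxc (L + 1) \ boxo L) • (2 * (B ^ 2 * A) ^ 2) := by
    rw [← integral_indicator (meas_boxc (L + 1)),
      ← integral_indicator_const _ ((meas_boxc (L + 1)).diff (meas_boxo L))]
    exact integral_add hg1 hg2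
  rw [e1, measureReal_sdiff (boxo_sub L) (meas_boxo L) (vol_boxc_ne_top (L + 1)),
    vol_boxo (by linarith), vol_boxc (by linarith), smul_eq_mul]
  have e2 : ∫ x in boxc (L + 1), 2 * (μ ^ 2 * (k (x 1) + ε)) =
      2 * (L + 1) * ∫ y in (-(L + 1))..(L + 1), 2 * (μ ^ 2 * (k y + ε)) :=
    int_boxc_snd (by linarith) (fun y => 2 * (μ ^ 2 * (k y + ε)))
  have e3 : ∫ y in (-(L + 1))..(L + 1), 2 * (μ ^ 2 * (k y + ε)) =
      2 * (μ ^ 2 * ((∫ y in (-(L + 1))..(L + 1), k y) + ε * (2 * (L + 1)))) := by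
    rw [intervalIntegral.integral_const_mul, intervalIntegral.integral_const_mul,
      intervalIntegral.integral_add (hkc.intervalIntegrable _ _)
        (continuous_const.intervalIntegrable _ _), intervalIntegral.integral_const, smul_eq_mul]
    ring
  rw [e2, e3]
  have hT' : ∫ y in (-(L + 1))..(L + 1), k y ≤ η * L := hT
  set I := ∫ y in (-(L + 1))..(L + 1), k y with hI
  have hI0 : 0 ≤ I := by
    rw [hI]
    apply intervalIntegral.integral_nonneg (by linarith)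
    intro y _
    rw [hk]
    positivity
  have hμ : 0 ≤ μ ^ 2 := sq_nonneg μ
  have f1 : 2 * (L + 1) * (2 * (μ ^ 2 * (I + ε * (2 * (L + 1))))) ≤
      μ ^ 2 * (8 * η + 32 * ε) * L ^ 2 := by
    have g1 : 2 * (L + 1) ≤ 4 * L := by linarith
    have g2 : I + ε * (2 * (L + 1)) ≤ η * L + ε * (4 * L) :=
      add_le_add hT' (mul_le_mul_of_nonneg_left g1 hε)
    have g3 : 0 ≤ I + ε * (2 * (L + 1)) := by positivity
    calc 2 * (L + 1) * (2 * (μ ^ 2 * (I + ε * (2 * (L + 1)))))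
        ≤ 4 * L * (2 * (μ ^ 2 * (η * L + ε * (4 * L)))) := by
          apply mul_le_mul g1 _ (by positivity) (by linarith)
          apply mul_le_mul_of_nonneg_left _ (by norm_num)
          exact mul_le_mul_of_nonneg_left g2 hμ
      _ = μ ^ 2 * (8 * η + 32 * ε) * L ^ 2 := by ring
  have f2 : ((2 * (L + 1)) ^ 2 - (2 * L) ^ 2) * (2 * (B ^ 2 * A) ^ 2) ≤
      24 * (B ^ 2 * A) ^ 2 * L := by
    have : (2 * (L + 1)) ^ 2 - (2 * L) ^ 2 ≤ 12 * L := by nlinarith
    calc _ ≤ (12 * L) * (2 * (B ^ 2 * A) ^ 2) := mul_le_mul_of_nonneg_right this (by positivity)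
      _ = _ := by ring
  linarith

/-- the integral of the square of the sine -/
theorem int_sin_sq {m L : ℝ} (hm : 1 ≤ m) :
    L - 1 ≤ ∫ y in (-L)..L, Real.sin (m * y) ^ 2 := by
  have h0 : m ≠ 0 := by linarith
  have e1 := intervalIntegral.integral_comp_mul_left (a := -L) (b := L)
    (fun y => Real.sin y ^ 2) h0
  rw [e1, integral_sin_sq, smul_eq_mul]
  have e2 : m * -L = -(m * L) := by ring
  rw [e2, Real.sin_neg, Real.cos_neg]
  have h1 := Real.abs_sin_le_one (m * L)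
  have h2 := Real.abs_cos_le_one (m * L)
  have h3 : |Real.sin (m * L) * Real.cos (m * L)| ≤ 1 * 1 := abm h1 h2
  rw [mul_one] at h3
  have h4 := (abs_le.1 h3).2
  have e3 : m⁻¹ * ((-Real.sin (m * L) * Real.cos (m * L) - Real.sin (m * L) * Real.cos (m * L) +
      m * L - -(m * L)) / 2) = L - m⁻¹ * (Real.sin (m * L) * Real.cos (m * L)) := by
    field_simp
    ring
  rw [e3]
  have h5 : m⁻¹ * (Real.sin (m * L) * Real.cos (m * L)) ≤ 1 * 1 := by
    have h6 : m⁻¹ ≤ 1 := inv_le_one_of_one_le₀ hm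
    have h7 : 0 ≤ m⁻¹ := by positivity
    calc m⁻¹ * (Real.sin (m * L) * Real.cos (m * L)) ≤ m⁻¹ * 1 :=
          mul_le_mul_of_nonneg_left h4 h7
      _ ≤ 1 * 1 := by linarith
  linarith

/-- the test function -/
noncomputable def HH (L m : ℝ) (x : E2) : ℝ := chi L x * -Real.cos (m * x 0)

theorem smooth_cosm (m : ℝ) : ContDiff ℝ ∞ (fun x : E2 => -Real.cos (m * x 0)) := by
  have h : ContDiff ℝ ∞ (fun x : E2 => x 0) := (EuclideanSpace.proj (𝕜 := ℝ) (0 : Fin 2)).contDiff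
  exact (Real.contDiff_cos.comp (contDiff_const.mul h)).neg

theorem smooth_HH (L m : ℝ) : ContDiff ℝ ∞ (HH L m) := (smooth_chi L).mul (smooth_cosm m)

theorem pd0_cosm (m : ℝ) (x : E2) : pd 0 (fun x : E2 => -Real.cos (m * x 0)) x =
    m * Real.sin (m * x 0) := by
  have h : HasFDerivAt (fun x : E2 => x 0) (EuclideanSpace.proj (𝕜 := ℝ) (0 : Fin 2)) x :=
    (EuclideanSpace.proj (𝕜 := ℝ) (0 : Fin 2)).hasFDerivAt
  have h2 : HasFDerivAt (fun x : E2 => -Real.cos (m * x 0)) _ x := ((h.const_mul m).cos).neg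
  unfold pd
  rw [h2.fderiv]
  simp
  ring

theorem pd0_HH (L m : ℝ) (x : E2) : pd 0 (HH L m) x =
    chi L x * (m * Real.sin (m * x 0)) + pd 0 (chi L) x * -Real.cos (m * x 0) := by
  have := pd_mul (smooth_chi L) (smooth_cosm m) 0 x
  rw [pd0_cosm] at this
  exact this

theorem HH_compact (L m : ℝ) : HasCompactSupport (HH L m) := by
  apply HasCompactSupport.of_support_subset_isCompact (isCompact_box L)
  intro x hx
  by_contra hxK
  apply hx
  show chi L x * _ = 0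
  rw [chi_zero hxK, zero_mul]

section pair
variable {B : ℝ} (hB1 : 1 ≤ B)
  (hB : ∀ L s : ℝ, |deriv (bump L) s| ≤ B ∧ |deriv (deriv (bump L)) s| ≤ B)
include hB1 hB

theorem abs_pd0_HH {L m : ℝ} (hm : 1 ≤ m) (x : E2) : |m⁻¹ * pd 0 (HH L m) x| ≤ 1 + B ^ 2 := by
  have hm0 : 0 < m := by linarith
  have e : m⁻¹ * pd 0 (HH L m) x = chi L x * Real.sin (m * x 0) +
      m⁻¹ * (pd 0 (chi L) x * -Real.cos (m * x 0)) := by
    rw [pd0_HH]
    field_simp
  rw [e]
  have h6 : |m⁻¹| ≤ 1 := by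
    rw [abs_of_pos (by positivity)]
    exact inv_le_one_of_one_le₀ hm
  have := aba (abm (abs_chi L x) (Real.abs_sin_le_one (m * x 0)))
    (abm h6 (abm (abs_pd_chi hB1 hB (L := L) 0 x) (abn (Real.abs_cos_le_one (m * x 0)))))
  linarith

theorem int_pd0_HH {L m : ℝ} (hm : 1 ≤ m) (hL : 1 ≤ L) :
    ∫ x, pd 0 (HH L m) x ^ 2 ≤ (32 + 12 * (1 + B ^ 2) ^ 2) * m ^ 2 * L ^ 2 := by
  have hm0 : 0 < m := by linarith
  have hb : ∀ x, |pd 0 (HH L m) x| ≤ m * (1 + B ^ 2) := by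
    intro x
    have := abs_pd0_HH hB1 hB (L := L) hm x
    rw [abs_mul, abs_of_pos (by positivity : 0 < m⁻¹), inv_mul_le_iff₀ hm0] at this
    exact this
  have h := integral_bound (L := L) (a := m ^ 2) (M := (m * (1 + B ^ 2)) ^ 2) hL (sq_nonneg _)
    (fun x => pd 0 (HH L m) x ^ 2) (fun x => sq_nonneg _) ?_ ?_ ?_
  · refine h.trans ?_
    have hLL : L ≤ L ^ 2 := by nlinarith
    have h5 : 0 ≤ m ^ 2 * L ^ 2 := by positivity
    calc 4 * L ^ 2 * m ^ 2 + 12 * (m * (1 + B ^ 2)) ^ 2 * L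
        ≤ 4 * L ^ 2 * m ^ 2 + 12 * (m * (1 + B ^ 2)) ^ 2 * L ^ 2 := by
          have : 12 * (m * (1 + B ^ 2)) ^ 2 * L ≤ 12 * (m * (1 + B ^ 2)) ^ 2 * L ^ 2 :=
            mul_le_mul_of_nonneg_left hLL (by positivity)
          linarith
      _ ≤ (32 + 12 * (1 + B ^ 2) ^ 2) * m ^ 2 * L ^ 2 := by
          nlinarith
  · intro x hx
    have e : pd 0 (HH L m) x = m * Real.sin (m * x 0) := by
      rw [pd0_HH, chi_one hx]
      have : pd 0 (chi L) x = 0 := by
        have h1 : chi L =ᶠ[nhds x] fun _ => 1 := by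
          filter_upwards [(isOpen_boxo L).mem_nhds hx] with y hy
          exact chi_one hy
        rw [pd_congr h1]
        unfold pd
        simp
      rw [this]
      ring
    rw [e, mul_pow]
    have : Real.sin (m * x 0) ^ 2 ≤ 1 := Real.sin_sq_le_one _
    nlinarith [sq_nonneg m]
  · intro x
    rw [← sq_abs]
    exact pow_le_pow_left₀ (abs_nonneg _) (hb x) 2
  · intro x hx
    have h1 : HH L m =ᶠ[nhds x] fun _ => 0 := by
      filter_upwards [(isClosed_boxc (L + 1)).isOpen_compl.mem_nhds hx] with y hy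
      show chi L y * _ = 0
      rw [chi_zero hy, zero_mul]
    rw [pd_eq_zero h1]
    ring

omit hB1 hB in
theorem int_HH {L m : ℝ} (hL : 1 ≤ L) : 2 * ∫ x, HH L m x ^ 2 ≤ 32 * L ^ 2 := by
  have hb : ∀ x, |HH L m x| ≤ 1 := by
    intro x
    have := abm (abs_chi L x) (abn (Real.abs_cos_le_one (m * x 0)))
    rw [mul_one] at this
    exact this
  have hb2 : ∀ x, HH L m x ^ 2 ≤ 1 := by
    intro x
    rw [← sq_abs]
    exact pow_le_one₀ (abs_nonneg _) (hb x)
  have h := integral_bound (L := L) (a := 1) (M := 1) hL zero_le_one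
    (fun x => HH L m x ^ 2) (fun x => sq_nonneg _) (fun x _ => hb2 x) hb2 (by
      intro x hx
      show (chi L x * _) ^ 2 = 0
      rw [chi_zero hx]
      ring)
  nlinarith

/-- the main pairing -/
theorem pairing_main {L m μ ε : ℝ} (hm : 1 ≤ m) (hL : 1 ≤ L) (hμ : 0 < μ) (hε : ε ≤ 1 / 8)
    {ψb ψp : E2 → ℝ} (hψb : ContDiff ℝ ∞ ψb) (hψp : ContDiff ℝ ∞ ψp)
    (hb0 : ∀ x, pd 0 ψb x = 0) (hA : ∀ x, |ψb x + ψp x| ≤ 4)
    (hA1 : ∀ x j, |pd j (fun y => ψb y + ψp y) x| ≤ 4)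
    (hp : ∀ x, |pd 0 ψp x - μ * Real.sin (m * x 0)| ≤ ε * μ)
    (hLL : 4 + 24 * (4 * (1 + B ^ 2) ^ 2) / μ ≤ L) :
    μ * L ^ 2 ≤ ∫ x, FL L (fun y => ψb y + ψp y) 0 x * (m⁻¹ * pd 0 (HH L m) x) := by
  set ψ : E2 → ℝ := fun y => ψb y + ψp y with hψdef
  have hψ : ContDiff ℝ ∞ ψ := hψb.add hψp
  have hm0 : 0 < m := by linarith
  have hε0 : 0 ≤ ε := by
    have h1 := (abs_nonneg _).trans (hp 0)
    by_contra hcon
    push Not at hcon
    nlinarith
  set M1 : ℝ := 4 * (1 + B ^ 2) ^ 2 with hM1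
  have hLn : volume (boxc (L + 1) \ boxo L) ≠ ⊤ :=
    ne_top_of_le_ne_top (vol_boxc_ne_top (L + 1)) (measure_mono sdiff_subset)
  have hco : Continuous fun x : E2 => μ * Real.sin (m * x 0) ^ 2 - ε * μ := by fun_prop
  have hg1 : Integrable ((boxo L).indicator fun x : E2 => μ * Real.sin (m * x 0) ^ 2 - ε * μ) :=
    ((hco.continuousOn.integrableOn_compact (isCompact_box L)).mono_set
      (boxo_sub L)).integrable_indicator (meas_boxo _)
  have hg2 : Integrable ((boxc (L + 1) \ boxo L).indicator fun _ : E2 => M1) :=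
    (integrableOn_const hLn).integrable_indicator ((meas_boxc _).diff (meas_boxo L))
  have hcs : HasCompactSupport fun x => FL L ψ 0 x * (m⁻¹ * pd 0 (HH L m) x) :=
    (FL_compact 0).mul_right
  have hcont : Continuous fun x => FL L ψ 0 x * (m⁻¹ * pd 0 (HH L m) x) :=
    (FL_smooth hψ 0).continuous.mul
      (continuous_const.mul (pd_smooth (smooth_HH L m) 0).continuous)
  have hle : ∀ x, (boxo L).indicator (fun x : E2 => μ * Real.sin (m * x 0) ^ 2 - ε * μ) x -
      (boxc (L + 1) \ boxo L).indicator (fun _ : E2 => M1) x ≤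
      FL L ψ 0 x * (m⁻¹ * pd 0 (HH L m) x) := by
    intro x
    by_cases hx : x ∈ boxo L
    · rw [indicator_of_mem hx, indicator_of_notMem (fun h => h.2 hx), sub_zero, FL_in hx]
      have e : m⁻¹ * pd 0 (HH L m) x = Real.sin (m * x 0) := by
        rw [pd0_HH, chi_one hx]
        have : pd 0 (chi L) x = 0 := by
          have h1 : chi L =ᶠ[nhds x] fun _ => 1 := by
            filter_upwards [(isOpen_boxo L).mem_nhds hx] with y hy
            exact chi_one hy
          rw [pd_congr h1]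
          unfold pd
          simp
        rw [this]
        field_simp
        ring
      rw [e, hψdef, pd_add hψb hψp, hb0, zero_add]
      have h1 := hp x
      have h2 : |(pd 0 ψp x - μ * Real.sin (m * x 0)) * Real.sin (m * x 0)| ≤ (ε * μ) * 1 :=
        abm h1 (Real.abs_sin_le_one _)
      have h3 := (abs_le.1 h2).1
      nlinarith
    · by_cases hx' : x ∈ boxc (L + 1)
      · rw [indicator_of_notMem hx, indicator_of_mem
          (show x ∈ boxc (L + 1) \ boxo L from ⟨hx', hx⟩), zero_sub]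
        have h2 := abm (FL_abs hψ hB1 hB (L := L) hA hA1 0 x) (abs_pd0_HH hB1 hB (L := L) hm x)
        have h3 := (abs_le.1 h2).1
        have : (4 + B ^ 2 * 4) * (1 + B ^ 2) = M1 := by rw [hM1]; ring
        linarith
      · rw [indicator_of_notMem hx, indicator_of_notMem (fun h => hx' h.1), FL_out hx']
        simp
  have hint := integral_mono (hg1.sub hg2) (hcont.integrable_of_hasCompactSupport hcs) hle
  refine le_trans ?_ hint
  have e1 : ∫ x, ((boxo L).indicator (fun x : E2 => μ * Real.sin (m * x 0) ^ 2 - ε * μ) -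
      (boxc (L + 1) \ boxo L).indicator fun _ : E2 => M1) x =
      (∫ x in boxo L, (μ * Real.sin (m * x 0) ^ 2 - ε * μ)) -
        volume.real (boxc (L + 1) \ boxo L) • M1 := by
    rw [← integral_indicator (meas_boxo L),
      ← integral_indicator_const _ ((meas_boxc (L + 1)).diff (meas_boxo L))]
    exact integral_sub hg1 hg2
  rw [e1, measureReal_sdiff (boxo_sub L) (meas_boxo L) (vol_boxc_ne_top (L + 1)),
    vol_boxo (by linarith), vol_boxc (by linarith), smul_eq_mul]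
  have e2 : ∫ x in boxo L, (μ * Real.sin (m * x 0) ^ 2 - ε * μ) =
      2 * L * ∫ y in (-L)..L, (μ * Real.sin (m * y) ^ 2 - ε * μ) :=
    int_boxo_fst (by linarith) (fun y => μ * Real.sin (m * y) ^ 2 - ε * μ)
  have e3 : ∫ y in (-L)..L, (μ * Real.sin (m * y) ^ 2 - ε * μ) =
      μ * (∫ y in (-L)..L, Real.sin (m * y) ^ 2) - ε * μ * (2 * L) := by
    rw [intervalIntegral.integral_sub (by apply Continuous.intervalIntegrable; fun_prop)
        (continuous_const.intervalIntegrable _ _), intervalIntegral.integral_const_mul,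
      intervalIntegral.integral_const, smul_eq_mul]
    ring
  rw [e2, e3]
  have h1 := int_sin_sq (L := L) hm
  have h2 : 2 * L * (μ * (L - 1) - 1 / 8 * μ * (2 * L)) ≤
      2 * L * (μ * (∫ y in (-L)..L, Real.sin (m * y) ^ 2) - ε * μ * (2 * L)) := by
    apply mul_le_mul_of_nonneg_left _ (by linarith)
    have h3 : μ * (L - 1) ≤ μ * (∫ y in (-L)..L, Real.sin (m * y) ^ 2) :=
      mul_le_mul_of_nonneg_left h1 hμ.le
    have h4 : ε * μ * (2 * L) ≤ 1 / 8 * μ * (2 * L) :=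
      mul_le_mul_of_nonneg_right (mul_le_mul_of_nonneg_right hε hμ.le) (by linarith)
    linarith
  have hM10 : 0 ≤ M1 := by rw [hM1]; positivity
  have h5 : ((2 * (L + 1)) ^ 2 - (2 * L) ^ 2) * M1 ≤ 12 * L * M1 := by
    apply mul_le_mul_of_nonneg_right _ hM10
    nlinarith
  have h6 : 24 * M1 ≤ μ * (L - 4) := by
    have : 24 * M1 / μ ≤ L - 4 := by linarith
    rw [div_le_iff₀ hμ] at this
    linarith
  have h7 : 12 * L * M1 ≤ μ * (L ^ 2 / 2 - 2 * L) := by nlinarith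
  nlinarith

end pair

end Est

end Pool.Agent.EulerInflation

end
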