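import Pool.Agent.Work.MP_8b4a1b_an.Stability
import Pool.Agent.Work.MP_8b4a1b_an.Inv

/-! Bundle of small proof modules (one section per former module). -/

section

/-!
Scaled form of the weak-strong stability estimate for the 2D Euler equations.
-/

open MeasureTheory Set
open scoped ENNReal NNReal ContDiff FourierTransform Real

namespace Pool.Agent.EulerInflation

namespace StabScale

lemma pd_smul_arg {c : ℝ} {f : EuclideanSpace ℝ (Fin 2) → ℝ} (hf : Differentiable ℝ f) (i : Fin 2) (x : EuclideanSpace ℝ (Fin 2)) :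
    pd i (fun y => f (c • y)) x = c * pd i f (c • x) := by
  unfold pd
  have h1 : HasFDerivAt (fun y : EuclideanSpace ℝ (Fin 2) => c • y) (c • ContinuousLinearMap.id ℝ (EuclideanSpace ℝ (Fin 2))) x :=
    (hasFDerivAt_id x).const_smul c
  have h2 : HasFDerivAt (fun y => f (c • y))
      ((fderiv ℝ f (c • x)).comp (c • ContinuousLinearMap.id ℝ (EuclideanSpace ℝ (Fin 2)))) x :=
    (hf (c • x)).hasFDerivAt.comp x h1
  rw [h2.fderiv]
  simp

lemma pd_mul_const {a : ℝ} {f : EuclideanSpace ℝ (Fin 2) → ℝ} (hf : Differentiable ℝ f) (i : Fin 2) (x : EuclideanSpace ℝ (Fin 2)) :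
    pd i (fun y => a * f y) x = a * pd i f x := by
  unfold pd
  have h2 : HasFDerivAt (fun y => a * f y) (a • fderiv ℝ f x) x :=
    (hf x).hasFDerivAt.const_mul a
  rw [h2.fderiv]
  simp

lemma pd_scal {a c : ℝ} {f : EuclideanSpace ℝ (Fin 2) → ℝ} (hf : Differentiable ℝ f) (i : Fin 2) (x : EuclideanSpace ℝ (Fin 2)) :
    pd i (fun y => a * f (c • y)) x = a * c * pd i f (c • x) := by
  have h1 : Differentiable ℝ (fun y => f (c • y)) :=
    hf.comp (differentiable_id.const_smul c)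
  rw [pd_mul_const h1, pd_smul_arg hf]
  ring

lemma integral_inv_smul {c : ℝ} (hc : 0 < c) (f : EuclideanSpace ℝ (Fin 2) → ℝ) :
    ∫ x, f (c⁻¹ • x) = c ^ 2 * ∫ x, f x := by
  have h := Measure.integral_comp_smul (volume : Measure (EuclideanSpace ℝ (Fin 2))) f c⁻¹
  rw [h, finrank_euclideanSpace_fin, smul_eq_mul, inv_pow, inv_inv, abs_of_pos (by positivity)]

end StabScale

open StabScale in
theorem stability_scaled {T G R lam τ : ℝ} (hT : 0 < T) (hG : 0 ≤ G) (hlam : 0 < lam)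
    (hτ : 0 < τ) (hτ1 : τ ≤ 1)
    {v : ℝ → EuclideanSpace ℝ (Fin 2) → EuclideanSpace ℝ (Fin 2)}
    {q : ℝ → EuclideanSpace ℝ (Fin 2) → ℝ}
    (hv : ContDiff ℝ ∞ (fun z : ℝ × EuclideanSpace ℝ (Fin 2) => v z.1 z.2))
    (hq : ContDiff ℝ ∞ (fun z : ℝ × EuclideanSpace ℝ (Fin 2) => q z.1 z.2))
    {Kc : Set (EuclideanSpace ℝ (Fin 2))} (hK : IsCompact Kc)
    (hvq : ∀ t, ∀ x ∉ Kc, v t x = 0 ∧ q t x = 0)
    (hdiv : ∀ t x, pd 0 (fun y => v t y 0) x + pd 1 (fun y => v t y 1) x = 0)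
    (hgrad : ∀ t ∈ Icc 0 T, ∀ x, ∀ i j, |pd i (fun y => v t y j) x| ≤ G)
    (hres : ∀ r : ℝ → EuclideanSpace ℝ (Fin 2) → EuclideanSpace ℝ (Fin 2),
        (∀ t x i, r t x i = deriv (fun s => v s x i) t +
          (v t x 0 * pd 0 (fun y => v t y i) x + v t x 1 * pd 1 (fun y => v t y i) x) +
            pd i (q t) x) →
        ∀ t ∈ Icc 0 T, ∫ x, ‖r t x‖ ^ 2 ≤ R)
    {u : ℝ → EuclideanSpace ℝ (Fin 2) → EuclideanSpace ℝ (Fin 2)}
    {p : ℝ → EuclideanSpace ℝ (Fin 2) → ℝ} (h : IsEulerSolution u p)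
    (h0 : ∀ x, u 0 x = -((lam / τ) • v T (lam⁻¹ • x))) :
    ∫ x, ‖u (τ * T) x + (lam / τ) • v 0 (lam⁻¹ • x)‖ ^ 2 ≤
      T / τ ^ 3 * lam ^ 4 * R * Real.exp ((4 * G + 1) * T) := by
  have hlam0 : lam ≠ 0 := hlam.ne'
  have hτ0 : τ ≠ 0 := hτ.ne'
  -- smoothness
  have hvi : ∀ i : Fin 2, ContDiff ℝ ∞ (fun z : ℝ × EuclideanSpace ℝ (Fin 2) => v z.1 z.2 i) :=
    fun i => (EuclideanSpace.proj (𝕜 := ℝ) i).contDiff.comp hv
  have hvx : ∀ (i : Fin 2) t, Differentiable ℝ (fun x => v t x i) := fun i t =>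
    ((hvi i).comp (contDiff_const.prodMk contDiff_id)).differentiable (by simp)
  have hvt : ∀ (i : Fin 2) x, Differentiable ℝ (fun t => v t x i) := fun i x =>
    ((hvi i).comp (contDiff_id.prodMk contDiff_const)).differentiable (by simp)
  have hqx : ∀ t, Differentiable ℝ (q t) := fun t =>
    (hq.comp (contDiff_const.prodMk contDiff_id)).differentiable (by simp)
  -- the residual
  set r : ℝ → EuclideanSpace ℝ (Fin 2) → EuclideanSpace ℝ (Fin 2) := fun t x =>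
    WithLp.toLp 2 (fun i => deriv (fun s => v s x i) t +
          (v t x 0 * pd 0 (fun y => v t y i) x + v t x 1 * pd 1 (fun y => v t y i) x) +
            pd i (q t) x) with hr
  have hrR := hres r (fun t x i => rfl)
  have hR : 0 ≤ R := (integral_nonneg fun x => sq_nonneg _).trans (hrR 0 ⟨le_rfl, hT.le⟩)
  -- the scaled field
  set w : ℝ → EuclideanSpace ℝ (Fin 2) → EuclideanSpace ℝ (Fin 2) := fun t x =>
    -((lam / τ) • v (T - t / τ) (lam⁻¹ • x)) with hw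
  set Q : ℝ → EuclideanSpace ℝ (Fin 2) → ℝ := fun t x =>
    lam ^ 2 / τ ^ 2 * q (T - t / τ) (lam⁻¹ • x) with hQ
  have hwi : ∀ (i : Fin 2) t x, w t x i = (-(lam / τ)) * v (T - t / τ) (lam⁻¹ • x) i := by
    intro i t x
    simp [hw]
  have hpdw : ∀ (i j : Fin 2) t x, pd j (fun y => w t y i) x =
      -(τ⁻¹) * pd j (fun y => v (T - t / τ) y i) (lam⁻¹ • x) := by
    intro i j t x
    have e : (fun y => w t y i) = fun y => (-(lam / τ)) *
        (fun y => v (T - t / τ) y i) (lam⁻¹ • y) := by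
      funext y
      exact hwi i t y
    rw [e, pd_scal (hvx i _)]
    field_simp
  have hpdQ : ∀ (i : Fin 2) t x, pd i (Q t) x =
      lam / τ ^ 2 * pd i (q (T - t / τ)) (lam⁻¹ • x) := by
    intro i t x
    rw [hQ, pd_scal (hqx _)]
    field_simp
  have hdt : ∀ (i : Fin 2) t x, deriv (fun s => w s x i) t =
      lam / τ ^ 2 * deriv (fun s => v s (lam⁻¹ • x) i) (T - t / τ) := by
    intro i t x
    have e : (fun s => w s x i) = fun s => (-(lam / τ)) * v (T - s / τ) (lam⁻¹ • x) i := by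
      funext s
      exact hwi i s x
    rw [e]
    have h1 : HasDerivAt (fun s : ℝ => T - s / τ) (-(1 / τ)) t := by
      have := ((hasDerivAt_id t).div_const τ).const_sub T
      exact this
    have h2 := ((hvt i (lam⁻¹ • x)) (T - t / τ)).hasDerivAt.comp t h1
    have h3 := h2.const_mul (-(lam / τ))
    have h4 : deriv (fun s => (-(lam / τ)) * v (T - s / τ) (lam⁻¹ • x) i) t = _ := h3.deriv
    rw [h4]
    field_simp
  have hKs : IsCompact ((fun x : EuclideanSpace ℝ (Fin 2) => lam • x) '' Kc) :=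
    hK.image (continuous_const_smul lam)
  have hnK : ∀ x ∉ ((fun x : EuclideanSpace ℝ (Fin 2) => lam • x) '' Kc), lam⁻¹ • x ∉ Kc := by
    intro x hx hc
    apply hx
    exact ⟨lam⁻¹ • x, hc, by simp [smul_smul, hlam0]⟩
  have hmap : ContDiff ℝ ∞ (fun z : ℝ × EuclideanSpace ℝ (Fin 2) =>
      (T - z.1 / τ, lam⁻¹ • z.2)) :=
    (contDiff_const.sub (contDiff_fst.div_const τ)).prodMk (contDiff_snd.const_smul lam⁻¹)
  have key := stability h (v := w) (q := Q) (T := τ * T) (G := G / τ)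
    (δ := lam ^ 4 / τ ^ 4 * R) (by positivity) (by positivity)
    ((hv.comp hmap).const_smul (lam / τ)).neg
    (contDiff_const.mul (hq.comp hmap))
    hKs
    (by
      intro t x hx
      simp only [hw]
      rw [(hvq _ _ (hnK x hx)).1, smul_zero, neg_zero])
    (by
      intro t x hx
      simp only [hQ]
      rw [(hvq _ _ (hnK x hx)).2, mul_zero])
    (by
      intro t x
      rw [hpdw, hpdw, ← mul_add, hdiv, mul_zero])
    (by
      intro t ht x i j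
      rw [hpdw, abs_mul, abs_neg, abs_of_pos (by positivity : (0 : ℝ) < τ⁻¹)]
      have h1 : T - t / τ ∈ Icc 0 T := by
        constructor
        · have : t / τ ≤ T := by rw [div_le_iff₀ hτ]; linarith [ht.2]
          linarith
        · have : 0 ≤ t / τ := div_nonneg ht.1 hτ.le
          linarith
      have h2 := hgrad _ h1 (lam⁻¹ • x) i j
      calc τ⁻¹ * |pd i (fun y => v (T - t / τ) y j) (lam⁻¹ • x)| ≤ τ⁻¹ * G :=
            mul_le_mul_of_nonneg_left h2 (by positivity)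
        _ = G / τ := by rw [div_eq_inv_mul])
    (r := fun t x => (lam / τ ^ 2) • r (T - t / τ) (lam⁻¹ • x))
    (by
      intro t x i
      rw [hdt, hpdw, hpdw, hpdQ, hwi, hwi]
      simp only [PiLp.smul_apply, smul_eq_mul, hr]
      field_simp)
    (by
      intro t ht
      have h1 : T - t / τ ∈ Icc 0 T := by
        constructor
        · have : t / τ ≤ T := by rw [div_le_iff₀ hτ]; linarith [ht.2]
          linarith
        · have : 0 ≤ t / τ := div_nonneg ht.1 hτ.le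
          linarith
      have h2 := hrR _ h1
      have e : ∀ x : EuclideanSpace ℝ (Fin 2),
          ‖(lam / τ ^ 2) • r (T - t / τ) (lam⁻¹ • x)‖ ^ 2 =
          (lam / τ ^ 2) ^ 2 * (fun y => ‖r (T - t / τ) y‖ ^ 2) (lam⁻¹ • x) := by
        intro x
        rw [norm_smul, mul_pow, Real.norm_eq_abs, sq_abs]
      simp only [e]
      rw [integral_const_mul,
        integral_inv_smul hlam (fun y => ‖r (T - t / τ) y‖ ^ 2)]
      calc (lam / τ ^ 2) ^ 2 * (lam ^ 2 * ∫ x, ‖r (T - t / τ) x‖ ^ 2)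
          = lam ^ 4 / τ ^ 4 * ∫ x, ‖r (T - t / τ) x‖ ^ 2 := by
            field_simp
        _ ≤ lam ^ 4 / τ ^ 4 * R := mul_le_mul_of_nonneg_left h2 (by positivity))
    (by
      intro x
      rw [h0 x]
      simp [hw])
    (τ * T) ⟨by positivity, le_rfl⟩
  have e1 : ∀ x, ‖u (τ * T) x - w (τ * T) x‖ ^ 2 =
      ‖u (τ * T) x + (lam / τ) • v 0 (lam⁻¹ • x)‖ ^ 2 := by
    intro x
    have : T - τ * T / τ = 0 := by field_simp; ring
    simp only [hw, this, sub_neg_eq_add]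
  simp only [e1] at key
  refine key.trans ?_
  have e2 : τ * T * (lam ^ 4 / τ ^ 4 * R) = T / τ ^ 3 * lam ^ 4 * R := by
    field_simp
  rw [e2]
  apply mul_le_mul_of_nonneg_left _ (by positivity)
  apply Real.exp_le_exp.mpr
  have e3 : (4 * (G / τ) + 1) * (τ * T) = 4 * G * T + τ * T := by
    field_simp
  rw [e3]
  nlinarith

theorem smooth_data {T lam τ : ℝ} (hlam : 0 < lam)
    {v : ℝ → EuclideanSpace ℝ (Fin 2) → EuclideanSpace ℝ (Fin 2)}
    (hv : ContDiff ℝ ∞ (fun z : ℝ × EuclideanSpace ℝ (Fin 2) => v z.1 z.2))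
    {Kc : Set (EuclideanSpace ℝ (Fin 2))} (hK : IsCompact Kc)
    (hvq : ∀ t, ∀ x ∉ Kc, v t x = 0)
    (hdiv : ∀ t x, pd 0 (fun y => v t y 0) x + pd 1 (fun y => v t y 1) x = 0) :
    ContDiff ℝ ∞ (fun x : EuclideanSpace ℝ (Fin 2) => -((lam / τ) • v T (lam⁻¹ • x))) ∧
    HasCompactSupport (fun x : EuclideanSpace ℝ (Fin 2) => -((lam / τ) • v T (lam⁻¹ • x))) ∧
    ∀ x, pd 0 (fun y => (-((lam / τ) • v T (lam⁻¹ • y))) 0) x +
      pd 1 (fun y => (-((lam / τ) • v T (lam⁻¹ • y))) 1) x = 0 := by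
  have hlam0 : lam ≠ 0 := hlam.ne'
  have hvi : ∀ i : Fin 2, ContDiff ℝ ∞ (fun z : ℝ × EuclideanSpace ℝ (Fin 2) => v z.1 z.2 i) :=
    fun i => (EuclideanSpace.proj (𝕜 := ℝ) i).contDiff.comp hv
  have hvx : ∀ (i : Fin 2) t, Differentiable ℝ (fun x => v t x i) := fun i t =>
    ((hvi i).comp (contDiff_const.prodMk contDiff_id)).differentiable (by simp)
  refine ⟨?_, ?_, ?_⟩
  · have h1 : ContDiff ℝ ∞ (fun x : EuclideanSpace ℝ (Fin 2) => (T, lam⁻¹ • x)) :=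
      contDiff_const.prodMk (contDiff_id.const_smul lam⁻¹)
    exact ((hv.comp h1).const_smul (lam / τ)).neg
  · apply HasCompactSupport.of_support_subset_isCompact (hK.image (continuous_const_smul lam))
    intro x hx
    by_contra hc
    apply hx
    have : lam⁻¹ • x ∉ Kc := fun hc' => hc ⟨lam⁻¹ • x, hc', by simp [smul_smul, hlam0]⟩
    show -((lam / τ) • v T (lam⁻¹ • x)) = 0
    rw [hvq _ _ this, smul_zero, neg_zero]
  · intro x
    have e : ∀ i : Fin 2, (fun y => (-((lam / τ) • v T (lam⁻¹ • y))) i) =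
        fun y => (-(lam / τ)) * (fun y => v T y i) (lam⁻¹ • y) := by
      intro i
      funext y
      simp
    rw [e, e, StabScale.pd_scal (hvx 0 T), StabScale.pd_scal (hvx 1 T), ← mul_add, hdiv, mul_zero]

end Pool.Agent.EulerInflation

end

section

/-!
The algebraic identities for the residual of the momentum equations.
-/

open Polynomial

namespace Pool.Agent.EulerInflation

theorem Dy_Dz (f : BB) : Dy (Dz f) = Dz (Dy f) := mop_comm _ _ _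
theorem Dt_Dz (f : BB) : Dt (Dz f) = Dz (Dt f) := mop_Dt _ _
theorem Dt_Dy (f : BB) : Dt (Dy f) = Dy (Dt f) := mop_Dt _ _
theorem Dy_Iz (f : BB) : Dy (Iz f) = Iz (Dy f) := mop_comm _ _ _
theorem Mn_Dy (f : BB) : Mn (Dy f) = Dy (Mn f) := mop_comm _ _ _
theorem Mn_Dt (f : BB) : Mn (Dt f) = Dt (Mn f) := (mop_Dt _ _).symm
theorem Dt_Iz (f : BB) : Dt (Iz f) = Iz (Dt f) := mop_Dt _ _
theorem Mn_Dz' (f : BB) : Mn (Dz f) = 0 := Mn_Dz f

/-- constants of the algebra -/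
structure Cst (H : BB) : Prop where
  z : Dz H = 0
  y : Dy H = 0
  t : Dt H = 0
  zi : ZI H

/-- the operator `h ∂_y` at fixed `x` -/
noncomputable def Dh (H Θ f : BB) : BB := H * Dy f - Θ * Dz f
/-- the rescaled Laplacian -/
noncomputable def EE (H Θ g : BB) : BB := Dz (Dz g) + Dh H Θ (Dh H Θ g)

section general
variable {H M Θ Ψ g : BB} (hH : Cst H) (hM : Cst M) (zΘ : ZI Θ) (zΨ : ZI Ψ) (mg : MZ g)
  (hΘ : Dt Θ = -Dy (Dy Ψ))

theorem Dz_Dh (hH : Cst H) (zΘ : ZI Θ) (f : BB) : Dz (Dh H Θ f) = Dh H Θ (Dz f) := by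
  unfold Dh
  simp only [map_sub, Dz_mul, hH.z, Dz_ZI zΘ, Dy_Dz]
  ring

theorem Mn_Dh (hH : Cst H) (zΘ : ZI Θ) (f : BB) : Mn (Dh H Θ f) = H * Dy (Mn f) := by
  unfold Dh
  rw [map_sub, Mn_ZI_mul hH.zi, Mn_ZI_mul zΘ, Mn_Dz, Mn_Dy]
  ring

theorem Dh_mul (f k : BB) : Dh H Θ (f * k) = Dh H Θ f * k + f * Dh H Θ k := by
  unfold Dh
  rw [Dz_mul, Dy_mul]
  ring

theorem Mn_two (f : BB) : Mn (f + f) = Mn f + Mn f := map_add _ _ _

include hH zΘ in
theorem MZ_Dh {f : BB} (hf : MZ f) : MZ (Dh H Θ f) := by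
  unfold MZ at *
  rw [Mn_Dh hH zΘ, hf, map_zero, mul_zero]

include hH zΘ in
theorem MZ_EE {f : BB} (hf : MZ f) : MZ (EE H Θ f) :=
  (MZ_Dz _).add (MZ_Dh hH zΘ (MZ_Dh hH zΘ hf))

include hH zΘ in
/-- the mean of `g_Z E g` -/
theorem mean_identity : Mn (Dz g * EE H Θ g) = H * Dy (Mn (Dz g * Dh H Θ g)) := by
  have e1 : Dz g * EE H Θ g + Dz g * EE H Θ g = Dz (Dz g * Dz g) + (Dh H Θ (Dz g * Dh H Θ g) +
      Dh H Θ (Dz g * Dh H Θ g)) - Dz (Dh H Θ g * Dh H Θ g) := by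
    unfold EE
    rw [Dh_mul, Dz_mul, Dz_mul, Dz_Dh hH zΘ]
    ring
  have e2 := congrArg (fun f => Mn f) e1
  simp only [map_add, map_sub, Mn_Dz, Mn_Dh hH zΘ] at e2
  have e3 : (2 : ℂ) • Mn (Dz g * EE H Θ g) = (2 : ℂ) • (H * Dy (Mn (Dz g * Dh H Θ g))) := by
    rw [two_smul, two_smul]
    linear_combination e2
  exact smul_right_injective _ (two_ne_zero' ℂ) e3

include hH zΘ in
/-- the mean of `E g D g` -/
theorem mean_identity2 : Mn (EE H Θ g * Dh H Θ g) + Mn (EE H Θ g * Dh H Θ g) =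
    H * Dy (Mn (Dh H Θ g * Dh H Θ g)) - H * Dy (Mn (Dz g * Dz g)) := by
  have e1 : EE H Θ g * Dh H Θ g + EE H Θ g * Dh H Θ g =
      (Dz (Dz g * Dh H Θ g) + Dz (Dz g * Dh H Θ g)) - Dh H Θ (Dz g * Dz g) +
      Dh H Θ (Dh H Θ g * Dh H Θ g) := by
    unfold EE
    rw [Dh_mul, Dh_mul, Dz_mul, Dz_Dh hH zΘ]
    ring
  have e2 := congrArg (fun f => Mn f) e1
  simp only [map_add, map_sub, Mn_Dz, Mn_Dh hH zΘ] at e2
  linear_combination e2

theorem half_smul (x : BB) : ((1 / 2 : ℝ) : ℂ) • (x + x) = x := by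
  have h : ((1 / 2 : ℝ) : ℂ) + ((1 / 2 : ℝ) : ℂ) = 1 := by push_cast; norm_num
  rw [smul_add, ← add_smul, h, one_smul]

/-- the Bernoulli function -/
noncomputable def PP (H M Θ Ψ g : BB) : BB :=
  H * (M * Iz (Dt (Dh H Θ g))) + M * (Dy Ψ * Dh H Θ g) + H * (M * (g * Dy (Dy Ψ))) +
    M * (M * Iz (Dz g * EE H Θ g)) +
    ((1 / 2 : ℝ) : ℂ) • Mn ((Dy Ψ + M * Dh H Θ g) * (Dy Ψ + M * Dh H Θ g) -
      (M * Dz g) * (M * Dz g))

include hH hM zΘ zΨ mg in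
theorem Dz_PP : Dz (PP H M Θ Ψ g) = H * (M * Dt (Dh H Θ g)) + M * (Dy Ψ * Dz (Dh H Θ g)) +
    H * (M * (Dz g * Dy (Dy Ψ))) + M * (M * (Dz g * EE H Θ g - Mn (Dz g * EE H Θ g))) := by
  unfold PP
  have h1 : Dz (Iz (Dt (Dh H Θ g))) = Dt (Dh H Θ g) := by
    apply Dz_Iz
    exact (MZ_Dh hH zΘ mg).dt
  have h2 := Dz_ZI zΨ.dy
  have h3 := Dz_ZI zΨ.dy.dy
  have h4 := Dz_ZI (ZI_Mn ((Dy Ψ + M * Dh H Θ g) * (Dy Ψ + M * Dh H Θ g) -
      (M * Dz g) * (M * Dz g)))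
  simp only [map_add, map_smul, Dz_mul, hH.z, hM.z, h1, h2, h3, Dz_Iz', h4]
  simp only [smul_zero]
  ring

include hH hM zΘ zΨ mg in
/-- first momentum equation -/
theorem r1_identity :
    -(H * Dt (Dy Ψ + M * Dh H Θ g)) - Dy Ψ * Dz (M * Dh H Θ g) -
      (H * Dy (Dy Ψ) + M * EE H Θ g) * (M * Dz g) + Dz (PP H M Θ Ψ g) =
    -(H * Dy (Dt Ψ + M * (M * Mn (Dz g * Dh H Θ g)))) := by
  rw [Dz_PP hH hM zΘ zΨ mg]
  have h1 := mean_identity (g := g) hH zΘ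
  have h2 : Dt (Dy Ψ + M * Dh H Θ g) = Dy (Dt Ψ) + M * Dt (Dh H Θ g) := by
    rw [map_add, Dt_Dy, Dt_mul, hM.t]; ring
  have h3 : Dz (M * Dh H Θ g) = M * Dz (Dh H Θ g) := by rw [Dz_mul, hM.z]; ring
  have h4 : Dy (Dt Ψ + M * (M * Mn (Dz g * Dh H Θ g))) =
      Dy (Dt Ψ) + M * (M * Dy (Mn (Dz g * Dh H Θ g))) := by
    rw [map_add, Dy_mul, Dy_mul, hM.y]; ring
  rw [h2, h3, h4]
  linear_combination (-(M * M)) * h1

/-- the left-hand side of the second momentum equation -/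
noncomputable def sh (H M Θ Ψ g : BB) : BB :=
  H * Dt (M * Dz g) + Dy Ψ * Dz (M * Dz g) -
    (H * Dy (Dy Ψ) + M * EE H Θ g) * (Dy Ψ + M * Dh H Θ g) + Dh H Θ (PP H M Θ Ψ g)

/-- the Jacobian -/
noncomputable def Jc (g f : BB) : BB := Dz g * Dy f - Dy g * Dz f

/-- vorticity residual -/
noncomputable def RR (H M Θ Ψ g : BB) : BB :=
  Dt (EE H Θ g) + H * (Dy (Dy (Dy Ψ)) * Dz g) + M * (Jc g (EE H Θ g) - Mn (Jc g (EE H Θ g)))

theorem Mn_Jc (g f : BB) : Mn (Jc g f) = Dy (Mn (Dz g * f)) := by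
  have : Jc g f = Dy (Dz g * f) - Dz (Dy g * f) := by
    unfold Jc
    rw [Dy_mul, Dz_mul, Dy_Dz]
    ring
  rw [this, map_sub, Mn_Dz, Mn_Dy, sub_zero]

include hH hM zΘ zΨ mg in
theorem Mn_sh : Mn (sh H M Θ Ψ g) = 0 := by
  have mgd := MZ_Dh hH zΘ mg
  have mge := MZ_EE hH zΘ mg
  have zy := zΨ.dy
  have zyy := zΨ.dy.dy
  have e1 : Mn (H * Dt (M * Dz g)) = 0 := by
    rw [Mn_ZI_mul hH.zi, Mn_Dt, Mn_ZI_mul hM.zi, Mn_Dz, mul_zero, map_zero, mul_zero]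
  have e2 : Mn (Dy Ψ * Dz (M * Dz g)) = 0 := by
    rw [Mn_ZI_mul zy, Mn_Dz, mul_zero]
  have e3 : Mn ((H * Dy (Dy Ψ) + M * EE H Θ g) * (Dy Ψ + M * Dh H Θ g)) =
      H * (Dy (Dy Ψ) * Dy Ψ) + M * (M * Mn (EE H Θ g * Dh H Θ g)) := by
    have : (H * Dy (Dy Ψ) + M * EE H Θ g) * (Dy Ψ + M * Dh H Θ g) =
        H * (Dy (Dy Ψ) * Dy Ψ) + (H * (Dy (Dy Ψ) * M)) * Dh H Θ g + (M * Dy Ψ) * EE H Θ g +
        (M * M) * (EE H Θ g * Dh H Θ g) := by ring
    rw [this, map_add, map_add, map_add]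
    have z1 : ZI (H * (Dy (Dy Ψ) * Dy Ψ)) := hH.zi.mul (zyy.mul zy)
    have z2 : ZI (H * (Dy (Dy Ψ) * M)) := hH.zi.mul (zyy.mul hM.zi)
    have z3 : ZI (M * Dy Ψ) := hM.zi.mul zy
    have z4 : ZI (M * M) := hM.zi.mul hM.zi
    rw [Mn_ZI_mul z2, Mn_ZI_mul z3, Mn_ZI_mul z4, mgd, mge, z1]
    ring
  have e4 : Mn (PP H M Θ Ψ g) = ((1 / 2 : ℝ) : ℂ) • (Dy Ψ * Dy Ψ +
      M * (M * Mn (Dh H Θ g * Dh H Θ g)) - M * (M * Mn (Dz g * Dz g))) := by
    unfold PP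
    rw [map_add, map_add, map_add, map_add, map_smul, Mn_Mn]
    rw [Mn_ZI_mul hH.zi, Mn_ZI_mul hM.zi, Mn_Iz, Mn_ZI_mul hM.zi, Mn_ZI_mul zy, mgd,
      Mn_ZI_mul hH.zi, Mn_ZI_mul hM.zi, mul_comm g, Mn_ZI_mul zyy, mg, Mn_ZI_mul hM.zi,
      Mn_ZI_mul hM.zi, Mn_Iz]
    have : (Dy Ψ + M * Dh H Θ g) * (Dy Ψ + M * Dh H Θ g) - (M * Dz g) * (M * Dz g) =
        Dy Ψ * Dy Ψ + (M * Dy Ψ) * Dh H Θ g + (M * Dy Ψ) * Dh H Θ g +
        (M * M) * (Dh H Θ g * Dh H Θ g) - (M * M) * (Dz g * Dz g) := by ring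
    rw [this, map_sub, map_add, map_add, map_add]
    have z1 : ZI (Dy Ψ * Dy Ψ) := zy.mul zy
    have z3 : ZI (M * Dy Ψ) := hM.zi.mul zy
    have z4 : ZI (M * M) := hM.zi.mul hM.zi
    rw [Mn_ZI_mul z3, Mn_ZI_mul z4, Mn_ZI_mul z4, mgd, z1]
    have h5 : Dy Ψ * Dy Ψ + M * Dy Ψ * 0 + M * Dy Ψ * 0 + M * M * Mn (Dh H Θ g * Dh H Θ g) -
        M * M * Mn (Dz g * Dz g) = Dy Ψ * Dy Ψ +
      M * (M * Mn (Dh H Θ g * Dh H Θ g)) - M * (M * Mn (Dz g * Dz g)) := by ring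
    rw [h5]
    ring
  have e5 : Mn (Dh H Θ (PP H M Θ Ψ g)) = H * (Dy (Dy Ψ) * Dy Ψ) +
      M * (M * Mn (EE H Θ g * Dh H Θ g)) := by
    rw [Mn_Dh hH zΘ, e4, map_smul, mul_smul_comm]
    have h2 := mean_identity2 (g := g) hH zΘ
    have h3 : H * Dy (Dy Ψ * Dy Ψ + M * (M * Mn (Dh H Θ g * Dh H Θ g)) -
        M * (M * Mn (Dz g * Dz g))) =
        (H * (Dy (Dy Ψ) * Dy Ψ) + M * (M * Mn (EE H Θ g * Dh H Θ g))) +
        (H * (Dy (Dy Ψ) * Dy Ψ) + M * (M * Mn (EE H Θ g * Dh H Θ g))) := by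
      rw [map_sub, map_add, Dy_mul, Dy_mul, Dy_mul, Dy_mul, Dy_mul, hM.y]
      linear_combination (-(M * M)) * h2
    rw [h3, half_smul]
  unfold sh
  rw [map_add, map_sub, map_add, e1, e2, e3, e5]
  ring

include hH hM zΘ zΨ mg hΘ in
theorem Dz_sh : Dz (sh H M Θ Ψ g) = H * (M * RR H M Θ Ψ g) := by
  have zy := Dz_ZI zΨ.dy
  have zyy := Dz_ZI zΨ.dy.dy
  have zX := Dz_ZI (ZI_Mn (Dz g * EE H Θ g))
  have e1 : Dz (Dh H Θ (PP H M Θ Ψ g)) = Dh H Θ (H * (M * Dt (Dh H Θ g)) +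
      M * (Dy Ψ * Dz (Dh H Θ g)) + H * (M * (Dz g * Dy (Dy Ψ))) +
      M * (M * (Dz g * EE H Θ g - Mn (Dz g * EE H Θ g)))) := by
    rw [Dz_Dh hH zΘ, Dz_PP hH hM zΘ zΨ mg]
  unfold sh RR
  rw [Mn_Jc]
  rw [map_add, e1]
  set X := Mn (Dz g * EE H Θ g) with hX
  unfold Jc EE Dh
  simp only [map_add, map_sub, map_neg, Dz_mul, Dy_mul, Dt_mul, hH.z, hH.y, hH.t, hM.z, hM.y, hM.t,
    Dy_Dz, Dt_Dz, Dt_Dy, Dz_ZI zΘ, zy, zyy, zX, hΘ, Dz_ZI zΘ.dy, zero_mul, mul_zero,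
    zero_add, add_zero, neg_zero]
  ring

include hH hM zΘ zΨ mg hΘ in
/-- second momentum equation -/
theorem r2_identity : sh H M Θ Ψ g = H * (M * Iz (RR H M Θ Ψ g)) := by
  have h1 : MZ (sh H M Θ Ψ g) := Mn_sh hH hM zΘ zΨ mg
  rw [← Iz_Dz h1, Dz_sh hH hM zΘ zΨ mg hΘ, Iz_ZI_mul hH.zi, Iz_ZI_mul hM.zi]

end general

end Pool.Agent.EulerInflation

end

section

/-!
Identities satisfied by the fixed point.
-/

open Polynomial

namespace Pool.Agent.EulerInflation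

theorem Dt_single (a : Idx) (p : ℂ[X]) :
    Dt (AddMonoidAlgebra.single a p) = AddMonoidAlgebra.single a (derivative p) :=
  op_single _ _ _

theorem Dt_Th0 : Dt Th0 = cosy := by
  unfold Th0 cosy
  rw [map_add, Dt_single, Dt_single]
  congr 2 <;> simp

theorem Dy2_cosy : Dy (Dy cosy) = -cosy := by
  unfold cosy
  rw [map_add, map_add]
  simp only [Dy_single, smul_smul]
  have hI : Complex.I * Complex.I = -1 := Complex.I_mul_I
  have e1 : ((Complex.I * ((1 : ℤ) : ℂ)) * (Complex.I * ((1 : ℤ) : ℂ))) • (C (1 / 2 : ℂ)) =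
      -(C (1 / 2 : ℂ)) := by
    have : ((Complex.I * ((1 : ℤ) : ℂ)) * (Complex.I * ((1 : ℤ) : ℂ))) = -1 := by
      push_cast
      linear_combination hI
    rw [this, neg_one_smul]
  have e2 : ((Complex.I * ((-1 : ℤ) : ℂ)) * (Complex.I * ((-1 : ℤ) : ℂ))) • (C (1 / 2 : ℂ)) =
      -(C (1 / 2 : ℂ)) := by
    have : ((Complex.I * ((-1 : ℤ) : ℂ)) * (Complex.I * ((-1 : ℤ) : ℂ))) = -1 := by
      push_cast
      linear_combination hI
    rw [this, neg_one_smul]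
  rw [e1, e2]
  have e3 : ∀ (a : Idx) (p : ℂ[X]), (AddMonoidAlgebra.single a (-p) : BB) =
      -AddMonoidAlgebra.single a p := by
    intro a p
    apply BB.ext'
    intro b
    simp only [AddMonoidAlgebra.coeff_single, AddMonoidAlgebra.coeff_neg, Finsupp.neg_apply]
    by_cases hb : a = b
    · subst hb; simp
    · simp [hb]
  rw [e3, e3]
  abel

theorem Cst_eb_smul (x : ℂ) : Cst (x • eb) := by
  have h1 : Dz eb = 0 := by
    unfold eb; rw [Dz, mop_single]; simp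
  have h2 : Dy eb = 0 := by
    unfold eb; rw [Dy, mop_single]; simp
  have h3 : Dt eb = 0 := by
    unfold eb; rw [Dt_single]; simp
  refine ⟨?_, ?_, ?_, ZI_eb.smul x⟩
  · rw [map_smul, h1, smul_zero]
  · rw [map_smul, h2, smul_zero]
  · rw [map_smul, h3, smul_zero]

theorem Dt_eb_mul (f : BB) : Dt (eb * f) = eb * Dt f := by
  have h3 : Dt eb = 0 := by
    unfold eb; rw [Dt_single]; simp
  rw [Dt_mul, h3, zero_mul, zero_add]

theorem Dt_w0 : Dt w0 = 0 := by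
  unfold w0
  rw [map_add, Dt_single, Dt_single]
  simp

section fixed
variable (T h μ : ℝ) (N K : ℕ)

/-- tail of the mean flow equation -/
noncomputable def Tψ (s : St) : BB := Xψ h μ s.a s.θ - s.ψ
/-- tail of the vorticity equation -/
noncomputable def Tw (s : St) : BB := Xw h μ s.a s.w s.ψ - s.w
/-- tail of the elliptic equation -/
noncomputable def Ta (s : St) : BB := sg T N * YY h s.a s.w s.θ - s.a
/-- residual of the elliptic equation -/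
noncomputable def rE (s : St) : BB :=
  (1 - SS * sg T N) * YY h s.a s.w s.θ + SS * Ta T h N s

/-- structure collecting what is used of the fixed point -/
structure Fix (κ : ℝ) (s : St) : Prop extends Inv T κ s where
  eψ : s.ψ = tr K (Xψ h μ s.a s.θ)
  eθ : s.θ = Xθ s.ψ
  ew : s.w = tr K (Xw h μ s.a s.w s.ψ)
  ea : s.a = tr K (sg T N * YY h s.a s.w s.θ)

variable {T h μ : ℝ} {N K : ℕ} {κ : ℝ}

theorem Fix_fp (S : Small T κ h μ K) : Fix T h μ N K κ (fp T h μ N K) := by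
  have h1 := fp_fixed T h μ N K
  have hψ : (fp T h μ N K).ψ = tr K (Xψ h μ (fp T h μ N K).a (fp T h μ N K).θ) := by
    conv_lhs => rw [← h1]
    rfl
  have hθ : (fp T h μ N K).θ = Xθ (fp T h μ N K).ψ := by
    conv_lhs => rw [← h1]
    rw [hψ]
    rfl
  have hw : (fp T h μ N K).w =
      tr K (Xw h μ (fp T h μ N K).a (fp T h μ N K).w (fp T h μ N K).ψ) := by
    conv_lhs => rw [← h1]
    conv_rhs => rw [hψ]
    rfl
  have ha : (fp T h μ N K).a =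
      tr K (sg T N * YY h (fp T h μ N K).a (fp T h μ N K).w (fp T h μ N K).θ) := by
    conv_lhs => rw [← h1]
    conv_rhs => rw [hθ, hψ, hw, hψ]
    rfl
  exact ⟨Inv_fp S N, hψ, hθ, hw, ha⟩

variable {s : St} (F : Fix T h μ N K κ s)
include F

theorem Fix.DtΘ : Dt (Th0 + s.θ) = -Dy (Dy (cosy + s.ψ)) := by
  have h1 : Dt s.θ = -Dy (Dy s.ψ) := by
    conv_lhs => rw [F.eθ, Xθ, map_neg, Dt_It]
  rw [map_add, Dt_Th0, h1, map_add, map_add, Dy2_cosy]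
  abel

omit F in
theorem Dzg_eq (s : St) : Dz (Iz (Iz s.a)) = Iz s.a := Dz_Iz (MZ_Iz _)

theorem Fix.Dzzg : Dz (Dz (Iz (Iz s.a))) = s.a := by
  rw [Dzg_eq s, Dz_Iz F.ma]

theorem Fix.EE_eq :
    EE ((h : ℂ) • eb) (Th0 + s.θ) (Iz (Iz s.a)) = s.w - rE T h N s := by
  have zΘ : ZI (Th0 + s.θ) := ZI_Th0.add F.zθ
  have hH := Cst_eb_smul (h : ℂ)
  have h1 : EE ((h : ℂ) • eb) (Th0 + s.θ) (Iz (Iz s.a)) =
      SS * s.a + s.w - YY h s.a s.w s.θ := by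
    unfold EE YY Y1 Y2 Y3
    have e1 : Dh ((h : ℂ) • eb) (Th0 + s.θ) (Dh ((h : ℂ) • eb) (Th0 + s.θ) (Iz (Iz s.a))) =
        ((h : ℂ) • eb) * (((h : ℂ) • eb) * Dy (Dy (Iz (Iz s.a)))) -
        ((h : ℂ) • eb) * (Dy (Th0 + s.θ) * Dz (Iz (Iz s.a)) +
          (Th0 + s.θ) * Dy (Dz (Iz (Iz s.a)))) -
        (Th0 + s.θ) * (((h : ℂ) • eb) * Dy (Dz (Iz (Iz s.a))) -
          (Th0 + s.θ) * Dz (Dz (Iz (Iz s.a)))) := by
      unfold Dh
      simp only [map_sub, Dy_mul, Dz_mul, hH.y, hH.z, Dz_ZI zΘ, Dy_Dz]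
      ring
    rw [e1, F.Dzzg, Dzg_eq]
    have e2 : ((h : ℂ) * (h : ℂ)) • (eb * (eb * Dy (Dy (Iz (Iz s.a))))) =
        ((h : ℂ) • eb) * (((h : ℂ) • eb) * Dy (Dy (Iz (Iz s.a)))) := by
      simp only [smul_mul_assoc, mul_smul_comm, smul_smul]
    have e3 : (h : ℂ) • (eb * ((Th0 + s.θ) * Dy (Iz s.a) + (Th0 + s.θ) * Dy (Iz s.a) +
        Dy (Th0 + s.θ) * Iz s.a)) = ((h : ℂ) • eb) * ((Th0 + s.θ) * Dy (Iz s.a) +
        (Th0 + s.θ) * Dy (Iz s.a) + Dy (Th0 + s.θ) * Iz s.a) := by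
      rw [smul_mul_assoc]
    rw [e2, e3]
    unfold SS
    ring
  rw [h1]
  unfold rE Ta
  ring

/-- time derivative of the vorticity -/
theorem Fix.Dtw : Dt s.w = -(((h : ℂ) • eb) * (Dy (Dy (Dy (cosy + s.ψ))) *
      Dz (Iz (Iz s.a)))) -
    ((μ : ℂ) • eb) * (Jc (Iz (Iz s.a)) s.w - Mn (Jc (Iz (Iz s.a)) s.w)) - Dt (Tw h μ s) := by
  have h1 : s.w = Xw h μ s.a s.w s.ψ - Tw h μ s := by
    unfold Tw; ring
  have hJ : JJ s.a s.w = Jc (Iz (Iz s.a)) s.w := by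
    unfold JJ Jc; rw [Dzg_eq s]
  have h2 : Dt (Xw h μ s.a s.w s.ψ) = -(((h : ℂ) • eb) * (Dy (Dy (Dy (cosy + s.ψ))) *
      Dz (Iz (Iz s.a)))) -
      ((μ : ℂ) • eb) * (Jc (Iz (Iz s.a)) s.w - Mn (Jc (Iz (Iz s.a)) s.w)) := by
    unfold Xw H1 H2 H3
    rw [map_sub, map_sub, map_sub, map_smul, map_smul, map_smul, Dt_w0]
    simp only [Dt_eb_mul, Dt_It]
    rw [hJ, Dzg_eq]
    simp only [smul_mul_assoc, map_add, mul_add, add_mul]
    have e : ∀ x : BB, (h : ℂ) • x + 0 = (h : ℂ) • x := fun x => add_zero _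
    rw [mul_comm (Dy (Dy (Dy cosy))), mul_comm (Dy (Dy (Dy s.ψ)))]
    abel
  calc Dt s.w = Dt (Xw h μ s.a s.w s.ψ - Tw h μ s) := by rw [← h1]
    _ = _ := by rw [map_sub, h2]

theorem Fix.DtΨ : Dt (cosy + s.ψ) + ((μ : ℂ) • eb) * (((μ : ℂ) • eb) *
    Mn (Dz (Iz (Iz s.a)) * Dh ((h : ℂ) • eb) (Th0 + s.θ) (Iz (Iz s.a)))) = -Dt (Tψ h μ s) := by
  have h0 : Dt cosy = 0 := by
    unfold cosy
    rw [map_add, Dt_single, Dt_single]
    simp
  have h1 : s.ψ = Xψ h μ s.a s.θ - Tψ h μ s := by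
    unfold Tψ; ring
  have h2 : Dt (Xψ h μ s.a s.θ) = -(((μ : ℂ) • eb) * (((μ : ℂ) • eb) *
      Mn (Dz (Iz (Iz s.a)) * Dh ((h : ℂ) • eb) (Th0 + s.θ) (Iz (Iz s.a))))) := by
    unfold Xψ G1 G2 Dh
    rw [Dzg_eq s, map_smul, map_sub, map_smul]
    simp only [Dt_eb_mul, Dt_It]
    rw [mul_sub, map_sub]
    have e1 : Iz s.a * (((h : ℂ) • eb) * Dy (Iz (Iz s.a))) =
        (h : ℂ) • (Iz s.a * (eb * Dy (Iz (Iz s.a)))) := by
      rw [smul_mul_assoc, mul_smul_comm]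
    rw [e1, map_smul]
    have e2 : ((μ ^ 2 : ℝ) : ℂ) = (μ : ℂ) * (μ : ℂ) := by push_cast; ring
    rw [e2]
    simp only [smul_mul_assoc, mul_smul_comm, smul_smul, mul_sub, smul_sub, neg_sub]
    rw [show (μ : ℂ) * μ * h = h * μ * μ by ring]
  have h3 : Dt s.ψ = Dt (Xψ h μ s.a s.θ) - Dt (Tψ h μ s) := by
    rw [← map_sub, ← h1]
  rw [map_add, h0, h3, h2]
  ring

theorem Fix.RR_eq :
    RR ((h : ℂ) • eb) ((μ : ℂ) • eb) (Th0 + s.θ) (cosy + s.ψ) (Iz (Iz s.a)) =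
      -Dt (Tw h μ s) - Dt (rE T h N s) - ((μ : ℂ) • eb) * (Jc (Iz (Iz s.a)) (rE T h N s) -
        Mn (Jc (Iz (Iz s.a)) (rE T h N s))) := by
  unfold RR
  rw [F.EE_eq, map_sub, F.Dtw]
  have h1 : Jc (Iz (Iz s.a)) (s.w - rE T h N s) =
      Jc (Iz (Iz s.a)) s.w - Jc (Iz (Iz s.a)) (rE T h N s) := by
    unfold Jc
    rw [map_sub, map_sub]
    ring
  rw [h1, map_sub]
  ring

end fixed

end Pool.Agent.EulerInflation

end

section

/-!
Bounds in the total norm for the fixed point and its residuals.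
-/

open Polynomial

namespace Pool.Agent.EulerInflation

theorem nn_sub_tr (K n : ℕ) (τ : ℝ) (t : ℂ) (f : BB) (hn : n ≤ K) :
    nn n τ t (f - tr K f) = 0 := by
  have h0 : f - tr K f = mop (fun a => if a.1 ≤ K then 0 else 1) f := by
    apply BB.ext'
    intro a
    simp only [AddMonoidAlgebra.coeff_sub, Finsupp.sub_apply, tr, mop_coeff]
    by_cases h : a.1 ≤ K <;> simp [h]
  rw [h0]
  apply le_antisymm _ (nn_nonneg _ _ _ _)
  have h1 : nn n τ t (mop (fun a => if a.1 ≤ K then 0 else 1) f) ≤ gn (fun _ => 0) t f := by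
    apply gn_mop_le
    intro a
    by_cases ha : a.1 = n
    · have : a.1 ≤ K := by omega
      simp [this]
    · simp [ha]
  refine h1.trans (le_of_eq ?_)
  simp [gn]

theorem Bd.tail {T : ℝ} (hT : 1 ≤ T) {α : ℕ} {β : ℤ} {p : ℕ} {C : ℝ} {f : BB}
    (hf : Bd T α β p C f) (hβ : 0 ≤ β) {τ : ℝ} (h0 : 0 ≤ τ) (h1 : τ ≤ τT T / 2) {t : ℂ}
    (ht : t ∈ reg T) (K : ℕ) :
    tn τ t (f - tr K f) ≤ 4 * (T + 2) ^ α * C * (1 / 4) ^ K := by
  have e1 := hf.sub (hf.trunc K)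
  have e2 := e1.tn_le hT hβ h0 h1 ht (K := K) (fun n hn => Or.inl (nn_sub_tr K n τ t f hn))
  refine e2.trans (le_of_eq ?_)
  ring

theorem Bd.total {T : ℝ} (hT : 1 ≤ T) {α : ℕ} {β : ℤ} {p : ℕ} {C : ℝ} {f : BB}
    (hf : Bd T α β p C f) (hβ : 0 ≤ β) {τ : ℝ} (h0 : 0 ≤ τ) (h1 : τ ≤ τT T / 2) {t : ℂ}
    (ht : t ∈ reg T) : tn τ t f ≤ 2 * (T + 2) ^ α * C := by
  have := hf.tn_le hT hβ h0 h1 ht (K := 0) (fun n hn => Or.inr rfl)
  simpa using this

theorem tn_Dt_le {τ : ℝ} {t : ℂ} {f : BB} {A b : ℝ} (hb : 0 < b)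
    (h : ∀ z : ℂ, ‖z - t‖ = b → tn τ z f ≤ A) : tn τ t (Dt f) ≤ A / b :=
  gn_Dt_le (fun a => (wt_pos τ a).le) hb h

theorem mem_reg_of_real {T t : ℝ} (hT : 1 ≤ T) (h0 : 0 ≤ t) (h1 : t ≤ T) : (t : ℂ) ∈ reg T := by
  constructor
  · simp [(bT_pos hT).le]
  · rw [Complex.norm_real, Real.norm_of_nonneg h0]; linarith

theorem bT_le {T : ℝ} (hT : 1 ≤ T) : bT T ≤ 1 := by
  unfold bT
  rw [div_le_one (by positivity)]
  linarith

theorem mem_reg_of_near {T t : ℝ} (hT : 1 ≤ T) (h0 : 0 ≤ t) (h1 : t ≤ T) {z : ℂ}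
    (hz : ‖z - t‖ = bT T) : z ∈ reg T := by
  constructor
  · have h2 : |(z - t).im| ≤ ‖z - t‖ := Complex.abs_im_le_norm _
    rw [hz] at h2
    simpa using h2
  · have h2 : ‖z‖ ≤ ‖z - t‖ + ‖(t : ℂ)‖ := by
      have := norm_add_le (z - t) (t : ℂ)
      simpa using this
    rw [hz, Complex.norm_real, Real.norm_of_nonneg h0] at h2
    linarith [bT_le hT]

theorem tn_eb_mul {τ : ℝ} (hτ : 0 ≤ τ) (t : ℂ) (f : BB) : tn τ t (eb * f) ≤ tn τ t f := by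
  refine (tn_mul_le hτ t _ _).trans ?_
  have : tn τ t eb = 1 := by
    unfold eb
    rw [tn_single]
    simp [wt]
  rw [this, one_mul]

section small
variable {T κ h μ : ℝ} {N K : ℕ} {s : St} (S : Small T κ h μ K) (F : Fix T h μ N K κ s)
include S F

theorem Xψ_class : Bd T (0 : ℕ) 4 3 (A1 T) (Xψ h μ s.a s.θ) := by
  have hT := S.hT
  have hρ := ρT_pos hT
  have hc2 := c2_pos hT
  have hc1 := c1_pos
  have e1 := (Bd.G1 hT F.ha).smul (h : ℂ)
  have e2 := Bd.G2 hT F.ha F.hθ (S.kA2.trans (by norm_num))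
  have e4 := (e2.mono hT (α' := 0) (β' := 4) (p' := 3) le_rfl le_rfl (by norm_num) le_rfl).sub
    (e1.mono hT (α' := 0) (β' := 4) (p' := 3) (by norm_num) (by norm_num) le_rfl le_rfl)
  have e5 := e4.smul ((μ ^ 2 : ℝ) : ℂ)
  unfold Xψ
  refine e5.mono hT (by norm_num) le_rfl le_rfl ?_
  rw [norm_μ2, S.norm_h]
  have hμ2 : μ ^ 2 ≤ 1 := by
    have := S.k1; have := S.hμ; have := S.μ0
    nlinarith
  have hh1 : h ≤ 1 := by linarith [S.k1, S.hh]
  unfold A1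
  have h3 : 0 ≤ 2 ^ 3 / ρT T * (2 ^ 3 / ρT T * c2 T) := by positivity
  have h4 : 0 ≤ 2 ^ 4 / ρT T * (2 ^ 4 / ρT T * c1) := by positivity
  have h5 := mul_le_mul_of_nonneg_right hh1 h3
  have h6 : 0 ≤ h * (2 ^ 3 / ρT T * (2 ^ 3 / ρT T * c2 T)) := mul_nonneg S.h0.le h3
  have h7 := mul_le_mul_of_nonneg_right hμ2 (add_nonneg h4 h6)
  linarith

theorem Xw_class : Bd T (0 : ℕ) 0 2 (2 + c3 T + c4 T + c5 T) (Xw h μ s.a s.w s.ψ) := by
  have hT := S.hT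
  obtain ⟨p1, p2, p3, p4, p5, p6, p7, p8⟩ := S.pos
  have e1 := ((Bd.H1 hT F.ha).smul (h : ℂ))
  have e2 := (Bd.H2 hT F.ha F.hψ).smul (h : ℂ)
  have e3 := ((Bd.H3 hT F.ha F.hw).smul (μ : ℂ))
  unfold Xw
  have e5 := (((Bd_w0 hT 2).sub (e1.mono hT (α' := 0) (β' := 0) (p' := 2) le_rfl (by norm_num)
    (by norm_num) le_rfl)).sub (e2.mono hT (α' := 0) (β' := 0) (p' := 2) le_rfl (by norm_num)
    (by norm_num) le_rfl)).sub (e3.mono hT (α' := 0) (β' := 0) (p' := 2) le_rfl (by norm_num)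
    (by norm_num) le_rfl)
  refine e5.mono hT (by norm_num) le_rfl le_rfl ?_
  rw [S.norm_h, S.norm_μ]
  have hκ := S.k1
  have hκ0 := S.hκ0
  have hh := S.hh
  have hμ := S.hμ
  have h0 := S.h0
  have h1 : h * c3 T ≤ 1 * c3 T := mul_le_mul_of_nonneg_right (by linarith) p3.le
  have h2 : μ * c5 T ≤ 1 * c5 T := mul_le_mul_of_nonneg_right (by linarith) p5.le
  have h3 : h * (κ * c4 T) ≤ 1 * c4 T := by
    rw [← mul_assoc]
    exact mul_le_mul_of_nonneg_right (by nlinarith) p4.le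
  linarith

theorem YY_class : Bd T (0 : ℕ) 0 1 (4 + c6 T + c7 T + c8 T) (YY h s.a s.w s.θ) := by
  have hT := S.hT
  obtain ⟨p1, p2, p3, p4, p5, p6, p7, p8⟩ := S.pos
  have hκ := S.k1
  have hκ0 := S.hκ0
  have hh := S.hh
  have h0 := S.h0
  have e1 := Bd.Y1 hT F.ha F.hθ (S.kA2.trans (by norm_num))
  have e2 := (Bd.Y2 hT F.ha F.hθ (S.kA2.trans (by norm_num))).smul (h : ℂ)
  have e3 := (Bd.Y3 hT F.ha).smul ((h : ℂ) * (h : ℂ))
  unfold YY
  have e5 := (((F.hw.mono hT (α' := 0) (β' := 0) (p' := 1) le_rfl (by norm_num)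
    (by norm_num) le_rfl).sub (e1.mono hT (α' := 0) (β' := 0) (p' := 1) le_rfl (by norm_num)
    (by norm_num) le_rfl)).add (e2.mono hT (α' := 0) (β' := 0) (p' := 1) le_rfl (by norm_num)
    (by norm_num) le_rfl)).sub (e3.mono hT (α' := 0) (β' := 0) (p' := 1) (by norm_num)
    (by norm_num) (by norm_num) le_rfl)
  refine e5.mono hT (by norm_num) le_rfl le_rfl ?_
  rw [norm_mul, S.norm_h]
  have h1 : κ * c6 T ≤ 1 * c6 T := mul_le_mul_of_nonneg_right (by linarith) p6.le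
  have h2 : h * c7 T ≤ 1 * c7 T := mul_le_mul_of_nonneg_right (by linarith) p7.le
  have h3 : h * h * c8 T ≤ 1 * c8 T := mul_le_mul_of_nonneg_right (by nlinarith) p8.le
  linarith

/-- constant for the tails -/
noncomputable def cTail (T : ℝ) : ℝ :=
  4 * A1 T + 4 * (2 + c3 T + c4 T + c5 T) + 4 * (16 * 2 * (4 + c6 T + c7 T + c8 T))

omit S F in
theorem cTail_pos (hT : 1 ≤ T) : 0 < cTail T := by
  have := A1_pos hT; have := c3_pos hT; have := c4_pos hT; have := c5_pos hT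
  have := c6_pos hT; have := c7_pos hT; have := c8_pos hT
  unfold cTail
  positivity

theorem tn_Tψ {τ : ℝ} (h0 : 0 ≤ τ) (h1 : τ ≤ τT T / 2) {t : ℂ} (ht : t ∈ reg T) :
    tn τ t (Tψ h μ s) ≤ cTail T * (1 / 4) ^ K := by
  have hT := S.hT
  obtain ⟨p1, p2, p3, p4, p5, p6, p7, p8⟩ := S.pos
  have e := (Xψ_class S F).tail hT (by norm_num) h0 h1 ht K
  have e2 : Tψ h μ s = Xψ h μ s.a s.θ - tr K (Xψ h μ s.a s.θ) := by
    unfold Tψ; rw [← F.eψ]
  rw [e2]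
  refine e.trans ?_
  apply mul_le_mul_of_nonneg_right _ (by positivity)
  unfold cTail
  simp only [pow_zero, mul_one]
  have : 0 < 4 * (2 + c3 T + c4 T + c5 T) := by positivity
  have : 0 < 4 * (16 * 2 * (4 + c6 T + c7 T + c8 T)) := by positivity
  linarith

theorem tn_Tw {τ : ℝ} (h0 : 0 ≤ τ) (h1 : τ ≤ τT T / 2) {t : ℂ} (ht : t ∈ reg T) :
    tn τ t (Tw h μ s) ≤ cTail T * (1 / 4) ^ K := by
  have hT := S.hT
  obtain ⟨p1, p2, p3, p4, p5, p6, p7, p8⟩ := S.pos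
  have e := (Xw_class S F).tail hT (by norm_num) h0 h1 ht K
  have e2 : Tw h μ s = Xw h μ s.a s.w s.ψ - tr K (Xw h μ s.a s.w s.ψ) := by
    unfold Tw; rw [← F.ew]
  rw [e2]
  refine e.trans ?_
  apply mul_le_mul_of_nonneg_right _ (by positivity)
  unfold cTail
  simp only [pow_zero, mul_one]
  have : 0 < 4 * (16 * 2 * (4 + c6 T + c7 T + c8 T)) := by positivity
  linarith

theorem tn_Ta {τ : ℝ} (h0 : 0 ≤ τ) (h1 : τ ≤ τT T / 2) {t : ℂ} (ht : t ∈ reg T) :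
    tn τ t (Ta T h N s) ≤ cTail T * (1 / 4) ^ K := by
  have hT := S.hT
  obtain ⟨p1, p2, p3, p4, p5, p6, p7, p8⟩ := S.pos
  have e0 : Bd T (0 : ℕ) 0 1 (16 * 2 * (4 + c6 T + c7 T + c8 T))
      (sg T N * YY h s.a s.w s.θ) := by
    have := (Bd_sg hT N 3).mul hT (YY_class S F) (by norm_num) (by norm_num) (by norm_num)
      (by norm_num)
    exact this.mono hT (by norm_num) (by norm_num) le_rfl le_rfl
  have e := e0.tail hT (by norm_num) h0 h1 ht K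
  have e2 : Ta T h N s = sg T N * YY h s.a s.w s.θ - tr K (sg T N * YY h s.a s.w s.θ) := by
    unfold Ta; rw [← F.ea]
  rw [e2]
  refine e.trans ?_
  apply mul_le_mul_of_nonneg_right _ (by positivity)
  unfold cTail
  simp only [pow_zero, mul_one]
  have : 0 < 4 * (2 + c3 T + c4 T + c5 T) := by positivity
  linarith

omit S F in
theorem tn_SS (hT : 1 ≤ T) {τ : ℝ} (h0 : 0 ≤ τ) (h1 : τ < τT T) {t : ℂ} (ht : t ∈ reg T) :
    tn τ t SS ≤ 1 + 4 * (T + 1) ^ 2 := by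
  unfold SS
  refine (tn_add_le _ _ _ _).trans ?_
  have e1 : tn τ t (1 : BB) = 1 := by
    rw [AddMonoidAlgebra.one_def, tn_single]
    simp [wt]
  have e2 : tn τ t Th0 ≤ (T + 1) * 2 := by
    refine (tn_Th0 τ t).trans ?_
    exact mul_le_mul ht.2 (exp_tau_le hT h1) (Real.exp_pos _).le (by linarith)
  have e3 := (tn_mul_le h0 t Th0 Th0).trans
    (mul_le_mul e2 e2 (tn_nonneg _ _ _) (by positivity))
  rw [e1]
  nlinarith

/-- constant for the elliptic residual -/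
noncomputable def cE (T : ℝ) : ℝ :=
  2 * (4 + c6 T + c7 T + c8 T) + (1 + 4 * (T + 1) ^ 2) * cTail T

omit S F in
theorem cE_pos (hT : 1 ≤ T) : 0 < cE T := by
  have := c6_pos hT; have := c7_pos hT; have := c8_pos hT; have := cTail_pos hT
  unfold cE
  positivity

theorem tn_rE (hN : lamT T ^ N ≤ (1 / 4) ^ K) {τ : ℝ} (h0 : 0 ≤ τ) (h1 : τ ≤ τT T / 2) {t : ℂ}
    (ht : t ∈ reg T) : tn τ t (rE T h N s) ≤ cE T * (1 / 4) ^ K := by
  have hT := S.hT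
  have hτ := τT_pos hT
  obtain ⟨p1, p2, p3, p4, p5, p6, p7, p8⟩ := S.pos
  have hl := lamT_nonneg hT
  unfold rE
  refine (tn_add_le _ _ _ _).trans ?_
  have e1 := (tn_mul_le h0 t (1 - SS * sg T N) (YY h s.a s.w s.θ)).trans
    (mul_le_mul (tn_one_sub_SS_sg hT h0 (by linarith) ht N)
      ((YY_class S F).total hT (by norm_num) h0 h1 ht) (tn_nonneg _ _ _) (by positivity))
  have e2 := (tn_mul_le h0 t SS (Ta T h N s)).trans
    (mul_le_mul (tn_SS hT h0 (by linarith) ht) (tn_Ta S F h0 h1 ht) (tn_nonneg _ _ _)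
      (by positivity))
  simp only [pow_zero, mul_one] at e1
  have e3 : lamT T ^ N * (2 * (4 + c6 T + c7 T + c8 T)) ≤
      (1 / 4) ^ K * (2 * (4 + c6 T + c7 T + c8 T)) :=
    mul_le_mul_of_nonneg_right hN (by positivity)
  unfold cE
  nlinarith

/-- residual of the first momentum equation -/
theorem tn_r1 {t : ℝ} (h0 : 0 ≤ t) (h1 : t ≤ T) :
    tn 0 (t : ℂ) (Dy (Dt (Tψ h μ s))) ≤ 2 / (τT T * bT T) * cTail T * (1 / 4) ^ K := by
  have hT := S.hT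
  have hτ := τT_pos hT
  have hb := bT_pos hT
  have hC := cTail_pos hT
  rw [← Dt_Dy]
  have e1 : tn 0 (t : ℂ) (Dt (Dy (Tψ h μ s))) ≤
      ((τT T / 2)⁻¹ * (cTail T * (1 / 4) ^ K)) / bT T := by
    apply tn_Dt_le hb
    intro z hz
    have hz' := mem_reg_of_near hT h0 h1 hz
    have e2 := tn_Dy_le (τ := 0) (δ := τT T / 2) (by positivity) z (Tψ h μ s)
    rw [zero_add] at e2
    refine e2.trans ?_
    apply mul_le_mul_of_nonneg_left _ (by positivity)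
    exact tn_Tψ S F (by positivity) le_rfl hz'
  refine e1.trans (le_of_eq ?_)
  field_simp

/-- constant for the residual -/
noncomputable def cR (T : ℝ) : ℝ :=
  2 / (τT T * bT T) * cTail T + cTail T / bT T + cE T / bT T +
    2 * (320 * (2 / τT T) * cE T) * (2 / τT T + 1)

omit S F in
theorem cR_pos (hT : 1 ≤ T) : 0 < cR T := by
  have := cE_pos hT; have := cTail_pos hT; have := τT_pos hT; have := bT_pos hT
  unfold cR
  positivity

theorem tn_a {τ : ℝ} (h0 : 0 ≤ τ) (h1 : τ ≤ τT T / 2) {t : ℂ} (ht : t ∈ reg T) :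
    tn τ t s.a ≤ 320 := by
  have hT := S.hT
  have e : Bd T (0 : ℕ) 0 3 160 s.a := F.ha
  have := e.total hT (by norm_num) h0 h1 ht
  simp only [pow_zero, mul_one] at this
  linarith

/-- residual of the second momentum equation -/
theorem tn_RR (hN : lamT T ^ N ≤ (1 / 4) ^ K) {t : ℝ} (h0 : 0 ≤ t) (h1 : t ≤ T) :
    tn 0 (t : ℂ) (Iz (RR ((h : ℂ) • eb) ((μ : ℂ) • eb) (Th0 + s.θ) (cosy + s.ψ) (Iz (Iz s.a)))) ≤
      cR T * (1 / 4) ^ K := by
  have hT := S.hT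
  have hτ := τT_pos hT
  have hτ1 := τT_le hT
  have hb := bT_pos hT
  have hC := cTail_pos hT
  have hCE := cE_pos hT
  have ht := mem_reg_of_real hT h0 h1
  refine (tn_Iz_le _ _ _).trans ?_
  rw [F.RR_eq]
  have e1 : tn 0 (t : ℂ) (Dt (Tw h μ s)) ≤ (cTail T * (1 / 4) ^ K) / bT T := by
    apply tn_Dt_le hb
    intro z hz
    exact tn_Tw S F le_rfl (by positivity) (mem_reg_of_near hT h0 h1 hz)
  have e2 : tn 0 (t : ℂ) (Dt (rE T h N s)) ≤ (cE T * (1 / 4) ^ K) / bT T := by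
    apply tn_Dt_le hb
    intro z hz
    exact tn_rE S F hN le_rfl (by positivity) (mem_reg_of_near hT h0 h1 hz)
  have dy : ∀ f : BB, tn 0 (t : ℂ) (Dy f) ≤ 2 / τT T * tn (τT T / 2) t f := by
    intro f
    have e2 := tn_Dy_le (τ := 0) (δ := τT T / 2) (by positivity) (t : ℂ) f
    rw [zero_add] at e2
    refine e2.trans (le_of_eq ?_)
    rw [inv_div]
  have dz : ∀ f : BB, tn 0 (t : ℂ) (Dz f) ≤ 2 / τT T * tn (τT T / 2) t f := by
    intro f
    have e2 := tn_Dz_le (τ := 0) (δ := τT T / 2) (by positivity) (t : ℂ) f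
    rw [zero_add] at e2
    refine e2.trans (le_of_eq ?_)
    rw [inv_div]
  have e3 : tn 0 (t : ℂ) (Jc (Iz (Iz s.a)) (rE T h N s)) ≤
      320 * (2 / τT T * (cE T * (1 / 4) ^ K)) +
      (2 / τT T * 320) * (2 / τT T * (cE T * (1 / 4) ^ K)) := by
    unfold Jc
    refine (tn_sub_le _ _ _ _).trans ?_
    have ha0 := tn_a S F (τ := 0) le_rfl (by positivity) ht
    have ha1 := tn_a S F (τ := τT T / 2) (by positivity) le_rfl ht
    have hr := tn_rE S F hN (τ := τT T / 2) (by positivity) le_rfl ht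
    have f1 : tn 0 (t : ℂ) (Dz (Iz (Iz s.a))) ≤ 320 := by
      rw [Dzg_eq]
      exact (tn_Iz_le _ _ _).trans ha0
    have f2 : tn 0 (t : ℂ) (Dy (rE T h N s)) ≤ 2 / τT T * (cE T * (1 / 4) ^ K) :=
      (dy _).trans (mul_le_mul_of_nonneg_left hr (by positivity))
    have f3 : tn 0 (t : ℂ) (Dz (rE T h N s)) ≤ 2 / τT T * (cE T * (1 / 4) ^ K) :=
      (dz _).trans (mul_le_mul_of_nonneg_left hr (by positivity))
    have f4 : tn 0 (t : ℂ) (Dy (Iz (Iz s.a))) ≤ 2 / τT T * 320 := by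
      refine (dy _).trans (mul_le_mul_of_nonneg_left ?_ (by positivity))
      exact ((tn_Iz_le _ _ _).trans (tn_Iz_le _ _ _)).trans ha1
    apply add_le_add
    · exact (tn_mul_le le_rfl _ _ _).trans
        (mul_le_mul f1 f2 (tn_nonneg _ _ _) (by norm_num))
    · exact (tn_mul_le le_rfl _ _ _).trans
        (mul_le_mul f4 f3 (tn_nonneg _ _ _) (by positivity))
  have e4 : tn 0 (t : ℂ) (((μ : ℂ) • eb) * (Jc (Iz (Iz s.a)) (rE T h N s) -
      Mn (Jc (Iz (Iz s.a)) (rE T h N s)))) ≤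
      320 * (2 / τT T * (cE T * (1 / 4) ^ K)) +
      (2 / τT T * 320) * (2 / τT T * (cE T * (1 / 4) ^ K)) := by
    rw [smul_mul_assoc, tn_smul, S.norm_μ]
    have hμ1 : μ ≤ 1 := by linarith [S.k1, S.hμ]
    calc μ * tn 0 (t : ℂ) (eb * _) ≤ 1 * tn 0 (t : ℂ) (eb * (Jc (Iz (Iz s.a)) (rE T h N s) -
          Mn (Jc (Iz (Iz s.a)) (rE T h N s)))) :=
          mul_le_mul_of_nonneg_right hμ1 (tn_nonneg _ _ _)
      _ ≤ tn 0 (t : ℂ) (Jc (Iz (Iz s.a)) (rE T h N s)) := by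
          rw [one_mul]
          exact (tn_eb_mul le_rfl _ _).trans (tn_sub_Mn_le _ _ _)
      _ ≤ _ := e3
  refine (tn_sub_le _ _ _ _).trans ?_
  refine (add_le_add (tn_sub_le _ _ _ _) le_rfl).trans ?_
  rw [tn_neg]
  have hq : (0 : ℝ) < (1 / 4) ^ K := by positivity
  have e5 : 0 ≤ 2 / (τT T * bT T) * cTail T * (1 / 4) ^ K := by positivity
  have hX : 0 ≤ 320 * (2 / τT T * (cE T * (1 / 4) ^ K)) +
      (2 / τT T * 320) * (2 / τT T * (cE T * (1 / 4) ^ K)) := by positivity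
  calc tn 0 (t : ℂ) (Dt (Tw h μ s)) + tn 0 (t : ℂ) (Dt (rE T h N s)) + _
      ≤ (cTail T * (1 / 4) ^ K) / bT T + (cE T * (1 / 4) ^ K) / bT T +
        (320 * (2 / τT T * (cE T * (1 / 4) ^ K)) +
        (2 / τT T * 320) * (2 / τT T * (cE T * (1 / 4) ^ K))) :=
        add_le_add (add_le_add e1 e2) e4
    _ ≤ 2 / (τT T * bT T) * cTail T * (1 / 4) ^ K + ((cTail T * (1 / 4) ^ K) / bT T +
        (cE T * (1 / 4) ^ K) / bT T + 2 * (320 * (2 / τT T * (cE T * (1 / 4) ^ K)) +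
        (2 / τT T * 320) * (2 / τT T * (cE T * (1 / 4) ^ K)))) := by linarith
    _ = cR T * (1 / 4) ^ K := by
        unfold cR
        ring

/-! closeness to the leading order -/

/-- constant for the closeness -/
noncomputable def cD (T : ℝ) : ℝ :=
  2 * (32 * (c6 T + c7 T + c8 T)) + 2 * (32 * (c3 T + c4 T + c5 T)) + 2 * (c3 T + c4 T + c5 T) +
    2 * (T + 2) * A2 T + 2 * A1 T + 2 * (16 * A1 T) + 2 * (16 * (16 * A1 T)) + 320 * (2 / τT T)

omit S F in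
theorem tr_w0 : tr K w0 = w0 := by
  unfold w0
  rw [map_add, tr, mop_single, mop_single]
  simp

theorem sub_w0_class : Bd T (0 : ℕ) 0 3 (κ * (c3 T + c4 T + c5 T)) (s.w - w0) := by
  have := S.w_sub_bd F.ha F.hw F.hψ
  rw [← F.ew, tr_w0] at this
  exact this

theorem tn_w_sub {τ : ℝ} (h0 : 0 ≤ τ) (h1 : τ ≤ τT T / 2) {t : ℂ} (ht : t ∈ reg T) :
    tn τ t (s.w - w0) ≤ 2 * (κ * (c3 T + c4 T + c5 T)) := by
  have := (sub_w0_class S F).total S.hT (by norm_num) h0 h1 ht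
  simpa using this

theorem tn_a_sub {τ : ℝ} (h0 : 0 ≤ τ) (h1 : τ ≤ τT T / 2) {t : ℂ} (ht : t ∈ reg T)
    (htr : tr K (sg T N * w0) = sg T N * w0) :
    tn τ t (s.a - sg T N * w0) ≤ 2 * (32 * (κ * (c6 T + c7 T + c8 T))) +
      2 * (32 * (κ * (c3 T + c4 T + c5 T))) := by
  have hT := S.hT
  have e1 : Bd T (0 : ℕ) 0 3 (32 * (κ * (c6 T + c7 T + c8 T)))
      (s.a - tr K (sg T N * s.w)) := by
    have := S.a_sub_bd (w := s.w) N F.ha F.hθ
    rw [← F.ea] at this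
    exact this
  have e2 : Bd T (0 : ℕ) 0 3 (32 * (κ * (c3 T + c4 T + c5 T))) (tr K (sg T N * (s.w - w0))) := by
    have := ((Bd_sg hT N 3).mul hT (sub_w0_class S F) (by norm_num) (by norm_num) (by norm_num)
      (by norm_num)).trunc K
    exact this.mono hT (by norm_num) (by norm_num) le_rfl (le_of_eq (by ring))
  have e3 : s.a - sg T N * w0 = (s.a - tr K (sg T N * s.w)) + tr K (sg T N * (s.w - w0)) := by
    rw [mul_sub, map_sub, htr]
    ring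
  rw [e3]
  refine (tn_add_le _ _ _ _).trans ?_
  have f1 := e1.total hT (by norm_num) h0 h1 ht
  have f2 := e2.total hT (by norm_num) h0 h1 ht
  simp only [pow_zero, mul_one] at f1 f2
  linarith

theorem tn_θ {τ : ℝ} (h0 : 0 ≤ τ) (h1 : τ ≤ τT T / 2) {t : ℂ} (ht : t ∈ reg T) :
    tn τ t s.θ ≤ 2 * (T + 2) * (κ * A2 T) := by
  have hT := S.hT
  have e : Bd T (1 : ℕ) 2 3 (κ * A2 T) s.θ := F.hθ
  have := e.total hT (by norm_num) h0 h1 ht
  simpa using this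

theorem tn_ψ {τ : ℝ} (h0 : 0 ≤ τ) (h1 : τ ≤ τT T / 2) {t : ℂ} (ht : t ∈ reg T) :
    tn τ t s.ψ ≤ 2 * (κ * A1 T) ∧ tn τ t (Dy s.ψ) ≤ 2 * (16 * (κ * A1 T)) ∧
      tn τ t (Dy (Dy s.ψ)) ≤ 2 * (16 * (16 * (κ * A1 T))) := by
  have hT := S.hT
  have e : Bd T (0 : ℕ) 4 4 (κ * A1 T) s.ψ := F.hψ
  have e1 : Bd T (0 : ℕ) (4 - 1) 3 (16 * (κ * A1 T)) (Dy s.ψ) := e.dy hT (by norm_num)
  have e2 : Bd T (0 : ℕ) (4 - 1 - 1) 2 (16 * (16 * (κ * A1 T))) (Dy (Dy s.ψ)) :=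
    e1.dy hT (by norm_num)
  have f0 := e.total hT (by norm_num) h0 h1 ht
  have f1 := e1.total hT (by norm_num) h0 h1 ht
  have f2 := e2.total hT (by norm_num) h0 h1 ht
  simp only [pow_zero, mul_one] at f0 f1 f2
  exact ⟨f0, f1, f2⟩

theorem tn_DyIz {t : ℂ} (ht : t ∈ reg T) :
    tn 0 t (Dy (Iz s.a)) ≤ 320 * (2 / τT T) := by
  have hT := S.hT
  have hτ := τT_pos hT
  have e2 := tn_Dy_le (τ := 0) (δ := τT T / 2) (by positivity) t (Iz s.a)
  rw [zero_add, inv_div] at e2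
  refine e2.trans ?_
  have := (tn_Iz_le (τT T / 2) t s.a).trans (tn_a S F (by positivity) le_rfl ht)
  calc 2 / τT T * tn (τT T / 2) t (Iz s.a) ≤ 2 / τT T * 320 :=
        mul_le_mul_of_nonneg_left this (by positivity)
    _ = _ := by ring

end small

end Pool.Agent.EulerInflation

end
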