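import Pool.Agent.Work.MP_8b4a1b_an.Eval
import Pool.Agent.Work.MP_8b4a1b_an.Defs

/-! Bundle of small proof modules (one section per former module). -/

section

/-!
Functions on the plane given by elements of the algebra, and their derivatives.
-/

open Polynomial MeasureTheory Set
open scoped ContDiff Real

namespace Pool.Agent.EulerInflation

/-- displacement -/
noncomputable def Ph (Φ : BB) (t y : ℝ) : ℝ := (ev t 0 y Φ).re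

/-- evaluation at a point of the plane -/
noncomputable def pE (Φ : BB) (m : ℝ) (t : ℝ) (x : EuclideanSpace ℝ (Fin 2)) : BB →+* ℂ :=
  ev t (m * (x 0 - Ph Φ t (x 1))) (x 1)

/-- function on the plane -/
noncomputable def ph (Φ : BB) (m : ℝ) (f : BB) (t : ℝ) (x : EuclideanSpace ℝ (Fin 2)) : ℝ :=
  (pE Φ m t x f).re

theorem abs_ph_le (Φ : BB) (m : ℝ) (f : BB) (t : ℝ) (x : EuclideanSpace ℝ (Fin 2)) :
    |ph Φ m f t x| ≤ tn 0 (t : ℂ) f :=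
  (Complex.abs_re_le_norm _).trans (norm_ev_le _ _ _ _)

theorem Ph_contDiff (Φ : BB) : ContDiff ℝ ∞ (fun p : ℝ × ℝ => Ph Φ p.1 p.2) := by
  unfold Ph
  have h := (ev_contDiff Φ).comp (g := fun p : ℝ × ℝ × ℝ => ev p.1 p.2.1 p.2.2 Φ)
    (f := fun p : ℝ × ℝ => (p.1, (0 : ℝ), p.2))
    (contDiff_fst.prodMk (contDiff_const.prodMk contDiff_snd))
  exact Complex.reCLM.contDiff.comp h

theorem coord_contDiff (i : Fin 2) :
    ContDiff ℝ ∞ (fun x : EuclideanSpace ℝ (Fin 2) => x i) :=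
  (EuclideanSpace.proj (𝕜 := ℝ) i).contDiff

theorem ph_contDiff (Φ : BB) (m : ℝ) (f : BB) :
    ContDiff ℝ ∞ (fun z : ℝ × EuclideanSpace ℝ (Fin 2) => ph Φ m f z.1 z.2) := by
  unfold ph pE
  have c0 : ContDiff ℝ ∞ (fun z : ℝ × EuclideanSpace ℝ (Fin 2) => z.2 0) :=
    (coord_contDiff 0).comp contDiff_snd
  have c1 : ContDiff ℝ ∞ (fun z : ℝ × EuclideanSpace ℝ (Fin 2) => z.2 1) :=
    (coord_contDiff 1).comp contDiff_snd
  have h1 : ContDiff ℝ ∞ (fun z : ℝ × EuclideanSpace ℝ (Fin 2) => Ph Φ z.1 (z.2 1)) :=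
    ContDiff.comp (g := fun p : ℝ × ℝ => Ph Φ p.1 p.2)
      (f := fun z : ℝ × EuclideanSpace ℝ (Fin 2) => (z.1, z.2 1))
      (Ph_contDiff Φ) (contDiff_fst.prodMk c1)
  have h2 : ContDiff ℝ ∞ (fun z : ℝ × EuclideanSpace ℝ (Fin 2) =>
      (z.1, m * (z.2 0 - Ph Φ z.1 (z.2 1)), z.2 1)) :=
    contDiff_fst.prodMk ((contDiff_const.mul (c0.sub h1)).prodMk c1)
  have h3 : ContDiff ℝ ∞ (fun z : ℝ × EuclideanSpace ℝ (Fin 2) =>
      ev z.1 (m * (z.2 0 - Ph Φ z.1 (z.2 1))) (z.2 1) f) :=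
    ContDiff.comp (g := fun p : ℝ × ℝ × ℝ => ev p.1 p.2.1 p.2.2 f)
      (f := fun z : ℝ × EuclideanSpace ℝ (Fin 2) =>
      (z.1, m * (z.2 0 - Ph Φ z.1 (z.2 1)), z.2 1)) (ev_contDiff f) h2
  exact Complex.reCLM.contDiff.comp h3

theorem ph_contDiff_space (Φ : BB) (m : ℝ) (f : BB) (t : ℝ) : ContDiff ℝ ∞ (ph Φ m f t) := by
  have h2 : ContDiff ℝ ∞ (fun x : EuclideanSpace ℝ (Fin 2) => ((t, x) : ℝ × _)) :=
    contDiff_const.prodMk contDiff_id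
  exact ContDiff.comp (g := fun z : ℝ × EuclideanSpace ℝ (Fin 2) => ph Φ m f z.1 z.2)
    (f := fun x : EuclideanSpace ℝ (Fin 2) => ((t, x) : ℝ × _)) (ph_contDiff Φ m f) h2

theorem pd_eq_of_hasDerivAt {f : EuclideanSpace ℝ (Fin 2) → ℝ} {x : EuclideanSpace ℝ (Fin 2)}
    {i : Fin 2} (hf : DifferentiableAt ℝ f x) {d : ℝ}
    (h : HasDerivAt (fun s : ℝ => f (x + s • EuclideanSpace.single i 1)) d 0) : pd i f x = d := by
  have h1 : HasDerivAt (fun s : ℝ => f (x + s • EuclideanSpace.single i 1)) (pd i f x) 0 :=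
    hf.hasFDerivAt.hasLineDerivAt _
  exact h1.unique h

theorem Ph_hasDerivAt_y (Φ : BB) (t y : ℝ) :
    HasDerivAt (fun s => Ph Φ t s) (Ph (Dy Φ) t y) y := by
  have := ev_hasDerivAt (hasDerivAt_const y t) (hasDerivAt_const y (0 : ℝ)) (hasDerivAt_id y) Φ
  have h2 := (Complex.reCLM.hasFDerivAt.comp_hasDerivAt y this)
  refine h2.congr_deriv ?_
  simp [Ph]

theorem Ph_hasDerivAt_t (Φ : BB) (t y : ℝ) :
    HasDerivAt (fun s => Ph Φ s y) (Ph (Dt Φ) t y) t := by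
  have := ev_hasDerivAt (hasDerivAt_id t) (hasDerivAt_const t (0 : ℝ)) (hasDerivAt_const t y) Φ
  have h2 := (Complex.reCLM.hasFDerivAt.comp_hasDerivAt t this)
  refine h2.congr_deriv ?_
  simp [Ph]

theorem pE_smul (Φ : BB) (m t : ℝ) (x : EuclideanSpace ℝ (Fin 2)) (c : ℂ) (f : BB) :
    pE Φ m t x (c • f) = c * pE Φ m t x f := ev_smul _ _ _ _ _

theorem pE_eb (Φ : BB) (m t : ℝ) (x : EuclideanSpace ℝ (Fin 2)) :
    pE Φ m t x eb = 1 := ev_eb _ _ _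

theorem pE_ZI {f : BB} (hz : ZI f) (hr : Rl f) (Φ : BB) (m t : ℝ)
    (x : EuclideanSpace ℝ (Fin 2)) : pE Φ m t x f = ((Ph f t (x 1) : ℝ) : ℂ) := by
  unfold pE Ph
  rw [ev_re hr, ev_ZI hz]

theorem pE_re {f : BB} (hr : Rl f) (Φ : BB) (m t : ℝ) (x : EuclideanSpace ℝ (Fin 2)) :
    ((ph Φ m f t x : ℝ) : ℂ) = pE Φ m t x f := ev_re hr _ _ _

theorem pd0_ph (Φ : BB) (m : ℝ) (f : BB) (t : ℝ) :
    pd 0 (ph Φ m f t) = ph Φ m ((m : ℂ) • Dz f) t := by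
  funext x
  apply pd_eq_of_hasDerivAt ((ph_contDiff_space Φ m f t).differentiable (by simp) x)
  have e0 : ∀ s : ℝ, (x + s • EuclideanSpace.single (0 : Fin 2) (1 : ℝ)) 0 = x 0 + s := by
    intro s; simp
  have e1 : ∀ s : ℝ, (x + s • EuclideanSpace.single (0 : Fin 2) (1 : ℝ)) 1 = x 1 := by
    intro s; simp
  unfold ph pE
  simp only [e0, e1]
  have hZ : HasDerivAt (fun s : ℝ => m * (x 0 + s - Ph Φ t (x 1))) m 0 := by
    have := (((hasDerivAt_id (0 : ℝ)).const_add (x 0)).sub_const (Ph Φ t (x 1))).const_mul m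
    simpa using this
  have := ev_hasDerivAt (hasDerivAt_const (0 : ℝ) t) hZ (hasDerivAt_const (0 : ℝ) (x 1)) f
  have h2 := (Complex.reCLM.hasFDerivAt.comp_hasDerivAt 0 this)
  refine h2.congr_deriv ?_
  rw [ev_smul]
  simp

theorem pd1_ph {Φ Θ : BB} {m h : ℝ} (hmh : m * h = 1) (hΘ : Dy Φ = Θ) (hz : ZI Θ) (hr : Rl Θ)
    (f : BB) (t : ℝ) :
    pd 1 (ph Φ m f t) = ph Φ m ((m : ℂ) • Dh ((h : ℂ) • eb) Θ f) t := by
  funext x
  apply pd_eq_of_hasDerivAt ((ph_contDiff_space Φ m f t).differentiable (by simp) x)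
  have e0 : ∀ s : ℝ, (x + s • EuclideanSpace.single (1 : Fin 2) (1 : ℝ)) 0 = x 0 := by
    intro s; simp
  have e1 : ∀ s : ℝ, (x + s • EuclideanSpace.single (1 : Fin 2) (1 : ℝ)) 1 = x 1 + s := by
    intro s; simp
  unfold ph pE
  simp only [e0, e1]
  have hy : HasDerivAt (fun s : ℝ => x 1 + s) 1 0 := (hasDerivAt_id (0 : ℝ)).const_add (x 1)
  have hP : HasDerivAt (fun s : ℝ => Ph Φ t (x 1 + s)) (Ph (Dy Φ) t (x 1)) 0 := by
    have h1 := Ph_hasDerivAt_y Φ t (x 1 + 0)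
    have h2 := HasDerivAt.comp (0 : ℝ) (h₂ := fun s => Ph Φ t s) (h := fun s : ℝ => x 1 + s) h1 hy
    rw [add_zero, mul_one] at h2
    exact h2
  have hZ : HasDerivAt (fun s : ℝ => m * (x 0 - Ph Φ t (x 1 + s))) (m * -(Ph (Dy Φ) t (x 1))) 0 :=
    (hP.const_sub (x 0)).const_mul m
  have := ev_hasDerivAt (hasDerivAt_const (0 : ℝ) t) hZ hy f
  have h2 := (Complex.reCLM.hasFDerivAt.comp_hasDerivAt 0 this)
  refine h2.congr_deriv ?_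
  have h3 : pE Φ m t x Θ = ((Ph Θ t (x 1) : ℝ) : ℂ) := pE_ZI hz hr Φ m t x
  unfold pE at h3
  rw [hΘ, ev_smul]
  unfold Dh
  simp only [add_zero, Complex.reCLM_apply]
  rw [map_sub, map_mul (ev t _ _), map_mul (ev t _ _), ev_smul, ev_eb, h3]
  congr 1
  have hmh' : (m : ℂ) * h = 1 := by exact_mod_cast hmh
  push_cast
  linear_combination (-(ev t (m * (x 0 - Ph Φ t (x 1))) (x 1) (Dy f))) * hmh'

theorem hasDerivAt_ph {Φ Ψ : BB} {m h : ℝ} (hmh : m * h = 1) (hΘ : Dt Φ = -Dy Ψ) (hz : ZI Ψ)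
    (hr : Rl Ψ) (f : BB) (t : ℝ) (x : EuclideanSpace ℝ (Fin 2)) :
    HasDerivAt (fun s => ph Φ m f s x)
      (ph Φ m ((m : ℂ) • (((h : ℂ) • eb) * Dt f + Dy Ψ * Dz f)) t x) t := by
  unfold ph pE
  have hP := Ph_hasDerivAt_t Φ t (x 1)
  have hZ : HasDerivAt (fun s : ℝ => m * (x 0 - Ph Φ s (x 1))) (m * -(Ph (Dt Φ) t (x 1))) t :=
    (hP.const_sub (x 0)).const_mul m
  have := ev_hasDerivAt (hasDerivAt_id t) hZ (hasDerivAt_const t (x 1)) f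
  have h2 := (Complex.reCLM.hasFDerivAt.comp_hasDerivAt t this)
  refine h2.congr_deriv ?_
  have h3 : pE Φ m t x (Dy Ψ) = ((Ph (Dy Ψ) t (x 1) : ℝ) : ℂ) := pE_ZI hz.dy hr.dy Φ m t x
  unfold pE at h3
  have h4 : Ph (-Dy Ψ) t (x 1) = -Ph (Dy Ψ) t (x 1) := by
    unfold Ph
    rw [map_neg, Complex.neg_re]
  rw [hΘ, h4]
  simp only [Complex.reCLM_apply]
  rw [ev_smul, map_add, map_mul (ev t _ _), map_mul (ev t _ _), ev_smul, ev_eb, h3]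
  congr 1
  have hmh' : (m : ℂ) * h = 1 := by exact_mod_cast hmh
  push_cast
  simp only [id]
  linear_combination (-(ev t (m * (x 0 - Ph Φ t (x 1))) (x 1) (Dt f))) * hmh'

theorem deriv_ph {Φ Ψ : BB} {m h : ℝ} (hmh : m * h = 1) (hΘ : Dt Φ = -Dy Ψ) (hz : ZI Ψ)
    (hr : Rl Ψ) (f : BB) (t : ℝ) (x : EuclideanSpace ℝ (Fin 2)) :
    deriv (fun s => ph Φ m f s x) t =
      ph Φ m ((m : ℂ) • (((h : ℂ) • eb) * Dt f + Dy Ψ * Dz f)) t x :=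
  (hasDerivAt_ph hmh hΘ hz hr f t x).deriv

theorem ph_congr {Φ : BB} {m t : ℝ} {x : EuclideanSpace ℝ (Fin 2)} {f g : BB}
    (h : pE Φ m t x f = pE Φ m t x g) : ph Φ m f t x = ph Φ m g t x := by
  unfold ph; rw [h]

theorem ph_add (Φ : BB) (m t : ℝ) (x : EuclideanSpace ℝ (Fin 2)) (f g : BB) :
    ph Φ m (f + g) t x = ph Φ m f t x + ph Φ m g t x := by
  unfold ph; rw [map_add, Complex.add_re]

theorem ph_sub (Φ : BB) (m t : ℝ) (x : EuclideanSpace ℝ (Fin 2)) (f g : BB) :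
    ph Φ m (f - g) t x = ph Φ m f t x - ph Φ m g t x := by
  unfold ph; rw [map_sub, Complex.sub_re]

theorem ph_neg (Φ : BB) (m t : ℝ) (x : EuclideanSpace ℝ (Fin 2)) (f : BB) :
    ph Φ m (-f) t x = -ph Φ m f t x := by
  unfold ph; rw [map_neg, Complex.neg_re]

theorem ph_smul (Φ : BB) (m t : ℝ) (x : EuclideanSpace ℝ (Fin 2)) (c : ℝ) (f : BB) :
    ph Φ m ((c : ℂ) • f) t x = c * ph Φ m f t x := by
  unfold ph; rw [pE_smul, Complex.re_ofReal_mul]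

/-- multiplication by a real element -/
theorem ph_mul {Φ : BB} {m t : ℝ} {x : EuclideanSpace ℝ (Fin 2)} {f : BB} (hf : Rl f) (g : BB) :
    ph Φ m (f * g) t x = ph Φ m f t x * ph Φ m g t x := by
  have h1 := pE_re hf Φ m t x
  unfold ph at *
  rw [map_mul, ← h1, Complex.re_ofReal_mul, Complex.ofReal_re]

theorem ph_period (Φ : BB) (m : ℕ) (f : BB) (t : ℝ) (x : EuclideanSpace ℝ (Fin 2)) (i : Fin 2) :
    ph Φ m f t (x + EuclideanSpace.single i (2 * π)) = ph Φ m f t x := by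
  have hP : ∀ y, Ph Φ t (y + 2 * π) = Ph Φ t y := by
    intro y
    unfold Ph
    have := ev_period t 0 y 0 1 Φ
    simp only [Int.cast_zero, zero_mul, add_zero, Int.cast_one, one_mul] at this
    rw [this]
  unfold ph pE
  congr 1
  fin_cases i
  · simp only [Fin.zero_eta, Fin.isValue, PiLp.add_apply, PiLp.single_apply, ↓reduceIte,
      one_ne_zero, add_zero]
    have := ev_period t (m * (x 0 - Ph Φ t (x 1))) (x 1) m 0 f
    simp only [Int.cast_zero, zero_mul, add_zero, Int.cast_natCast] at this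
    rw [← this]
    congr 2
    ring
  · simp only [Fin.mk_one, Fin.isValue, PiLp.add_apply, PiLp.single_apply, zero_ne_one,
      ↓reduceIte, add_zero]
    rw [hP]
    have := ev_period t (m * (x 0 - Ph Φ t (x 1))) (x 1) 0 1 f
    simp only [Int.cast_zero, zero_mul, add_zero, Int.cast_one, one_mul] at this
    exact this

end Pool.Agent.EulerInflation

end

section

/-!
The momentum residuals on the plane.
-/

open Polynomial MeasureTheory Set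
open scoped ContDiff Real

namespace Pool.Agent.EulerInflation

/-- displacement element -/
noncomputable def Φe (s : St) : BB := -It (Dy (cosy + s.ψ))

theorem Dt_Φe (s : St) : Dt (Φe s) = -Dy (cosy + s.ψ) := by
  unfold Φe
  rw [map_neg, Dt_It]

theorem It_Dy (f : BB) : It (Dy f) = Dy (It f) := mop_It _ _

theorem It_cosy : It cosy = Th0 := by
  have h : integ (C (1 / 2 : ℂ)) = C (1 / 2) * X := by
    have h1 := integ_monomial 0 (1 / 2 : ℂ)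
    rw [Polynomial.monomial_zero_left] at h1
    rw [h1, Polynomial.C_mul_X_eq_monomial]
    simp
  unfold cosy Th0
  rw [map_add, It, op_single, op_single, h]

theorem Dy_Φe {T h μ κ : ℝ} {N K : ℕ} {s : St} (F : Fix T h μ N K κ s) :
    Dy (Φe s) = Th0 + s.θ := by
  unfold Φe
  rw [map_neg, ← It_Dy, map_add, map_add, map_add, Dy2_cosy, map_neg, It_cosy, F.eθ, Xθ]
  abel

theorem smul_lin (m : ℂ) (a b c d : BB) :
    -(m • a) - (m • b) * c + m • d = m • (-a - b * c + d) := by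
  rw [smul_add, smul_sub, smul_neg, smul_mul_assoc]

theorem smul_lin' (m : ℂ) (a b c d : BB) :
    m • a - (m • b) * c + m • d = m • (a - b * c + d) := by
  rw [smul_add, smul_sub, smul_mul_assoc]

section
variable {H M Θ Ψ g : BB}

theorem Rl.dh {f : BB} (hH : Rl H) (hΘ : Rl Θ) (hf : Rl f) : Rl (Dh H Θ f) := by
  unfold Dh
  exact (hH.mul hf.dy).sub (hΘ.mul hf.dz)

theorem Rl.ee {f : BB} (hH : Rl H) (hΘ : Rl Θ) (hf : Rl f) : Rl (EE H Θ f) := by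
  unfold EE
  exact hf.dz.dz.add (Rl.dh hH hΘ (Rl.dh hH hΘ hf))

theorem Dz_tot (hH : Cst H) (hM : Cst M) (zΨ : ZI Ψ) :
    Dz (Ψ + M * (H * g)) = H * (M * Dz g) := by
  rw [map_add, Dz_ZI zΨ, Dz_mul, Dz_mul, hM.z, hH.z]
  ring

theorem Dh_tot (hH : Cst H) (hM : Cst M) (zΨ : ZI Ψ) :
    Dh H Θ (Ψ + M * (H * g)) = H * (Dy Ψ + M * Dh H Θ g) := by
  unfold Dh
  rw [map_add, map_add, Dz_ZI zΨ, Dz_mul, Dz_mul, Dy_mul, Dy_mul, hM.z, hH.z, hM.y, hH.y]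
  ring

theorem Dh_A1 (hM : Cst M) (zΨ : ZI Ψ) :
    Dh H Θ (Dy Ψ + M * Dh H Θ g) = H * Dy (Dy Ψ) + M * Dh H Θ (Dh H Θ g) := by
  have h : Dh H Θ (Dy Ψ + M * Dh H Θ g) = H * Dy (Dy Ψ + M * Dh H Θ g) -
    Θ * Dz (Dy Ψ + M * Dh H Θ g) := rfl
  have h2 : Dh H Θ (Dh H Θ g) = H * Dy (Dh H Θ g) - Θ * Dz (Dh H Θ g) := rfl
  rw [h, h2, map_add, map_add, Dz_ZI zΨ.dy, Dz_mul, Dy_mul, hM.z, hM.y]
  ring

theorem Dz_A1 (zΨ : ZI Ψ) : Dz (Dy Ψ + M * Dh H Θ g) = Dz (M * Dh H Θ g) := by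
  rw [map_add, Dz_ZI zΨ.dy, zero_add]

end

section
variable {Φ : BB} {m h : ℝ} (hmh : m * h = 1)
include hmh

theorem ph_mH (f : BB) (t : ℝ) (x : EuclideanSpace ℝ (Fin 2)) :
    ph Φ m ((m : ℂ) • (((h : ℂ) • eb) * f)) t x = ph Φ m f t x := by
  apply ph_congr
  rw [pE_smul, map_mul, pE_smul, pE_eb]
  have hmh' : (m : ℂ) * h = 1 := by exact_mod_cast hmh
  linear_combination (pE Φ m t x f) * hmh'

end

section tot
variable {T κ h μ : ℝ} {N K : ℕ} {s : St}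

/-- the background stream function -/
noncomputable def ψB (m : ℝ) (s : St) (t : ℝ) (x : EuclideanSpace ℝ (Fin 2)) : ℝ :=
  ph (Φe s) m (cosy + s.ψ) t x
/-- the perturbation -/
noncomputable def ψP (m h μ : ℝ) (s : St) (t : ℝ) (x : EuclideanSpace ℝ (Fin 2)) : ℝ :=
  ph (Φe s) m (((μ : ℂ) • eb) * (((h : ℂ) • eb) * Iz (Iz s.a))) t x
/-- total stream function -/
noncomputable def ψT (m h μ : ℝ) (s : St) (t : ℝ) (x : EuclideanSpace ℝ (Fin 2)) : ℝ :=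
  ψB m s t x + ψP m h μ s t x
/-- Bernoulli function -/
noncomputable def PT (m h μ : ℝ) (s : St) (t : ℝ) (x : EuclideanSpace ℝ (Fin 2)) : ℝ :=
  ph (Φe s) m (PP ((h : ℂ) • eb) ((μ : ℂ) • eb) (Th0 + s.θ) (cosy + s.ψ) (Iz (Iz s.a))) t x

theorem ψT_eq (m h μ : ℝ) (s : St) : ψT m h μ s =
    ph (Φe s) m ((cosy + s.ψ) + ((μ : ℂ) • eb) * (((h : ℂ) • eb) * Iz (Iz s.a))) := by
  funext t x
  unfold ψT ψB ψP
  rw [← ph_add]

variable (F : Fix T h μ N K κ s) {m : ℝ} (hmh : m * h = 1)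
include F hmh

theorem pd0_ψT (t : ℝ) : pd 0 (ψT m h μ s t) =
    ph (Φe s) m (((μ : ℂ) • eb) * Dz (Iz (Iz s.a))) t := by
  rw [ψT_eq, pd0_ph, Dz_tot (Cst_eb_smul (h : ℂ)) (Cst_eb_smul (μ : ℂ)) (ZI_cosy.add F.zψ)]
  funext x
  exact ph_mH hmh _ _ _

theorem pd1_ψT (t : ℝ) : pd 1 (ψT m h μ s t) =
    ph (Φe s) m (Dy (cosy + s.ψ) + ((μ : ℂ) • eb) *
      Dh ((h : ℂ) • eb) (Th0 + s.θ) (Iz (Iz s.a))) t := by
  rw [ψT_eq, pd1_ph hmh (Dy_Φe F) (ZI_Th0.add F.zθ) (Rl_Th0.add F.rθ),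
    Dh_tot (Cst_eb_smul (h : ℂ)) (Cst_eb_smul (μ : ℂ)) (ZI_cosy.add F.zψ)]
  funext x
  exact ph_mH hmh _ _ _

theorem lap_ψT (t : ℝ) (x : EuclideanSpace ℝ (Fin 2)) :
    pd 0 (pd 0 (ψT m h μ s t)) x + pd 1 (pd 1 (ψT m h μ s t)) x =
    ph (Φe s) m ((m : ℂ) • (((h : ℂ) • eb) * Dy (Dy (cosy + s.ψ)) + ((μ : ℂ) • eb) *
      EE ((h : ℂ) • eb) (Th0 + s.θ) (Iz (Iz s.a)))) t x := by
  rw [pd0_ψT F hmh, pd1_ψT F hmh, pd0_ph,
    pd1_ph hmh (Dy_Φe F) (ZI_Th0.add F.zθ) (Rl_Th0.add F.rθ),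
    Dh_A1 (Cst_eb_smul (μ : ℂ)) (ZI_cosy.add F.zψ), ← ph_add]
  congr 1
  rw [← smul_add, Dz_mul, (Cst_eb_smul (μ : ℂ)).z]
  unfold EE
  congr 1
  ring

theorem res1 (t : ℝ) (x : EuclideanSpace ℝ (Fin 2)) :
    -(deriv (fun τ => pd 1 (ψT m h μ s τ) x) t) -
      (pd 0 (pd 0 (ψT m h μ s t)) x + pd 1 (pd 1 (ψT m h μ s t)) x) * pd 0 (ψT m h μ s t) x +
      pd 0 (PT m h μ s t) x = ph (Φe s) m (Dy (Dt (Tψ h μ s))) t x := by
  have zΨ := ZI_cosy.add F.zψ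
  have zΘ := ZI_Th0.add F.zθ
  have hH := Cst_eb_smul (h : ℂ)
  have hM := Cst_eb_smul (μ : ℂ)
  have rH : Rl ((h : ℂ) • eb) := Rl_eb.smul h
  have rM : Rl ((μ : ℂ) • eb) := Rl_eb.smul μ
  have rΨ := Rl_cosy.add F.rψ
  have rΘ := Rl_Th0.add F.rθ
  have rg := F.ra.iz.iz
  rw [lap_ψT F hmh]
  simp only [pd0_ψT F hmh, pd1_ψT F hmh]
  rw [deriv_ph hmh (Dt_Φe s) zΨ rΨ, Dz_A1 zΨ]
  have e1 : pd 0 (PT m h μ s t) = ph (Φe s) m ((m : ℂ) • Dz (PP ((h : ℂ) • eb) ((μ : ℂ) • eb)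
      (Th0 + s.θ) (cosy + s.ψ) (Iz (Iz s.a)))) t := pd0_ph _ _ _ _
  rw [e1]
  have rA : Rl ((m : ℂ) • (((h : ℂ) • eb) * Dy (Dy (cosy + s.ψ)) + ((μ : ℂ) • eb) *
      EE ((h : ℂ) • eb) (Th0 + s.θ) (Iz (Iz s.a)))) :=
    ((rH.mul rΨ.dy.dy).add (rM.mul (Rl.ee rH rΘ rg))).smul m
  rw [← ph_mul rA, ← ph_neg, ← ph_sub, ← ph_add]
  have e2 := r1_identity hH hM zΘ zΨ (MZ_Iz (Iz s.a))
  have e3 : -((m : ℂ) • (((h : ℂ) • eb) * Dt (Dy (cosy + s.ψ) + ((μ : ℂ) • eb) *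
      Dh ((h : ℂ) • eb) (Th0 + s.θ) (Iz (Iz s.a))) + Dy (cosy + s.ψ) *
      Dz (((μ : ℂ) • eb) * Dh ((h : ℂ) • eb) (Th0 + s.θ) (Iz (Iz s.a))))) -
      ((m : ℂ) • (((h : ℂ) • eb) * Dy (Dy (cosy + s.ψ)) + ((μ : ℂ) • eb) *
      EE ((h : ℂ) • eb) (Th0 + s.θ) (Iz (Iz s.a)))) * (((μ : ℂ) • eb) * Dz (Iz (Iz s.a))) +
      (m : ℂ) • Dz (PP ((h : ℂ) • eb) ((μ : ℂ) • eb) (Th0 + s.θ) (cosy + s.ψ) (Iz (Iz s.a))) =
      (m : ℂ) • (((h : ℂ) • eb) * Dy (Dt (Tψ h μ s))) := by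
    have e4 := congrArg (fun f : BB => (m : ℂ) • f) e2
    rw [F.DtΨ] at e4
    have e5 : -(((h : ℂ) • eb) * Dy (-Dt (Tψ h μ s))) = ((h : ℂ) • eb) * Dy (Dt (Tψ h μ s)) := by
      rw [map_neg]; ring
    rw [e5] at e4
    rw [← e4, smul_lin]
    congr 1
    ring
  rw [e3]
  exact ph_mH hmh _ _ _

theorem res2 (t : ℝ) (x : EuclideanSpace ℝ (Fin 2)) :
    deriv (fun τ => pd 0 (ψT m h μ s τ) x) t -
      (pd 0 (pd 0 (ψT m h μ s t)) x + pd 1 (pd 1 (ψT m h μ s t)) x) * pd 1 (ψT m h μ s t) x +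
      pd 1 (PT m h μ s t) x = μ * ph (Φe s) m (Iz (RR ((h : ℂ) • eb) ((μ : ℂ) • eb)
        (Th0 + s.θ) (cosy + s.ψ) (Iz (Iz s.a)))) t x := by
  have zΨ := ZI_cosy.add F.zψ
  have zΘ := ZI_Th0.add F.zθ
  have hH := Cst_eb_smul (h : ℂ)
  have hM := Cst_eb_smul (μ : ℂ)
  have rH : Rl ((h : ℂ) • eb) := Rl_eb.smul h
  have rM : Rl ((μ : ℂ) • eb) := Rl_eb.smul μ
  have rΨ := Rl_cosy.add F.rψ
  have rΘ := Rl_Th0.add F.rθ
  have rg := F.ra.iz.iz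
  rw [lap_ψT F hmh]
  simp only [pd0_ψT F hmh, pd1_ψT F hmh]
  rw [deriv_ph hmh (Dt_Φe s) zΨ rΨ]
  have e1 : pd 1 (PT m h μ s t) = ph (Φe s) m ((m : ℂ) • Dh ((h : ℂ) • eb) (Th0 + s.θ)
      (PP ((h : ℂ) • eb) ((μ : ℂ) • eb) (Th0 + s.θ) (cosy + s.ψ) (Iz (Iz s.a)))) t :=
    pd1_ph hmh (Dy_Φe F) zΘ rΘ _ _
  rw [e1]
  have rA : Rl ((m : ℂ) • (((h : ℂ) • eb) * Dy (Dy (cosy + s.ψ)) + ((μ : ℂ) • eb) *
      EE ((h : ℂ) • eb) (Th0 + s.θ) (Iz (Iz s.a)))) :=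
    ((rH.mul rΨ.dy.dy).add (rM.mul (Rl.ee rH rΘ rg))).smul m
  rw [← ph_mul rA, ← ph_sub, ← ph_add]
  have e2 := r2_identity hH hM zΘ zΨ (MZ_Iz (Iz s.a)) F.DtΘ
  have e3 : (m : ℂ) • (((h : ℂ) • eb) * Dt (((μ : ℂ) • eb) * Dz (Iz (Iz s.a))) +
      Dy (cosy + s.ψ) * Dz (((μ : ℂ) • eb) * Dz (Iz (Iz s.a)))) -
      ((m : ℂ) • (((h : ℂ) • eb) * Dy (Dy (cosy + s.ψ)) + ((μ : ℂ) • eb) *
      EE ((h : ℂ) • eb) (Th0 + s.θ) (Iz (Iz s.a)))) * (Dy (cosy + s.ψ) + ((μ : ℂ) • eb) *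
      Dh ((h : ℂ) • eb) (Th0 + s.θ) (Iz (Iz s.a))) +
      (m : ℂ) • Dh ((h : ℂ) • eb) (Th0 + s.θ)
      (PP ((h : ℂ) • eb) ((μ : ℂ) • eb) (Th0 + s.θ) (cosy + s.ψ) (Iz (Iz s.a))) =
      (m : ℂ) • (((h : ℂ) • eb) * (((μ : ℂ) • eb) * Iz (RR ((h : ℂ) • eb) ((μ : ℂ) • eb)
        (Th0 + s.θ) (cosy + s.ψ) (Iz (Iz s.a))))) := by
    rw [← e2]
    unfold sh
    exact smul_lin' _ _ _ _ _
  rw [e3, ph_mH hmh]
  unfold ph
  rw [map_mul, pE_smul, pE_eb, mul_one, Complex.re_ofReal_mul]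

end tot

end Pool.Agent.EulerInflation

end
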