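import Pool.Agent.Work.MP_8b4a1b_an.PhysBd
import Pool.Agent.Work.MP_8b4a1b_an.Bd.B01
import Pool.Agent.Work.MP_8b4a1b_an.Bd.B02

/-! Bundle of small proof modules (one section per former module). -/

section

/-!
Pointwise bounds on the plane, for the fixed point.
-/

open Polynomial MeasureTheory Set
open scoped ContDiff Real

namespace Pool.Agent.EulerInflation

section small
variable {T κ h μ : ℝ} {N K : ℕ} {s : St} (S : Small T κ h μ K) (F : Fix T h μ N K κ s)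
include S F

theorem tn_Θ {τ : ℝ} (h0 : 0 ≤ τ) (h1 : τ ≤ τT T / 2) {t : ℂ} (ht : t ∈ reg T) :
    tn τ t (Th0 + s.θ) ≤ 3 * (T + 2) := by
  have hT := S.hT
  have hτ := τT_pos hT
  have hA2 := S.kA2
  have e1 := tn_Th0 τ t
  have e2 := exp_tau_le hT (τ := τ) (by linarith)
  have e3 := tn_θ S F h0 h1 ht
  refine (tn_add_le _ _ _ _).trans ?_
  have e4 : ‖t‖ * Real.exp τ ≤ (T + 1) * 2 :=
    mul_le_mul ht.2 e2 (Real.exp_pos _).le (by linarith)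
  have e5 : 2 * (T + 2) * (κ * A2 T) ≤ 2 * (T + 2) * (1 / 100) :=
    mul_le_mul_of_nonneg_left hA2 (by linarith)
  linarith

theorem tn_DyΘ {t : ℂ} (ht : t ∈ reg T) : tn 0 t (Dy (Th0 + s.θ)) ≤ q2 T := by
  have hT := S.hT
  have hτ := τT_pos hT
  refine (tn_Dy_half hT t _).trans ?_
  unfold q2
  exact mul_le_mul_of_nonneg_left (tn_Θ S F (by positivity) le_rfl ht) (by positivity)

theorem tn_g {t : ℂ} (ht : t ∈ reg T) :
    tn 0 t (Iz s.a) ≤ 320 ∧ tn 0 t (Iz (Iz s.a)) ≤ 320 ∧ tn 0 t (Dy (Iz s.a)) ≤ q1 T ∧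
      tn 0 t (Dy (Iz (Iz s.a))) ≤ q1 T ∧ tn 0 t (Dy (Dy (Iz (Iz s.a)))) ≤ q3 T := by
  have hT := S.hT
  have hτ := τT_pos hT
  have a0 := tn_a S F (τ := 0) le_rfl (by positivity) ht
  have a1 := tn_a S F (τ := τT T / 2) (by positivity) le_rfl ht
  have b1 : tn (τT T / 2) t (Iz s.a) ≤ 320 := (tn_Iz_le _ _ _).trans a1
  have b2 : tn (τT T / 2) t (Iz (Iz s.a)) ≤ 320 := (tn_Iz_le _ _ _).trans b1
  refine ⟨(tn_Iz_le _ _ _).trans a0, ((tn_Iz_le _ _ _).trans (tn_Iz_le _ _ _)).trans a0,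
    ?_, ?_, ?_⟩
  · refine (tn_Dy_half hT t _).trans ?_
    unfold q1
    rw [mul_comm 320]
    exact mul_le_mul_of_nonneg_left b1 (by positivity)
  · refine (tn_Dy_half hT t _).trans ?_
    unfold q1
    rw [mul_comm 320]
    exact mul_le_mul_of_nonneg_left b2 (by positivity)
  · refine (tn_Dy_quarter hT t _).trans ?_
    unfold q3
    exact mul_le_mul_of_nonneg_left (mul_le_mul_of_nonneg_left b2 (by positivity)) (by positivity)

theorem tn_Dhg {t : ℂ} (ht : t ∈ reg T) :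
    tn 0 t (Dh ((h : ℂ) • eb) (Th0 + s.θ) (Iz (Iz s.a)) + (Th0 + s.θ) * Iz s.a) ≤ h * q1 T := by
  have e : Dh ((h : ℂ) • eb) (Th0 + s.θ) (Iz (Iz s.a)) + (Th0 + s.θ) * Iz s.a =
      ((h : ℂ) • eb) * Dy (Iz (Iz s.a)) := by
    unfold Dh
    rw [Dzg_eq]
    ring
  rw [e]
  refine (tn_X_mul le_rfl t h S.h0.le _).trans ?_
  exact mul_le_mul_of_nonneg_left (tn_g S F ht).2.2.2.1 S.h0.le

theorem tn_DhIz {t : ℂ} (ht : t ∈ reg T) :
    tn 0 t (Dh ((h : ℂ) • eb) (Th0 + s.θ) (Iz s.a) + (Th0 + s.θ) * s.a) ≤ h * q1 T := by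
  have e : Dh ((h : ℂ) • eb) (Th0 + s.θ) (Iz s.a) + (Th0 + s.θ) * s.a =
      ((h : ℂ) • eb) * Dy (Iz s.a) := by
    unfold Dh
    rw [Dz_Iz F.ma]
    ring
  rw [e]
  refine (tn_X_mul le_rfl t h S.h0.le _).trans ?_
  exact mul_le_mul_of_nonneg_left (tn_g S F ht).2.2.1 S.h0.le

theorem tn_DhDhg {t : ℂ} (ht : t ∈ reg T) :
    tn 0 t (Dh ((h : ℂ) • eb) (Th0 + s.θ) (Dh ((h : ℂ) • eb) (Th0 + s.θ) (Iz (Iz s.a))) -
      (Th0 + s.θ) * ((Th0 + s.θ) * s.a)) ≤ h * q4 T := by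
  have hT := S.hT
  have hh0 := S.h0
  have hh1 : h ≤ 1 := by linarith [S.k1, S.hh]
  have hH := Cst_eb_smul (h : ℂ)
  have zΘ : ZI (Th0 + s.θ) := ZI_Th0.add F.zθ
  obtain ⟨g1, g2, g3, g4, g5⟩ := tn_g S F ht
  have t1 := tn_Θ S F (τ := 0) le_rfl (by have := τT_pos hT; positivity) ht
  have t2 := tn_DyΘ S F ht
  obtain ⟨p1, p2, p3, p4, _⟩ := q_pos hT
  have e : Dh ((h : ℂ) • eb) (Th0 + s.θ) (Dh ((h : ℂ) • eb) (Th0 + s.θ) (Iz (Iz s.a))) -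
      (Th0 + s.θ) * ((Th0 + s.θ) * s.a) =
      ((h : ℂ) • eb) * (((h : ℂ) • eb) * Dy (Dy (Iz (Iz s.a))) -
        Dy (Th0 + s.θ) * Iz s.a - ((Th0 + s.θ) * Dy (Iz s.a) + (Th0 + s.θ) * Dy (Iz s.a))) := by
    unfold Dh
    simp only [map_sub, Dy_mul, Dz_mul, hH.y, hH.z, Dz_ZI zΘ, Dy_Dz, F.Dzzg]
    rw [← Dy_Dz, Dzg_eq]
    ring
  rw [e]
  refine (tn_X_mul le_rfl t h hh0.le _).trans ?_
  apply mul_le_mul_of_nonneg_left _ hh0.le
  refine (tn_sub_le _ _ _ _).trans ?_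
  have f1 := tn_sub_le 0 t (((h : ℂ) • eb) * Dy (Dy (Iz (Iz s.a)))) (Dy (Th0 + s.θ) * Iz s.a)
  have f2 := tn_X_mul le_rfl t h hh0.le (Dy (Dy (Iz (Iz s.a))))
  have f3 := tn_mul_le le_rfl t (Dy (Th0 + s.θ)) (Iz s.a)
  have f4 := tn_mul_le le_rfl t (Th0 + s.θ) (Dy (Iz s.a))
  have f5 := tn_add_le 0 t ((Th0 + s.θ) * Dy (Iz s.a)) ((Th0 + s.θ) * Dy (Iz s.a))
  have f6 : h * tn 0 t (Dy (Dy (Iz (Iz s.a)))) ≤ 1 * q3 T :=
    mul_le_mul hh1 g5 (tn_nonneg _ _ _) zero_le_one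
  have f7 : tn 0 t (Dy (Th0 + s.θ)) * tn 0 t (Iz s.a) ≤ q2 T * 320 :=
    mul_le_mul t2 g1 (tn_nonneg _ _ _) p2.le
  have f8 : tn 0 t (Th0 + s.θ) * tn 0 t (Dy (Iz s.a)) ≤ (3 * (T + 2)) * q1 T :=
    mul_le_mul t1 g3 (tn_nonneg _ _ _) (by linarith)
  unfold q4
  linarith

theorem tn_aS {t : ℂ} (ht : t ∈ reg T) : tn 0 t (s.a - sg T N * w0) ≤ κ * e1c T := by
  refine (tn_a_sub S F le_rfl (by have := τT_pos S.hT; positivity) ht
    (tr_sg_w0 T N K)).trans (le_of_eq ?_)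
  unfold e1c
  ring

theorem tn_IzaS {t : ℂ} (ht : t ∈ reg T) : tn 0 t (Iz s.a - sg T N * Iz w0) ≤ κ * e1c T := by
  have e : Iz s.a - sg T N * Iz w0 = Iz (s.a - sg T N * w0) := by
    rw [map_sub, Iz_ZI_mul (ZI_sg T N)]
  rw [e]
  exact (tn_Iz_le _ _ _).trans (tn_aS S F ht)

/-! pointwise -/

variable {t : ℝ} (h0 : 0 ≤ t) (h1 : t ≤ T) (m : ℝ) (x : EuclideanSpace ℝ (Fin 2))
include h0 h1

/-- abbreviation -/
private theorem memreg : (t : ℂ) ∈ reg T := mem_reg_of_real S.hT h0 h1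

theorem ph_a_bound : |ph (Φe s) m s.a t x - sv T N t (x 1) * ph (Φe s) m w0 t x| ≤
      κ * e1c T ∧ |ph (Φe s) m w0 t x| ≤ 1 := by
  constructor
  · have e := abs_ph_le (Φe s) m (s.a - sg T N * w0) t x
    refine le_trans (le_of_eq ?_) (e.trans (tn_aS S F (memreg S F h0 h1)))
    rw [ph_sub, ph_mul (Rl_sg T N)]
    congr 3
    unfold ph pE
    rw [ev_sg, Complex.ofReal_re]
  · refine (abs_ph_le _ _ _ _ _).trans ?_
    simpa using tn_w0 0 (t : ℂ)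

theorem ph_Iza_bound : |ph (Φe s) m (Iz s.a) t x -
      sv T N t (x 1) * Real.sin (m * (x 0 - Ph (Φe s) t (x 1)))| ≤ κ * e1c T := by
  have e := abs_ph_le (Φe s) m (Iz s.a - sg T N * Iz w0) t x
  refine le_trans (le_of_eq ?_) (e.trans (tn_IzaS S F (memreg S F h0 h1)))
  rw [ph_sub, ph_mul (Rl_sg T N)]
  congr 3
  · unfold ph pE
    rw [ev_sg, Complex.ofReal_re]
  · unfold ph pE
    rw [ev_Izw0, Complex.ofReal_re]

theorem ph_Θ_bound : |ph (Φe s) m (Th0 + s.θ) t x - t * Real.cos (x 1)| ≤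
    κ * (2 * (T + 2) * A2 T) := by
  have e := abs_ph_le (Φe s) m s.θ t x
  have hτ := τT_pos S.hT
  refine le_trans (le_of_eq ?_) (e.trans ((tn_θ S F le_rfl (by positivity)
    (memreg S F h0 h1)).trans (le_of_eq ?_)))
  · rw [ph_add]
    have : ph (Φe s) m Th0 t x = t * Real.cos (x 1) := by
      unfold ph pE
      rw [ev_Th0, Complex.ofReal_re]
    rw [this, add_sub_cancel_left]
  · ring

end small

end Pool.Agent.EulerInflation

end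

section

/-!
The periodic approximate solution.
-/

open Polynomial MeasureTheory Set
open scoped ContDiff Real

namespace Pool.Agent.EulerInflation

theorem ph_M (Φ : BB) (m t : ℝ) (x : EuclideanSpace ℝ (Fin 2)) (μ : ℝ) (f : BB) :
    ph Φ m (((μ : ℂ) • eb) * f) t x = μ * ph Φ m f t x := by
  unfold ph
  rw [map_mul, pE_smul, pE_eb, mul_one, Complex.re_ofReal_mul]

section tot
variable {T κ h μ : ℝ} {N K : ℕ} {s : St}
variable (F : Fix T h μ N K κ s) {m : ℝ} (hmh : m * h = 1)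
include F hmh

omit hmh in
theorem pd0_ψB (t : ℝ) (x : EuclideanSpace ℝ (Fin 2)) : pd 0 (ψB m s t) x = 0 := by
  have e : pd 0 (ψB m s t) = ph (Φe s) m ((m : ℂ) • Dz (cosy + s.ψ)) t := pd0_ph _ _ _ _
  rw [e, Dz_ZI (ZI_cosy.add F.zψ), smul_zero]
  unfold ph
  rw [map_zero, Complex.zero_re]

theorem pd1_ψB (t : ℝ) : pd 1 (ψB m s t) = ph (Φe s) m (Dy (cosy + s.ψ)) t := by
  have e : pd 1 (ψB m s t) = ph (Φe s) m ((m : ℂ) • Dh ((h : ℂ) • eb) (Th0 + s.θ)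
      (cosy + s.ψ)) t := pd1_ph hmh (Dy_Φe F) (ZI_Th0.add F.zθ) (Rl_Th0.add F.rθ) _ _
  rw [e]
  unfold Dh
  rw [Dz_ZI (ZI_cosy.add F.zψ), mul_zero, sub_zero]
  funext x
  exact ph_mH hmh _ _ _

theorem pd11_ψB (t : ℝ) : pd 1 (pd 1 (ψB m s t)) = ph (Φe s) m (Dy (Dy (cosy + s.ψ))) t := by
  rw [pd1_ψB F hmh, pd1_ph hmh (Dy_Φe F) (ZI_Th0.add F.zθ) (Rl_Th0.add F.rθ)]
  unfold Dh
  rw [Dz_ZI (ZI_cosy.add F.zψ).dy, mul_zero, sub_zero]
  funext x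
  exact ph_mH hmh _ _ _

theorem pd01_ψB (t : ℝ) (x : EuclideanSpace ℝ (Fin 2)) : pd 0 (pd 1 (ψB m s t)) x = 0 := by
  rw [pd1_ψB F hmh, pd0_ph, Dz_ZI (ZI_cosy.add F.zψ).dy, smul_zero]
  unfold ph
  rw [map_zero, Complex.zero_re]

theorem pd0_ψP (t : ℝ) : pd 0 (ψP m h μ s t) =
    ph (Φe s) m (((μ : ℂ) • eb) * Iz s.a) t := by
  have e : pd 0 (ψP m h μ s t) = ph (Φe s) m ((m : ℂ) • Dz (((μ : ℂ) • eb) *
    (((h : ℂ) • eb) * Iz (Iz s.a)))) t := pd0_ph _ _ _ _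
  have e2 : Dz (((μ : ℂ) • eb) * (((h : ℂ) • eb) * Iz (Iz s.a))) =
      ((h : ℂ) • eb) * (((μ : ℂ) • eb) * Iz s.a) := by
    rw [Dz_mul, Dz_mul, (Cst_eb_smul (h : ℂ)).z, (Cst_eb_smul (μ : ℂ)).z, Dzg_eq]
    ring
  rw [e, e2]
  funext x
  exact ph_mH hmh _ _ _

theorem pd1_ψP (t : ℝ) : pd 1 (ψP m h μ s t) =
    ph (Φe s) m (((μ : ℂ) • eb) * Dh ((h : ℂ) • eb) (Th0 + s.θ) (Iz (Iz s.a))) t := by
  have e : pd 1 (ψP m h μ s t) = ph (Φe s) m ((m : ℂ) • Dh ((h : ℂ) • eb) (Th0 + s.θ)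
    (((μ : ℂ) • eb) * (((h : ℂ) • eb) * Iz (Iz s.a)))) t :=
    pd1_ph hmh (Dy_Φe F) (ZI_Th0.add F.zθ) (Rl_Th0.add F.rθ) _ _
  have e2 : Dh ((h : ℂ) • eb) (Th0 + s.θ) (((μ : ℂ) • eb) * (((h : ℂ) • eb) * Iz (Iz s.a))) =
      ((h : ℂ) • eb) * (((μ : ℂ) • eb) * Dh ((h : ℂ) • eb) (Th0 + s.θ) (Iz (Iz s.a))) := by
    unfold Dh
    rw [Dz_mul, Dz_mul, Dy_mul, Dy_mul, (Cst_eb_smul (h : ℂ)).z, (Cst_eb_smul (μ : ℂ)).z,
      (Cst_eb_smul (h : ℂ)).y, (Cst_eb_smul (μ : ℂ)).y]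
    ring
  rw [e, e2]
  funext x
  exact ph_mH hmh _ _ _

theorem pd00_ψP (t : ℝ) (x : EuclideanSpace ℝ (Fin 2)) : pd 0 (pd 0 (ψP m h μ s t)) x =
    m * (μ * ph (Φe s) m s.a t x) := by
  rw [pd0_ψP F hmh, pd0_ph, Dz_mul, (Cst_eb_smul (μ : ℂ)).z, zero_mul, zero_add, Dz_Iz F.ma,
    ph_smul, ph_M]

theorem pd10_ψP (t : ℝ) (x : EuclideanSpace ℝ (Fin 2)) : pd 1 (pd 0 (ψP m h μ s t)) x =
    m * (μ * ph (Φe s) m (Dh ((h : ℂ) • eb) (Th0 + s.θ) (Iz s.a)) t x) := by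
  rw [pd0_ψP F hmh, pd1_ph hmh (Dy_Φe F) (ZI_Th0.add F.zθ) (Rl_Th0.add F.rθ)]
  have e : Dh ((h : ℂ) • eb) (Th0 + s.θ) (((μ : ℂ) • eb) * Iz s.a) =
      ((μ : ℂ) • eb) * Dh ((h : ℂ) • eb) (Th0 + s.θ) (Iz s.a) := by
    unfold Dh
    rw [Dz_mul, Dy_mul, (Cst_eb_smul (μ : ℂ)).z, (Cst_eb_smul (μ : ℂ)).y]
    ring
  rw [e, ph_smul, ph_M]

theorem pd01_ψP (t : ℝ) (x : EuclideanSpace ℝ (Fin 2)) : pd 0 (pd 1 (ψP m h μ s t)) x =
    m * (μ * ph (Φe s) m (Dh ((h : ℂ) • eb) (Th0 + s.θ) (Iz s.a)) t x) := by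
  rw [pd1_ψP F hmh, pd0_ph, Dz_mul, (Cst_eb_smul (μ : ℂ)).z, zero_mul, zero_add,
    Dz_Dh (Cst_eb_smul (h : ℂ)) (ZI_Th0.add F.zθ), Dzg_eq, ph_smul, ph_M]

theorem pd11_ψP (t : ℝ) (x : EuclideanSpace ℝ (Fin 2)) : pd 1 (pd 1 (ψP m h μ s t)) x =
    m * (μ * ph (Φe s) m (Dh ((h : ℂ) • eb) (Th0 + s.θ)
      (Dh ((h : ℂ) • eb) (Th0 + s.θ) (Iz (Iz s.a)))) t x) := by
  rw [pd1_ψP F hmh, pd1_ph hmh (Dy_Φe F) (ZI_Th0.add F.zθ) (Rl_Th0.add F.rθ)]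
  have e : Dh ((h : ℂ) • eb) (Th0 + s.θ) (((μ : ℂ) • eb) *
      Dh ((h : ℂ) • eb) (Th0 + s.θ) (Iz (Iz s.a))) =
      ((μ : ℂ) • eb) * Dh ((h : ℂ) • eb) (Th0 + s.θ)
        (Dh ((h : ℂ) • eb) (Th0 + s.θ) (Iz (Iz s.a))) := by
    have e1 : ∀ f : BB, Dh ((h : ℂ) • eb) (Th0 + s.θ) (((μ : ℂ) • eb) * f) =
      ((μ : ℂ) • eb) * Dh ((h : ℂ) • eb) (Th0 + s.θ) f := by
      intro f
      unfold Dh
      rw [Dz_mul, Dy_mul, (Cst_eb_smul (μ : ℂ)).z, (Cst_eb_smul (μ : ℂ)).y]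
      ring
    exact e1 _
  rw [e, ph_smul, ph_M]

end tot

/-- constants -/
noncomputable def E2c (T : ℝ) : ℝ := 320 * (2 * (T + 2) * A2 T) + T * e1c T + q1 T
/-- constants -/
noncomputable def E4c (T : ℝ) : ℝ :=
  320 * (2 * (T + 2) * A2 T) * (4 * (T + 2)) + T ^ 2 * e1c T + q4 T
/-- constants -/
noncomputable def cAll (T : ℝ) : ℝ := e1c T + E2c T + E4c T

theorem E_pos {T : ℝ} (hT : 1 ≤ T) : 0 < E2c T ∧ 0 < E4c T := by
  obtain ⟨p1, p2, p3, p4, p5⟩ := q_pos hT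
  have := A2_pos hT
  constructor
  · unfold E2c; positivity
  · unfold E4c; positivity

section small
variable {T κ h μ : ℝ} {N K : ℕ} {s : St} (S : Small T κ h μ K) (F : Fix T h μ N K κ s)
variable {t : ℝ} (h0 : 0 ≤ t) (h1 : t ≤ T) (m : ℝ) (x : EuclideanSpace ℝ (Fin 2))
include S F h0 h1

theorem bd_ψB : |ψB m s t x| ≤ 2 ∧ |ph (Φe s) m (Dy (cosy + s.ψ)) t x| ≤ 2 ∧
    |ph (Φe s) m (Dy (Dy (cosy + s.ψ))) t x| ≤ 2 := by
  have hτ := τT_pos S.hT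
  have ht := mem_reg_of_real S.hT h0 h1
  obtain ⟨a0, a1, a2⟩ := tn_ψ S F le_rfl (by positivity) ht
  have hA2 := S.kA2
  have hA1 : 16 * (16 * (κ * A1 T)) ≤ 1 / 100 := by
    have : κ * A2 T = 16 * (16 * (κ * A1 T)) := by unfold A2; ring
    linarith
  have hA0 : 0 ≤ κ * A1 T := mul_nonneg S.hκ0.le (A1_pos S.hT).le
  have c0 : tn 0 (t : ℂ) cosy ≤ 1 := by
    unfold cosy
    refine (tn_add_le _ _ _ _).trans (le_of_eq ?_)
    rw [tn_single, tn_single]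
    simp [wt]
    norm_num
  have c1 : tn 0 (t : ℂ) (Dy cosy) ≤ 1 := by
    unfold cosy
    rw [map_add, Dy_single, Dy_single]
    refine (tn_add_le _ _ _ _).trans (le_of_eq ?_)
    rw [tn_single, tn_single]
    simp [wt]
    norm_num
  have c2 : tn 0 (t : ℂ) (Dy (Dy cosy)) ≤ 1 := by
    rw [Dy2_cosy, tn_neg]
    exact c0
  refine ⟨?_, ?_, ?_⟩
  · refine (abs_ph_le _ _ _ _ _).trans ((tn_add_le _ _ _ _).trans ?_)
    linarith
  · refine (abs_ph_le _ _ _ _ _).trans ?_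
    rw [map_add]
    refine (tn_add_le _ _ _ _).trans ?_
    linarith
  · refine (abs_ph_le _ _ _ _ _).trans ?_
    rw [map_add, map_add]
    refine (tn_add_le _ _ _ _).trans ?_
    linarith

theorem bd_a : |ph (Φe s) m s.a t x| ≤ 1 + κ * e1c T := by
  obtain ⟨b1, b2⟩ := ph_a_bound S F h0 h1 m x
  have s0 := sv_nonneg (y := x 1) N S.hT h0 h1
  have s1 := sv_mul (y := x 1) N S.hT h0 h1
  have s2 : sv T N t (x 1) ≤ 1 := by nlinarith [sq_nonneg (t * Real.cos (x 1))]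
  have b3 : |sv T N t (x 1) * ph (Φe s) m w0 t x| ≤ 1 * 1 := by
    rw [abs_mul, abs_of_nonneg s0]
    exact mul_le_mul s2 b2 (abs_nonneg _) zero_le_one
  have := abs_sub_abs_le_abs_sub (ph (Φe s) m s.a t x) (sv T N t (x 1) * ph (Φe s) m w0 t x)
  linarith

theorem bd_Iza : |ph (Φe s) m (Iz s.a) t x| ≤
    1 / (1 + (t * Real.cos (x 1)) ^ 2) + κ * e1c T := by
  have b1 := ph_Iza_bound S F h0 h1 m x
  have s0 := sv_nonneg (y := x 1) N S.hT h0 h1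
  have s1 := sv_le (y := x 1) N S.hT h0 h1
  have b2 := Real.abs_sin_le_one (m * (x 0 - Ph (Φe s) t (x 1)))
  have b3 : |sv T N t (x 1) * Real.sin (m * (x 0 - Ph (Φe s) t (x 1)))| ≤
      1 / (1 + (t * Real.cos (x 1)) ^ 2) * 1 := by
    rw [abs_mul, abs_of_nonneg s0]
    exact mul_le_mul s1 b2 (abs_nonneg _) (by positivity)
  have := abs_sub_abs_le_abs_sub (ph (Φe s) m (Iz s.a) t x)
    (sv T N t (x 1) * Real.sin (m * (x 0 - Ph (Φe s) t (x 1))))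
  linarith

theorem bd_ΘIza : |ph (Φe s) m (Th0 + s.θ) t x * ph (Φe s) m (Iz s.a) t x| ≤
    |t * Real.cos (x 1)| / (1 + (t * Real.cos (x 1)) ^ 2) +
      κ * (320 * (2 * (T + 2) * A2 T) + T * e1c T) := by
  have hτ := τT_pos S.hT
  have ht := mem_reg_of_real S.hT h0 h1
  have b1 := ph_Iza_bound S F h0 h1 m x
  have b4 := ph_Θ_bound S F h0 h1 m x
  have s0 := sv_nonneg (y := x 1) N S.hT h0 h1
  have s1 := sv_le (y := x 1) N S.hT h0 h1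
  have b2 := Real.abs_sin_le_one (m * (x 0 - Ph (Φe s) t (x 1)))
  have b5 : |ph (Φe s) m (Iz s.a) t x| ≤ 320 := (abs_ph_le _ _ _ _ _).trans (tn_g S F ht).1
  have hθ : |t * Real.cos (x 1)| ≤ T := by
    rw [abs_mul, abs_of_nonneg h0]
    calc t * |Real.cos (x 1)| ≤ T * 1 :=
          mul_le_mul h1 (Real.abs_cos_le_one _) (abs_nonneg _) (by linarith)
      _ = T := mul_one T
  set θ := ph (Φe s) m (Th0 + s.θ) t x
  set a := ph (Φe s) m (Iz s.a) t x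
  set θ₀ := t * Real.cos (x 1)
  set σ := sv T N t (x 1)
  set wv := Real.sin (m * (x 0 - Ph (Φe s) t (x 1)))
  have e : θ * a = (θ - θ₀) * a + θ₀ * (a - σ * wv) + θ₀ * (σ * wv) := by ring
  have hA2 := A2_pos S.hT
  have hT := S.hT
  have hκ := S.hκ0
  obtain ⟨_, _, _, _, hE⟩ := q_pos hT
  have f1 : |(θ - θ₀) * a| ≤ κ * (2 * (T + 2) * A2 T) * 320 := by
    rw [abs_mul]
    exact mul_le_mul b4 b5 (abs_nonneg _) (by positivity)
  have f2 : |θ₀ * (a - σ * wv)| ≤ T * (κ * e1c T) := by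
    rw [abs_mul]
    exact mul_le_mul hθ b1 (abs_nonneg _) (by linarith)
  have f3 : |θ₀ * (σ * wv)| ≤ |θ₀| / (1 + θ₀ ^ 2) := by
    rw [abs_mul θ₀, abs_mul σ, abs_of_nonneg s0, div_eq_mul_one_div]
    apply mul_le_mul_of_nonneg_left _ (abs_nonneg _)
    calc σ * |wv| ≤ 1 / (1 + θ₀ ^ 2) * 1 := mul_le_mul s1 b2 (abs_nonneg _) (by positivity)
      _ = _ := mul_one _
  rw [e]
  refine (abs_add_three _ _ _).trans ?_
  linarith

theorem bd_Dhg : |ph (Φe s) m (Dh ((h : ℂ) • eb) (Th0 + s.θ) (Iz (Iz s.a))) t x| ≤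
    |t * Real.cos (x 1)| / (1 + (t * Real.cos (x 1)) ^ 2) + κ * E2c T := by
  have ht := mem_reg_of_real S.hT h0 h1
  have b1 := bd_ΘIza S F h0 h1 m x
  have b2 := (abs_ph_le (Φe s) m _ t x).trans (tn_Dhg S F ht)
  obtain ⟨p1, _, _, _, _⟩ := q_pos S.hT
  rw [ph_add, ph_mul (Rl_Th0.add F.rθ)] at b2
  have b3 : h * q1 T ≤ κ * q1 T := mul_le_mul_of_nonneg_right S.hh p1.le
  have b4 := abs_sub_abs_le_abs_sub (ph (Φe s) m (Dh ((h : ℂ) • eb) (Th0 + s.θ) (Iz (Iz s.a))) t x)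
    (-(ph (Φe s) m (Th0 + s.θ) t x * ph (Φe s) m (Iz s.a) t x))
  rw [abs_neg, sub_neg_eq_add] at b4
  unfold E2c
  linarith

theorem bd_DhIza : |ph (Φe s) m (Dh ((h : ℂ) • eb) (Th0 + s.θ) (Iz s.a)) t x| ≤
    1 + κ * E2c T := by
  have ht := mem_reg_of_real S.hT h0 h1
  obtain ⟨a1, a2⟩ := ph_a_bound S F h0 h1 m x
  have b4 := ph_Θ_bound S F h0 h1 m x
  have s0 := sv_nonneg (y := x 1) N S.hT h0 h1
  have s1 := sv_mul (y := x 1) N S.hT h0 h1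
  have b5 : |ph (Φe s) m s.a t x| ≤ 320 := (abs_ph_le _ _ _ _ _).trans
    (tn_a S F le_rfl (by have := τT_pos S.hT; positivity) ht)
  have hθ : |t * Real.cos (x 1)| ≤ T := by
    rw [abs_mul, abs_of_nonneg h0]
    calc t * |Real.cos (x 1)| ≤ T * 1 :=
          mul_le_mul h1 (Real.abs_cos_le_one _) (abs_nonneg _) (by linarith)
      _ = T := mul_one T
  have b2 := (abs_ph_le (Φe s) m _ t x).trans (tn_DhIz S F ht)
  obtain ⟨p1, _, _, _, hE⟩ := q_pos S.hT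
  rw [ph_add, ph_mul (Rl_Th0.add F.rθ)] at b2
  have b3 : h * q1 T ≤ κ * q1 T := mul_le_mul_of_nonneg_right S.hh p1.le
  have b6 := abs_sub_abs_le_abs_sub (ph (Φe s) m (Dh ((h : ℂ) • eb) (Th0 + s.θ) (Iz s.a)) t x)
    (-(ph (Φe s) m (Th0 + s.θ) t x * ph (Φe s) m s.a t x))
  rw [abs_neg, sub_neg_eq_add] at b6
  set θ := ph (Φe s) m (Th0 + s.θ) t x
  set a := ph (Φe s) m s.a t x
  set θ₀ := t * Real.cos (x 1)
  set σ := sv T N t (x 1)
  set wv := ph (Φe s) m w0 t x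
  have e : θ * a = (θ - θ₀) * a + θ₀ * (a - σ * wv) + θ₀ * (σ * wv) := by ring
  have hA2 := A2_pos S.hT
  have hT := S.hT
  have hκ := S.hκ0
  have f1 : |(θ - θ₀) * a| ≤ κ * (2 * (T + 2) * A2 T) * 320 := by
    rw [abs_mul]
    exact mul_le_mul b4 b5 (abs_nonneg _) (by positivity)
  have f2 : |θ₀ * (a - σ * wv)| ≤ T * (κ * e1c T) := by
    rw [abs_mul]
    exact mul_le_mul hθ a1 (abs_nonneg _) (by linarith)
  have f3 : |θ₀ * (σ * wv)| ≤ 1 := by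
    rw [abs_mul θ₀, abs_mul σ, abs_of_nonneg s0, ← mul_assoc]
    calc |θ₀| * σ * |wv| ≤ 1 * 1 := by
          apply mul_le_mul _ a2 (abs_nonneg _) zero_le_one
          have : |θ₀| ≤ 1 + θ₀ ^ 2 := by
            rw [← sq_abs]; nlinarith [abs_nonneg θ₀, sq_nonneg (|θ₀| - 1)]
          calc |θ₀| * σ ≤ (1 + θ₀ ^ 2) * σ := mul_le_mul_of_nonneg_right this s0
            _ ≤ 1 := s1
      _ = 1 := mul_one 1
  have f4 : |θ * a| ≤ κ * (2 * (T + 2) * A2 T) * 320 + T * (κ * e1c T) + 1 := by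
    rw [e]
    refine (abs_add_three _ _ _).trans ?_
    linarith
  unfold E2c
  linarith

theorem bd_DhDhg : |ph (Φe s) m (Dh ((h : ℂ) • eb) (Th0 + s.θ)
    (Dh ((h : ℂ) • eb) (Th0 + s.θ) (Iz (Iz s.a)))) t x| ≤ 1 + κ * E4c T := by
  have ht := mem_reg_of_real S.hT h0 h1
  obtain ⟨a1, a2⟩ := ph_a_bound S F h0 h1 m x
  have b4 := ph_Θ_bound S F h0 h1 m x
  have s0 := sv_nonneg (y := x 1) N S.hT h0 h1
  have s1 := sv_mul (y := x 1) N S.hT h0 h1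
  have b5 : |ph (Φe s) m s.a t x| ≤ 320 := (abs_ph_le _ _ _ _ _).trans
    (tn_a S F le_rfl (by have := τT_pos S.hT; positivity) ht)
  have b7 : |ph (Φe s) m (Th0 + s.θ) t x| ≤ 3 * (T + 2) := (abs_ph_le _ _ _ _ _).trans
    (tn_Θ S F le_rfl (by have := τT_pos S.hT; positivity) ht)
  have hθ : |t * Real.cos (x 1)| ≤ T := by
    rw [abs_mul, abs_of_nonneg h0]
    calc t * |Real.cos (x 1)| ≤ T * 1 :=
          mul_le_mul h1 (Real.abs_cos_le_one _) (abs_nonneg _) (by linarith)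
      _ = T := mul_one T
  have b2 := (abs_ph_le (Φe s) m _ t x).trans (tn_DhDhg S F ht)
  obtain ⟨p1, _, _, p4, hE⟩ := q_pos S.hT
  rw [ph_sub, ph_mul (Rl_Th0.add F.rθ), ph_mul (Rl_Th0.add F.rθ)] at b2
  have b3 : h * q4 T ≤ κ * q4 T := mul_le_mul_of_nonneg_right S.hh p4.le
  have b6 := abs_sub_abs_le_abs_sub (ph (Φe s) m (Dh ((h : ℂ) • eb) (Th0 + s.θ)
    (Dh ((h : ℂ) • eb) (Th0 + s.θ) (Iz (Iz s.a)))) t x)
    (ph (Φe s) m (Th0 + s.θ) t x * (ph (Φe s) m (Th0 + s.θ) t x * ph (Φe s) m s.a t x))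
  set θ := ph (Φe s) m (Th0 + s.θ) t x
  set a := ph (Φe s) m s.a t x
  set θ₀ := t * Real.cos (x 1)
  set σ := sv T N t (x 1)
  set wv := ph (Φe s) m w0 t x
  have e : θ * (θ * a) = (θ - θ₀) * a * (θ + θ₀) + θ₀ ^ 2 * (a - σ * wv) + θ₀ ^ 2 * (σ * wv) := by
    ring
  have hA2 := A2_pos S.hT
  have hT := S.hT
  have hκ := S.hκ0
  have f0 : |θ + θ₀| ≤ 4 * (T + 2) := (abs_add_le _ _).trans (by linarith)
  have f1 : |(θ - θ₀) * a * (θ + θ₀)| ≤ κ * (2 * (T + 2) * A2 T) * 320 * (4 * (T + 2)) := by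
    rw [abs_mul, abs_mul]
    exact mul_le_mul (mul_le_mul b4 b5 (abs_nonneg _) (by positivity)) f0 (abs_nonneg _)
      (by positivity)
  have hθ2 : θ₀ ^ 2 ≤ T ^ 2 := by
    rw [← sq_abs]
    exact pow_le_pow_left₀ (abs_nonneg _) hθ 2
  have f2 : |θ₀ ^ 2 * (a - σ * wv)| ≤ T ^ 2 * (κ * e1c T) := by
    rw [abs_mul, abs_of_nonneg (sq_nonneg θ₀)]
    exact mul_le_mul hθ2 a1 (abs_nonneg _) (by positivity)
  have f3 : |θ₀ ^ 2 * (σ * wv)| ≤ 1 := by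
    rw [abs_mul (θ₀ ^ 2), abs_mul σ, abs_of_nonneg s0, abs_of_nonneg (sq_nonneg θ₀), ← mul_assoc]
    calc θ₀ ^ 2 * σ * |wv| ≤ 1 * 1 := by
          apply mul_le_mul _ a2 (abs_nonneg _) zero_le_one
          nlinarith
      _ = 1 := mul_one 1
  have f4 : |θ * (θ * a)| ≤ κ * (2 * (T + 2) * A2 T) * 320 * (4 * (T + 2)) +
      T ^ 2 * (κ * e1c T) + 1 := by
    rw [e]
    refine (abs_add_three _ _ _).trans ?_
    linarith
  unfold E4c
  linarith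

end small

end Pool.Agent.EulerInflation

end

section

/-!
Existence of the periodic approximate solution.
-/

open Polynomial MeasureTheory Set
open scoped ContDiff Real

namespace Pool.Agent.EulerInflation

/-- A periodic approximate solution: shear flow with a small perturbation. -/
structure PerApprox (T ε μ δ : ℝ) (m : ℕ) (ψB ψP P : ℝ → EuclideanSpace ℝ (Fin 2) → ℝ) : Prop where
  sB : ContDiff ℝ ∞ (fun z : ℝ × EuclideanSpace ℝ (Fin 2) => ψB z.1 z.2)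
  sP : ContDiff ℝ ∞ (fun z : ℝ × EuclideanSpace ℝ (Fin 2) => ψP z.1 z.2)
  sQ : ContDiff ℝ ∞ (fun z : ℝ × EuclideanSpace ℝ (Fin 2) => P z.1 z.2)
  perB : ∀ t x i, ψB t (x + EuclideanSpace.single i (2 * π)) = ψB t x
  perP : ∀ t x i, ψP t (x + EuclideanSpace.single i (2 * π)) = ψP t x
  perQ : ∀ t x i, P t (x + EuclideanSpace.single i (2 * π)) = P t x
  bB0 : ∀ t ∈ Icc 0 T, ∀ x, |ψB t x| ≤ 2
  bB1 : ∀ t ∈ Icc 0 T, ∀ x i, |pd i (ψB t) x| ≤ 2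
  bB2 : ∀ t ∈ Icc 0 T, ∀ x i j, |pd i (pd j (ψB t)) x| ≤ 2
  bB00 : ∀ t x, pd 0 (ψB t) x = 0
  bP0 : ∀ t ∈ Icc 0 T, ∀ x, |ψP t x| ≤ 2
  bP1 : ∀ t ∈ Icc 0 T, ∀ x i, |pd i (ψP t) x| ≤ 2 * μ
  bP2 : ∀ t ∈ Icc 0 T, ∀ x i j, |pd i (pd j (ψP t)) x| ≤ 2 * (μ * m)
  res1 : ∀ t ∈ Icc 0 T, ∀ x, |-(deriv (fun s => pd 1 (fun y => ψB s y + ψP s y) x) t) -
      (pd 0 (pd 0 (fun y => ψB t y + ψP t y)) x + pd 1 (pd 1 (fun y => ψB t y + ψP t y)) x) *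
        pd 0 (fun y => ψB t y + ψP t y) x + pd 0 (P t) x| ≤ δ
  res2 : ∀ t ∈ Icc 0 T, ∀ x, |deriv (fun s => pd 0 (fun y => ψB s y + ψP s y) x) t -
      (pd 0 (pd 0 (fun y => ψB t y + ψP t y)) x + pd 1 (pd 1 (fun y => ψB t y + ψP t y)) x) *
        pd 1 (fun y => ψB t y + ψP t y) x + pd 1 (P t) x| ≤ δ
  init : ∀ x, |pd 0 (ψP 0) x - μ * Real.sin (m * x 0)| ≤ ε * μ
  fin : ∀ x i, (pd i (ψP T) x) ^ 2 ≤ μ ^ 2 * (1 / (1 + T ^ 2 * Real.cos (x 1) ^ 2) + ε)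

theorem Rl_half_smul {f : BB} (hf : Rl f) : Rl (((1 / 2 : ℝ) : ℂ) • f) := hf.smul _

theorem sq_add_le {a b E κ : ℝ} (ha1 : a ≤ 1) (hE : 0 ≤ E) (hκ : 0 ≤ κ)
    (hκE : κ * E ≤ 1) (hb : |b| ≤ a + κ * E) : b ^ 2 ≤ a ^ 2 + 3 * (κ * E) := by
  have h1 : b ^ 2 ≤ (a + κ * E) ^ 2 := by
    rw [← sq_abs b]
    exact pow_le_pow_left₀ (abs_nonneg _) hb 2
  have h2 : 0 ≤ κ * E := mul_nonneg hκ hE
  nlinarith

set_option maxHeartbeats 1000000 in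
theorem per_approx {T : ℝ} (hT : 1 ≤ T) : ∃ C : ℝ, 0 < C ∧ ∃ κ₀ : ℝ, 0 < κ₀ ∧
    ∀ κ : ℝ, 0 < κ → κ ≤ κ₀ → ∀ (m K : ℕ) (μ : ℝ), 0 < m → ((K : ℝ) + 1) / m ≤ κ →
      0 < μ → μ ≤ κ → ∃ ψB ψP P : ℝ → EuclideanSpace ℝ (Fin 2) → ℝ,
        PerApprox T (C * κ) μ (C * (1 / 4) ^ K) m ψB ψP P := by
  obtain ⟨q1p, q2p, q3p, q4p, ep⟩ := q_pos hT
  obtain ⟨E2p, E4p⟩ := E_pos hT
  have hτ := τT_pos hT
  have hb := bT_pos hT
  have hCt := cTail_pos hT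
  have hCR := cR_pos hT
  have hbC := bigC_ge_one hT
  set C : ℝ := 2 / (τT T * bT T) * cTail T + cR T + 3 * e1c T + 3 * E2c T + 3 * E4c T + 1 with hC
  have hC1 : 0 < 2 / (τT T * bT T) * cTail T := by positivity
  have hC0 : 0 < C := by rw [hC]; positivity
  refine ⟨C, hC0, min (1 / (100 * bigC T)) (1 / C), by positivity, ?_⟩
  intro κ hκ0 hκ m K μ hm hK hμ0 hμ
  have hmR : (0 : ℝ) < m := by exact_mod_cast hm
  have hκ1 : κ * bigC T ≤ 1 / 100 := by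
    have := (hκ.trans (min_le_left _ _))
    rw [le_div_iff₀ (by positivity)] at this
    linarith
  have hκC : κ * C ≤ 1 := by
    have := (hκ.trans (min_le_right _ _))
    rw [le_div_iff₀ hC0] at this
    exact this
  have hh : 1 / (m : ℝ) * (K + 1) ≤ κ := by
    rw [one_div, mul_comm, ← div_eq_mul_inv]; exact hK
  have hh0 : (0 : ℝ) < 1 / m := by positivity
  have hh1 : 1 / (m : ℝ) ≤ κ := by
    refine le_trans ?_ hh
    have : (0 : ℝ) ≤ K := Nat.cast_nonneg K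
    calc 1 / (m : ℝ) = 1 / (m : ℝ) * 1 := (mul_one _).symm
      _ ≤ 1 / (m : ℝ) * (K + 1) := mul_le_mul_of_nonneg_left (by linarith) hh0.le
  have S : Small T κ (1 / m) μ K := ⟨hT, hκ0, hκ1, hh0, hh1, hh, hμ0, hμ⟩
  -- choice of `N`
  obtain ⟨N, hN⟩ := exists_pow_lt_of_lt_one (show 0 < min ((1 / 4 : ℝ) ^ K) κ by positivity)
    (lamT_lt hT)
  have hN1 : lamT T ^ N ≤ (1 / 4) ^ K := hN.le.trans (min_le_left _ _)
  have hN2 : lamT T ^ N ≤ κ := hN.le.trans (min_le_right _ _)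
  have F := Fix_fp (T := T) (κ := κ) (h := 1 / m) (μ := μ) (K := K) (N := N) S
  set s := fp T (1 / m) μ N K with hs
  have hmh : (m : ℝ) * (1 / m) = 1 := by field_simp
  have hκe1 : κ * e1c T ≤ 1 := by
    refine le_trans (mul_le_mul_of_nonneg_left ?_ hκ0.le) hκC
    rw [hC]; linarith
  have hκE2 : κ * E2c T ≤ 1 := by
    refine le_trans (mul_le_mul_of_nonneg_left ?_ hκ0.le) hκC
    rw [hC]; linarith
  have hκE4 : κ * E4c T ≤ 1 := by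
    refine le_trans (mul_le_mul_of_nonneg_left ?_ hκ0.le) hκC
    rw [hC]; linarith
  have hκk1 := S.k1
  have hTot : ∀ t, (fun y => ψB m s t y + ψP m (1 / m) μ s t y) = ψT m (1 / m) μ s t :=
    fun t => rfl
  -- bounds of derivatives of the perturbation
  have hfr : ∀ z : ℝ, |z| / (1 + z ^ 2) ≤ 1 := by
    intro z
    rw [div_le_one (by positivity), ← sq_abs]
    nlinarith [abs_nonneg z, sq_nonneg (|z| - 1)]
  have hfr1 : ∀ z : ℝ, 1 / (1 + z ^ 2) ≤ 1 := by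
    intro z
    rw [div_le_one (by positivity)]
    nlinarith [sq_nonneg z]
  have g0 : ∀ t ∈ Icc 0 T, ∀ x, |pd 0 (ψP m (1 / m) μ s t) x| ≤
      μ * (1 / (1 + (t * Real.cos (x 1)) ^ 2) + κ * e1c T) := by
    intro t ht x
    rw [pd0_ψP F hmh, ph_M, abs_mul, abs_of_pos hμ0]
    exact mul_le_mul_of_nonneg_left (bd_Iza S F ht.1 ht.2 m x) hμ0.le
  have g1 : ∀ t ∈ Icc 0 T, ∀ x, |pd 1 (ψP m (1 / m) μ s t) x| ≤
      μ * (|t * Real.cos (x 1)| / (1 + (t * Real.cos (x 1)) ^ 2) + κ * E2c T) := by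
    intro t ht x
    rw [pd1_ψP F hmh, ph_M, abs_mul, abs_of_pos hμ0]
    exact mul_le_mul_of_nonneg_left (bd_Dhg S F ht.1 ht.2 m x) hμ0.le
  refine ⟨ψB m s, ψP m (1 / m) μ s, PT m (1 / m) μ s, ?_⟩
  constructor
  · exact ph_contDiff _ _ _
  · exact ph_contDiff _ _ _
  · exact ph_contDiff _ _ _
  · intro t x i
    exact ph_period _ _ _ _ _ _
  · intro t x i
    exact ph_period _ _ _ _ _ _
  · intro t x i
    exact ph_period _ _ _ _ _ _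
  · intro t ht x
    exact (bd_ψB S F ht.1 ht.2 m x).1
  · intro t ht x i
    fin_cases i
    · show |pd 0 (ψB m s t) x| ≤ 2
      rw [pd0_ψB F, abs_zero]; norm_num
    · show |pd 1 (ψB m s t) x| ≤ 2
      rw [pd1_ψB F hmh]
      exact (bd_ψB S F ht.1 ht.2 m x).2.1
  · intro t ht x i j
    fin_cases j
    · have e : pd 0 (ψB m s t) = fun _ => 0 := by
        funext y
        exact pd0_ψB F t y
      show |pd i (pd 0 (ψB m s t)) x| ≤ 2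
      rw [e]
      have : pd i (fun _ => (0 : ℝ)) x = 0 := by
        unfold pd
        simp
      rw [this, abs_zero]; norm_num
    · fin_cases i
      · show |pd 0 (pd 1 (ψB m s t)) x| ≤ 2
        rw [pd01_ψB F hmh, abs_zero]; norm_num
      · show |pd 1 (pd 1 (ψB m s t)) x| ≤ 2
        rw [pd11_ψB F hmh]
        exact (bd_ψB S F ht.1 ht.2 m x).2.2
  · intro t x
    exact pd0_ψB F t x
  · intro t ht x
    have e1 := tn_g S F (mem_reg_of_real hT ht.1 ht.2)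
    refine (abs_ph_le _ _ _ _ _).trans ?_
    refine (tn_X_mul le_rfl _ μ hμ0.le _).trans ?_
    have e2 := tn_X_mul le_rfl (t : ℂ) (1 / m : ℝ) hh0.le (Iz (Iz s.a))
    have e3 : tn 0 (t : ℂ) ((((1 / m : ℝ) : ℝ) : ℂ) • eb * Iz (Iz s.a)) ≤ 1 / 100 * 320 :=
      e2.trans (mul_le_mul (by linarith) e1.2.1 (tn_nonneg _ _ _) (by norm_num))
    calc μ * _ ≤ 1 / 100 * (1 / 100 * 320) :=
          mul_le_mul (by linarith) e3 (tn_nonneg _ _ _) (by norm_num)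
      _ ≤ 2 := by norm_num
  · intro t ht x i
    fin_cases i
    · refine (g0 t ht x).trans ?_
      have := hfr1 (t * Real.cos (x 1))
      rw [mul_comm 2 μ]
      exact mul_le_mul_of_nonneg_left (by linarith) hμ0.le
    · refine (g1 t ht x).trans ?_
      have := hfr (t * Real.cos (x 1))
      rw [mul_comm 2 μ]
      exact mul_le_mul_of_nonneg_left (by linarith) hμ0.le
  · intro t ht x i j
    have hμm : 0 ≤ μ * m := by positivity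
    have key : ∀ z : ℝ, |z| ≤ 2 → |(m : ℝ) * (μ * z)| ≤ 2 * (μ * m) := by
      intro z hz
      rw [abs_mul, abs_mul, abs_of_pos hmR, abs_of_pos hμ0]
      calc (m : ℝ) * (μ * |z|) = (μ * m) * |z| := by ring
        _ ≤ (μ * m) * 2 := mul_le_mul_of_nonneg_left hz hμm
        _ = 2 * (μ * m) := by ring
    fin_cases j <;> fin_cases i
    · show |pd 0 (pd 0 (ψP m (1 / m) μ s t)) x| ≤ _
      rw [pd00_ψP F hmh]
      exact key _ ((bd_a S F ht.1 ht.2 m x).trans (by linarith))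
    · show |pd 1 (pd 0 (ψP m (1 / m) μ s t)) x| ≤ _
      rw [pd10_ψP F hmh]
      exact key _ ((bd_DhIza S F ht.1 ht.2 m x).trans (by linarith))
    · show |pd 0 (pd 1 (ψP m (1 / m) μ s t)) x| ≤ _
      rw [pd01_ψP F hmh]
      exact key _ ((bd_DhIza S F ht.1 ht.2 m x).trans (by linarith))
    · show |pd 1 (pd 1 (ψP m (1 / m) μ s t)) x| ≤ _
      rw [pd11_ψP F hmh]
      exact key _ ((bd_DhDhg S F ht.1 ht.2 m x).trans (by linarith))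
  · intro t ht x
    simp only [hTot]
    rw [res1 F hmh]
    refine (abs_ph_le _ _ _ _ _).trans ((tn_r1 S F ht.1 ht.2).trans ?_)
    apply mul_le_mul_of_nonneg_right _ (by positivity)
    rw [hC]; linarith
  · intro t ht x
    simp only [hTot]
    rw [res2 F hmh, abs_mul, abs_of_pos hμ0]
    have e1 := (abs_ph_le (Φe s) m _ t x).trans (tn_RR S F hN1 ht.1 ht.2)
    calc μ * _ ≤ 1 * (cR T * (1 / 4) ^ K) :=
          mul_le_mul (by linarith) e1 (abs_nonneg _) zero_le_one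
      _ ≤ C * (1 / 4) ^ K := by
          rw [one_mul]
          apply mul_le_mul_of_nonneg_right _ (by positivity)
          rw [hC]; linarith
  · intro x
    rw [pd0_ψP F hmh, ph_M, ← mul_sub, abs_mul, abs_of_pos hμ0, mul_comm]
    apply mul_le_mul_of_nonneg_right _ hμ0.le
    have b1 := ph_Iza_bound S F le_rfl (by linarith) m x
    have hP0 : Ph (Φe s) 0 (x 1) = 0 := by
      unfold Ph Φe
      rw [map_neg, ev_It_zero]
      simp
    rw [hP0, sub_zero] at b1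
    have b2 : |1 - sv T N 0 (x 1)| ≤ lamT T ^ N := by
      have e1 := norm_ev_le 0 0 (x 1) (1 - SS * sg T N)
      rw [map_sub, map_mul, map_one, ev_SS, ev_sg] at e1
      have e2 := tn_one_sub_SS_sg hT le_rfl hτ (mem_reg_of_real hT le_rfl (by linarith)) N
      have e3 := e1.trans e2
      have e4 : (1 : ℂ) - ((1 + (0 * Real.cos (x 1)) ^ 2 : ℝ) : ℂ) * ((sv T N 0 (x 1) : ℝ) : ℂ) =
          ((1 - sv T N 0 (x 1) : ℝ) : ℂ) := by
        push_cast; ring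
      rw [e4, Complex.norm_real, Real.norm_eq_abs] at e3
      exact e3
    have b3 := Real.abs_sin_le_one (m * x 0)
    have b4 : |(1 - sv T N 0 (x 1)) * Real.sin (m * x 0)| ≤ κ * 1 := by
      rw [abs_mul]
      exact mul_le_mul (b2.trans hN2) b3 (abs_nonneg _) hκ0.le
    have e : ph (Φe s) m (Iz s.a) 0 x - Real.sin (m * x 0) =
        (ph (Φe s) m (Iz s.a) 0 x - sv T N 0 (x 1) * Real.sin (m * x 0)) -
          (1 - sv T N 0 (x 1)) * Real.sin (m * x 0) := by ring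
    rw [e]
    refine (abs_sub _ _).trans ?_
    have : κ * e1c T + κ * 1 ≤ C * κ := by
      rw [← mul_add, mul_comm C]
      apply mul_le_mul_of_nonneg_left _ hκ0.le
      rw [hC]; linarith
    linarith
  · intro x i
    have hTm : T ∈ Icc (0 : ℝ) T := ⟨by linarith, le_rfl⟩
    have hS : (T * Real.cos (x 1)) ^ 2 = T ^ 2 * Real.cos (x 1) ^ 2 := by ring
    set z := T * Real.cos (x 1) with hz
    have hS0 : 0 < 1 + z ^ 2 := by positivity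
    fin_cases i
    · have h1 := g0 T hTm x
      rw [← hz] at h1
      have h2 : |pd 0 (ψP m (1 / m) μ s T) x / μ| ≤ 1 / (1 + z ^ 2) + κ * e1c T := by
        rw [abs_div, abs_of_pos hμ0, div_le_iff₀ hμ0, mul_comm]
        exact h1
      have h3 := sq_add_le (hfr1 z) ep.le hκ0.le hκe1 h2
      have h4 : (1 / (1 + z ^ 2)) ^ 2 ≤ 1 / (1 + z ^ 2) := by
        have h5 : 0 ≤ 1 / (1 + z ^ 2) := by positivity
        rw [sq]
        exact mul_le_of_le_one_left h5 (hfr1 z)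
      have h5 : (pd 0 (ψP m (1 / m) μ s T) x) ^ 2 =
          μ ^ 2 * (pd 0 (ψP m (1 / m) μ s T) x / μ) ^ 2 := by
        field_simp
      show (pd 0 (ψP m (1 / m) μ s T) x) ^ 2 ≤ _
      rw [h5, ← hS]
      apply mul_le_mul_of_nonneg_left _ (by positivity)
      have h6 : 3 * (κ * e1c T) ≤ C * κ := by
        have : 3 * e1c T ≤ C := by rw [hC]; linarith
        calc 3 * (κ * e1c T) = (3 * e1c T) * κ := by ring
          _ ≤ C * κ := mul_le_mul_of_nonneg_right this hκ0.le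
      linarith
    · have h1 := g1 T hTm x
      rw [← hz] at h1
      have h2 : |pd 1 (ψP m (1 / m) μ s T) x / μ| ≤ |z| / (1 + z ^ 2) + κ * E2c T := by
        rw [abs_div, abs_of_pos hμ0, div_le_iff₀ hμ0, mul_comm]
        exact h1
      have h3 := sq_add_le (hfr z) E2p.le hκ0.le hκE2 h2
      have h4 : (|z| / (1 + z ^ 2)) ^ 2 ≤ 1 / (1 + z ^ 2) := by
        rw [div_pow, sq_abs, div_le_div_iff₀ (by positivity) hS0]
        nlinarith [sq_nonneg z]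
      have h5 : (pd 1 (ψP m (1 / m) μ s T) x) ^ 2 =
          μ ^ 2 * (pd 1 (ψP m (1 / m) μ s T) x / μ) ^ 2 := by
        field_simp
      show (pd 1 (ψP m (1 / m) μ s T) x) ^ 2 ≤ _
      rw [h5, ← hS]
      apply mul_le_mul_of_nonneg_left _ (by positivity)
      have h6 : 3 * (κ * E2c T) ≤ C * κ := by
        have : 3 * E2c T ≤ C := by rw [hC]; linarith
        calc 3 * (κ * E2c T) = (3 * E2c T) * κ := by ring
          _ ≤ C * κ := mul_le_mul_of_nonneg_right this hκ0.le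
      linarith

end Pool.Agent.EulerInflation

end

section

/-!
Upper bound of the norm of the data.
-/

open MeasureTheory Set
open scoped ENNReal NNReal ContDiff FourierTransform Real

namespace Pool.Agent.EulerInflation

open Est

/-- constant of the background -/
noncomputable def bBc (B : ℝ) : ℝ :=
  (16 + 12 * (2 + B ^ 2 * 2) ^ 2) + 2 * (16 + 12 * (2 + B ^ 2 * (2 * 2 + 2)) ^ 2)

theorem bBc_pos (B : ℝ) : 0 < bBc B := by unfold bBc; positivity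

theorem space_smooth {ψ : ℝ → EuclideanSpace ℝ (Fin 2) → ℝ}
    (h : ContDiff ℝ ∞ (fun z : ℝ × EuclideanSpace ℝ (Fin 2) => ψ z.1 z.2)) (t : ℝ) :
    ContDiff ℝ ∞ (ψ t) := by
  have h2 : ContDiff ℝ ∞ (fun x : EuclideanSpace ℝ (Fin 2) => ((t, x) : ℝ × _)) :=
    contDiff_const.prodMk contDiff_id
  exact ContDiff.comp (g := fun z : ℝ × EuclideanSpace ℝ (Fin 2) => ψ z.1 z.2)
    (f := fun x : EuclideanSpace ℝ (Fin 2) => ((t, x) : ℝ × _)) h h2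

theorem FL_add {L : ℝ} {f g : EuclideanSpace ℝ (Fin 2) → ℝ} (hf : ContDiff ℝ ∞ f)
    (hg : ContDiff ℝ ∞ g) (j : Fin 2) (x : EuclideanSpace ℝ (Fin 2)) :
    FL L (fun y => f y + g y) j x = FL L f j x + FL L g j x := by
  rw [FL_eq (hf.add hg), FL_eq hf, FL_eq hg, Est.pd_add hf hg]
  ring

theorem memLp_scaled {F : EuclideanSpace ℝ (Fin 2) → ℝ} (hF : ContDiff ℝ ∞ F)
    (hFc : HasCompactSupport F) {lam : ℝ} (hlam : 0 < lam) (c : ℝ) :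
    MemLp (fun x : EuclideanSpace ℝ (Fin 2) => c * F (lam⁻¹ • x)) 2 volume := by
  have h1 : HasCompactSupport (fun x : EuclideanSpace ℝ (Fin 2) => F (lam⁻¹ • x)) :=
    hFc.comp_smul (inv_ne_zero hlam.ne')
  have h2 : HasCompactSupport (fun x : EuclideanSpace ℝ (Fin 2) => c * F (lam⁻¹ • x)) :=
    h1.mul_left
  have h3 : Continuous (fun x : EuclideanSpace ℝ (Fin 2) => c * F (lam⁻¹ • x)) :=
    continuous_const.mul (hF.continuous.comp (continuous_const_smul _))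
  exact h3.memLp_of_hasCompactSupport h2

theorem rpow_le_of {s a b : ℝ} (hs : 0 < s) (hs1 : s < 1) (ha : 0 ≤ a) (hab : a ≤ b) :
    a ^ (1 - s) * b ^ s ≤ b := by
  have hb : 0 ≤ b := ha.trans hab
  calc a ^ (1 - s) * b ^ s ≤ b ^ (1 - s) * b ^ s := by
        apply mul_le_mul_of_nonneg_right _ (Real.rpow_nonneg hb _)
        exact Real.rpow_le_rpow ha hab (by linarith)
    _ = b := by
        rw [← Real.rpow_add_of_nonneg hb (by linarith) hs.le, sub_add_cancel, Real.rpow_one]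

section upper
variable {s B μ η T ε' L lam τ δ σ : ℝ} {m : ℕ} {ψB ψP P : ℝ → EuclideanSpace ℝ (Fin 2) → ℝ}

theorem upper_B (PA : PerApprox T ε' μ δ m ψB ψP P) (hs : 0 < s) (hs1 : s < 1) (hT : 1 ≤ T)
    (hB1 : 1 ≤ B) (hB : ∀ L s : ℝ, |deriv (bump L) s| ≤ B ∧ |deriv (deriv (bump L)) s| ≤ B)
    (hL : 1 ≤ L) (hlam : 0 < lam) (hlam1 : lam ≤ 1) (hτ : 0 < τ) (hσ : σ ^ 2 = 1) (j : Fin 2) :
    sobSq s (fun x => ((σ * (lam / τ) * FL L (ψB T) j (lam⁻¹ • x) : ℝ) : ℂ)) ≤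
      ENNReal.ofReal (lam ^ (4 - 2 * s) * L ^ 2 / τ ^ 2 * bBc B) := by
  have hTm : T ∈ Icc (0 : ℝ) T := ⟨by linarith, le_rfl⟩
  have hψ := space_smooth PA.sB T
  have hLL : L ≤ L ^ 2 := by nlinarith
  have i0 := int_FL hψ hB1 hB hL (PA.bB0 T hTm) (PA.bB1 T hTm) j
  have i1 := fun i => int_pdFL hψ hB1 hB hL (PA.bB0 T hTm) (PA.bB1 T hTm) (PA.bB2 T hTm) i j
  have a0 : ∫ x, FL L (ψB T) j x ^ 2 ≤ (16 + 12 * (2 + B ^ 2 * 2) ^ 2) * L ^ 2 := by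
    refine i0.trans ?_
    have : 12 * (2 + B ^ 2 * 2) ^ 2 * L ≤ 12 * (2 + B ^ 2 * 2) ^ 2 * L ^ 2 :=
      mul_le_mul_of_nonneg_left hLL (by positivity)
    linarith
  have a1 : ∀ i, ∫ x, pd i (FL L (ψB T) j) x ^ 2 ≤
      (16 + 12 * (2 + B ^ 2 * (2 * 2 + 2)) ^ 2) * L ^ 2 := by
    intro i
    refine (i1 i).trans ?_
    have : 12 * (2 + B ^ 2 * (2 * 2 + 2)) ^ 2 * L ≤ 12 * (2 + B ^ 2 * (2 * 2 + 2)) ^ 2 * L ^ 2 :=
      mul_le_mul_of_nonneg_left hLL (by positivity)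
    linarith
  refine (sobSq_scaled hs hs1 hlam hlam1 hτ (by linarith) (by positivity)
    (b := bBc B) (bBc_pos B).le hσ (FL_smooth hψ j) (FL_compact j) a0 ?_).trans ?_
  · have := a1 0
    have := a1 1
    unfold bBc
    linarith
  · apply ENNReal.ofReal_le_ofReal
    apply mul_le_mul_of_nonneg_left _ (by positivity)
    apply rpow_le_of hs hs1 (by positivity)
    unfold bBc
    have : 0 < 2 * (16 + 12 * (2 + B ^ 2 * (2 * 2 + 2)) ^ 2) := by positivity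
    linarith

theorem upper_P (PA : PerApprox T ε' μ δ m ψB ψP P) (hs : 0 < s) (hs1 : s < 1) (hT : 1 ≤ T)
    (hB1 : 1 ≤ B) (hB : ∀ L s : ℝ, |deriv (bump L) s| ≤ B ∧ |deriv (deriv (bump L)) s| ≤ B)
    (hL : 1 ≤ L) (hlam : 0 < lam) (hlam1 : lam ≤ 1) (hτ : 0 < τ) (hσ : σ ^ 2 = 1)
    (hμ : 0 < μ) (hm : 0 < m) (hη : 0 < η) (hη1 : η ≤ 1) (hε' : 0 ≤ ε') (hε'η : ε' ≤ η / 4)
    (hker : ∫ y in (-(L + 1))..(L + 1), 1 / (1 + T ^ 2 * Real.cos y ^ 2) ≤ η * L)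
    (hL1 : 24 * (B ^ 2 * 2) ^ 2 ≤ μ ^ 2 * η * L)
    (hL2 : 12 * (2 * (μ * m) + B ^ 2 * (2 * (2 * μ) + 2)) ^ 2 ≤ (μ * m) ^ 2 * L)
    (hprod : μ ^ 2 * (m : ℝ) ^ (2 * s) * η ^ (1 - s) ≤ 1) (j : Fin 2) :
    sobSq s (fun x => ((σ * (lam / τ) * FL L (ψP T) j (lam⁻¹ • x) : ℝ) : ℂ)) ≤
      ENNReal.ofReal (lam ^ (4 - 2 * s) * L ^ 2 / τ ^ 2 * 51) := by
  have hTm : T ∈ Icc (0 : ℝ) T := ⟨by linarith, le_rfl⟩
  have hψ := space_smooth PA.sP T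
  have hmR : (1 : ℝ) ≤ m := by exact_mod_cast hm
  have hL0 : 0 < L := by linarith
  have i0 := int_FL_fin hψ hB1 hB hL hε' (PA.bP0 T hTm) PA.fin hker j
  have i1 := fun i => int_pdFL hψ hB1 hB hL (PA.bP0 T hTm) (PA.bP1 T hTm) (PA.bP2 T hTm) i j
  have a0 : ∫ x, FL L (ψP T) j x ^ 2 ≤ (17 * (μ ^ 2 * η)) * L ^ 2 := by
    refine i0.trans ?_
    have h1 : μ ^ 2 * (8 * η + 32 * ε') * L ^ 2 ≤ μ ^ 2 * (16 * η) * L ^ 2 := by
      apply mul_le_mul_of_nonneg_right _ (by positivity)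
      apply mul_le_mul_of_nonneg_left _ (by positivity)
      linarith
    have h2 : 24 * (B ^ 2 * 2) ^ 2 * L ≤ μ ^ 2 * η * L * L :=
      mul_le_mul_of_nonneg_right hL1 hL0.le
    calc _ ≤ μ ^ 2 * (16 * η) * L ^ 2 + μ ^ 2 * η * L * L := add_le_add h1 h2
      _ = _ := by ring
  have a1 : ∀ i, ∫ x, pd i (FL L (ψP T) j) x ^ 2 ≤ (17 * (μ * m) ^ 2) * L ^ 2 := by
    intro i
    refine (i1 i).trans ?_
    have h2 : 12 * (2 * (μ * m) + B ^ 2 * (2 * (2 * μ) + 2)) ^ 2 * L ≤ (μ * m) ^ 2 * L * L :=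
      mul_le_mul_of_nonneg_right hL2 hL0.le
    calc _ ≤ 4 * L ^ 2 * (2 * (μ * m)) ^ 2 + (μ * m) ^ 2 * L * L := add_le_add le_rfl h2
      _ = _ := by ring
  have hcmp : μ ^ 2 * η ≤ (μ * m) ^ 2 := by
    rw [mul_pow]
    apply mul_le_mul_of_nonneg_left _ (by positivity)
    nlinarith
  refine (sobSq_scaled hs hs1 hlam hlam1 hτ hL0 (a := 51 * (μ ^ 2 * η)) (by positivity)
    (b := 51 * (μ * m) ^ 2) (by positivity) hσ (FL_smooth hψ j) (FL_compact j) ?_ ?_).trans ?_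
  · refine a0.trans ?_
    apply mul_le_mul_of_nonneg_right _ (by positivity)
    have : 0 < μ ^ 2 * η := by positivity
    linarith
  · have b0 := a1 0
    have b1 := a1 1
    have b2 : (17 * (μ ^ 2 * η)) * L ^ 2 ≤ (17 * (μ * m) ^ 2) * L ^ 2 :=
      mul_le_mul_of_nonneg_right (by linarith) (by positivity)
    linarith
  · apply ENNReal.ofReal_le_ofReal
    apply mul_le_mul_of_nonneg_left _ (by positivity)
    have e : (51 * (μ ^ 2 * η)) ^ (1 - s) * (51 * (μ * m) ^ 2) ^ s =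
        51 * (μ ^ 2 * (m : ℝ) ^ (2 * s) * η ^ (1 - s)) := by
      have e1 : 51 * (μ ^ 2 * η) = (51 * μ ^ 2) * η := by ring
      have e2 : 51 * (μ * m) ^ 2 = (51 * μ ^ 2) * (m : ℝ) ^ 2 := by ring
      rw [e1, e2, Real.mul_rpow (x := 51 * μ ^ 2) (y := η) (by positivity) hη.le,
        Real.mul_rpow (x := 51 * μ ^ 2) (y := (m : ℝ) ^ 2) (by positivity) (by positivity)]
      have e3 : ((m : ℝ) ^ 2) ^ s = (m : ℝ) ^ (2 * s) := by
        rw [← Real.rpow_natCast, ← Real.rpow_mul (by linarith)]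
        norm_num
      have e4 : (51 * μ ^ 2) ^ (1 - s) * (51 * μ ^ 2) ^ s = 51 * μ ^ 2 := by
        rw [← Real.rpow_add (by positivity), sub_add_cancel, Real.rpow_one]
      rw [e3]
      calc (51 * μ ^ 2) ^ (1 - s) * η ^ (1 - s) * ((51 * μ ^ 2) ^ s * (m : ℝ) ^ (2 * s)) =
          ((51 * μ ^ 2) ^ (1 - s) * (51 * μ ^ 2) ^ s) * ((m : ℝ) ^ (2 * s) * η ^ (1 - s)) := by ring
        _ = _ := by rw [e4]; ring
    rw [e]
    linarith

theorem upper_comp (PA : PerApprox T ε' μ δ m ψB ψP P) (hs : 0 < s) (hs1 : s < 1) (hT : 1 ≤ T)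
    (hB1 : 1 ≤ B) (hB : ∀ L s : ℝ, |deriv (bump L) s| ≤ B ∧ |deriv (deriv (bump L)) s| ≤ B)
    (hL : 1 ≤ L) (hlam : 0 < lam) (hlam1 : lam ≤ 1) (hτ : 0 < τ) (hσ : σ ^ 2 = 1)
    (hμ : 0 < μ) (hm : 0 < m) (hη : 0 < η) (hη1 : η ≤ 1) (hε' : 0 ≤ ε') (hε'η : ε' ≤ η / 4)
    (hker : ∫ y in (-(L + 1))..(L + 1), 1 / (1 + T ^ 2 * Real.cos y ^ 2) ≤ η * L)
    (hL1 : 24 * (B ^ 2 * 2) ^ 2 ≤ μ ^ 2 * η * L)
    (hL2 : 12 * (2 * (μ * m) + B ^ 2 * (2 * (2 * μ) + 2)) ^ 2 ≤ (μ * m) ^ 2 * L)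
    (hprod : μ ^ 2 * (m : ℝ) ^ (2 * s) * η ^ (1 - s) ≤ 1) (j : Fin 2) :
    sobSq s (fun x => ((σ * (lam / τ) *
      FL L (fun y => ψB T y + ψP T y) j (lam⁻¹ • x) : ℝ) : ℂ)) ≤
      ENNReal.ofReal (2 * (lam ^ (4 - 2 * s) * L ^ 2 / τ ^ 2 * (bBc B + 51))) := by
  have hψB := space_smooth PA.sB T
  have hψP := space_smooth PA.sP T
  have u1 := upper_B PA hs hs1 hT hB1 hB hL hlam hlam1 hτ hσ j
  have u2 := upper_P PA hs hs1 hT hB1 hB hL hlam hlam1 hτ hσ hμ hm hη hη1 hε' hε'η hker hL1 hL2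
    hprod j
  have e : (fun x : EuclideanSpace ℝ (Fin 2) => ((σ * (lam / τ) *
      FL L (fun y => ψB T y + ψP T y) j (lam⁻¹ • x) : ℝ) : ℂ)) =
      fun x => ((σ * (lam / τ) * FL L (ψB T) j (lam⁻¹ • x) +
        σ * (lam / τ) * FL L (ψP T) j (lam⁻¹ • x) : ℝ) : ℂ) := by
    funext x
    rw [FL_add hψB hψP, mul_add]
  rw [e]
  refine (sobSq_add (memLp_scaled (FL_smooth hψB j) (FL_compact j) hlam _)
    (memLp_scaled (FL_smooth hψP j) (FL_compact j) hlam _)).trans ?_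
  have hX : 0 ≤ lam ^ (4 - 2 * s) * L ^ 2 / τ ^ 2 := by positivity
  rw [ENNReal.ofReal_mul (by norm_num), ENNReal.ofReal_ofNat,
    mul_add (lam ^ (4 - 2 * s) * L ^ 2 / τ ^ 2),
    ENNReal.ofReal_add (mul_nonneg hX (bBc_pos B).le) (mul_nonneg hX (by norm_num))]
  gcongr

end upper

end Pool.Agent.EulerInflation

end

section

/-!
Lower bound of the norm of the solution.
-/

open MeasureTheory Set
open scoped ENNReal NNReal ContDiff FourierTransform Real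

namespace Pool.Agent.EulerInflation

open Est

theorem vL_zero (L : ℝ) (ψ : ℝ → EuclideanSpace ℝ (Fin 2) → ℝ) (t : ℝ)
    (x : EuclideanSpace ℝ (Fin 2)) : vL L ψ t x 0 = -FL L (ψ t) 1 x := by
  unfold vL FL
  simp

theorem vL_one (L : ℝ) (ψ : ℝ → EuclideanSpace ℝ (Fin 2) → ℝ) (t : ℝ)
    (x : EuclideanSpace ℝ (Fin 2)) : vL L ψ t x 1 = FL L (ψ t) 0 x := by
  unfold vL FL
  simp

theorem norm_sq_int {u : ℝ → EuclideanSpace ℝ (Fin 2) → EuclideanSpace ℝ (Fin 2)}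
    {p : ℝ → EuclideanSpace ℝ (Fin 2) → ℝ} (h : IsEulerSolution u p) {t : ℝ} (ht : 0 ≤ t)
    (i : Fin 2) : MemLp (fun x => u t x i) 2 volume := by
  have h1 := (Stab.u_sqInt h t).1 t ⟨ht, le_rfl⟩ i
  exact (memLp_two_iff_integrable_sq h1.cont.aestronglyMeasurable).2 h1.int

theorem sq_le_norm_sq (x : EuclideanSpace ℝ (Fin 2)) (i : Fin 2) : x i ^ 2 ≤ ‖x‖ ^ 2 := by
  rw [← sq_abs]
  exact pow_le_pow_left₀ (abs_nonneg _) (Stab.abs_coord_le x i) 2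

section lower
variable {s B μ T ε' L lam τ δ C₀ CL : ℝ} {m : ℕ}
  {ψB ψP P : ℝ → EuclideanSpace ℝ (Fin 2) → ℝ}

/-- constant -/
noncomputable def Dc (B : ℝ) : ℝ := 32 + 12 * (1 + B ^ 2) ^ 2

theorem Dc_pos (B : ℝ) : 0 < Dc B := by unfold Dc; positivity

theorem lower_comp (PA : PerApprox T ε' μ δ m ψB ψP P) (hs : 0 < s) (hs1 : s < 1) (hT : 1 ≤ T)
    (hB1 : 1 ≤ B) (hB : ∀ L s : ℝ, |deriv (bump L) s| ≤ B ∧ |deriv (deriv (bump L)) s| ≤ B)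
    (hL : 1 ≤ L) (hlam : 0 < lam) (hτ : 0 < τ) (hτ1 : τ ≤ 1)
    (hμ : 0 < μ) (hμ1 : μ ≤ 1) (hm : 0 < m) (hε' : ε' ≤ 1 / 8) (hC₀ : 0 < C₀)
    (hv : ContDiff ℝ ∞ (fun z : ℝ × EuclideanSpace ℝ (Fin 2) =>
      vL L (fun t y => ψB t y + ψP t y) z.1 z.2))
    (hq : ContDiff ℝ ∞ (fun z : ℝ × EuclideanSpace ℝ (Fin 2) =>
      qL L (fun t y => ψB t y + ψP t y) P z.1 z.2))
    (hvq : ∀ t, ∀ x ∉ {x : EuclideanSpace ℝ (Fin 2) | ∀ i, |x i| ≤ L + 1},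
      vL L (fun t y => ψB t y + ψP t y) t x = 0 ∧ qL L (fun t y => ψB t y + ψP t y) P t x = 0)
    (hdiv : ∀ t x, pd 0 (fun y => vL L (fun t y => ψB t y + ψP t y) t y 0) x +
      pd 1 (fun y => vL L (fun t y => ψB t y + ψP t y) t y 1) x = 0)
    (hgrad : ∀ t ∈ Icc 0 T, ∀ x, ∀ i j,
      |pd i (fun y => vL L (fun t y => ψB t y + ψP t y) t y j) x| ≤
        (2 + 2 * (μ * m)) + C₀ * 4)
    (hres : ∀ r : ℝ → EuclideanSpace ℝ (Fin 2) → EuclideanSpace ℝ (Fin 2),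
        (∀ t x i, r t x i = deriv (fun s => vL L (fun t y => ψB t y + ψP t y) s x i) t +
          (vL L (fun t y => ψB t y + ψP t y) t x 0 *
            pd 0 (fun y => vL L (fun t y => ψB t y + ψP t y) t y i) x +
            vL L (fun t y => ψB t y + ψP t y) t x 1 *
            pd 1 (fun y => vL L (fun t y => ψB t y + ψP t y) t y i) x) +
            pd i (qL L (fun t y => ψB t y + ψP t y) P t) x) →
        ∀ t ∈ Icc 0 T, ∫ x, ‖r t x‖ ^ 2 ≤ 8 * L ^ 2 * δ ^ 2 + CL * L)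
    (hsmall : T / τ * (8 * L ^ 2 * δ ^ 2 + CL * L) *
      Real.exp ((4 * ((2 + 2 * (μ * m)) + C₀ * 4) + 1) * T) ≤ μ ^ 2 * L ^ 2 / (4 * Dc B))
    (hLL : 4 + 24 * (4 * (1 + B ^ 2) ^ 2) / μ ≤ L)
    {u : ℝ → EuclideanSpace ℝ (Fin 2) → EuclideanSpace ℝ (Fin 2)}
    {p : ℝ → EuclideanSpace ℝ (Fin 2) → ℝ} (h : IsEulerSolution u p)
    (h0 : ∀ x, u 0 x = -((lam / τ) • vL L (fun t y => ψB t y + ψP t y) T (lam⁻¹ • x))) :
    ENNReal.ofReal (lam ^ (4 - 2 * s) * L ^ 2 / τ ^ 2 * (μ ^ 2 * (m : ℝ) ^ (2 * s)) / (4 * Dc B)) ≤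
      sobSq s (fun x => (u (τ * T) x 1 : ℂ)) := by
  have hT0 : 0 < T := by linarith
  have hmR : (1 : ℝ) ≤ m := by exact_mod_cast hm
  have hm0 : (0 : ℝ) < m := by linarith
  have hL0 : 0 < L := by linarith
  have hD := Dc_pos B
  have h0m : (0 : ℝ) ∈ Icc (0 : ℝ) T := ⟨le_rfl, hT0.le⟩
  have hψB := space_smooth PA.sB 0
  have hψP := space_smooth PA.sP 0
  set v := vL L (fun t y => ψB t y + ψP t y) with hvdef
  set F : EuclideanSpace ℝ (Fin 2) → ℝ := FL L (fun y => ψB 0 y + ψP 0 y) 0 with hF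
  have hFs : ContDiff ℝ ∞ F := FL_smooth (hψB.add hψP) 0
  have hFc : HasCompactSupport F := FL_compact 0
  have hv1 : ∀ x, v 0 x 1 = F x := fun x => vL_one L _ 0 x
  -- stability
  have stab := stability_scaled hT0 (by positivity) hlam hτ hτ1 hv hq (isCompact_box L) hvq
    hdiv hgrad hres h h0
  -- the difference
  have htT : 0 ≤ τ * T := by positivity
  have mu1 := norm_sq_int h htT 1
  have mF : MemLp (fun x : EuclideanSpace ℝ (Fin 2) => (lam / τ) * F (lam⁻¹ • x)) 2 volume :=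
    memLp_scaled hFs hFc hlam _
  set H := HH L (m : ℝ) with hH
  have hHs : ContDiff ℝ ∞ H := smooth_HH L m
  have hHc : HasCompactSupport H := HH_compact L m
  have hpHs : ContDiff ℝ ∞ (pd 0 H) := pd_smooth hHs 0
  have hpHc : HasCompactSupport (pd 0 H) := Stab.pd_compact hHc 0
  have mG : MemLp (fun x : EuclideanSpace ℝ (Fin 2) => (m : ℝ)⁻¹ * pd 0 H (lam⁻¹ • x)) 2 volume :=
    memLp_scaled hpHs hpHc hlam _
  have mw := mu1.add mF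
  have hw2 : ∫ x, (u (τ * T) x 1 + (lam / τ) * F (lam⁻¹ • x)) ^ 2 ≤
      T / τ ^ 3 * lam ^ 4 * (8 * L ^ 2 * δ ^ 2 + CL * L) *
        Real.exp ((4 * ((2 + 2 * (μ * m)) + C₀ * 4) + 1) * T) := by
    refine le_trans ?_ stab
    have hcoord : ∀ i : Fin 2, MemLp (fun x => (u (τ * T) x + (lam / τ) • v 0 (lam⁻¹ • x)) i) 2
        volume := by
      intro i
      have a1 := norm_sq_int h htT i
      have a2 : MemLp (fun x : EuclideanSpace ℝ (Fin 2) => (lam / τ) * v 0 (lam⁻¹ • x) i) 2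
          volume := by
        fin_cases i
        · have : (fun x : EuclideanSpace ℝ (Fin 2) => (lam / τ) * v 0 (lam⁻¹ • x) 0) =
              fun x => (-(lam / τ)) * FL L (fun y => ψB 0 y + ψP 0 y) 1 (lam⁻¹ • x) := by
            funext x
            rw [hvdef, vL_zero]
            ring
          show MemLp (fun x : EuclideanSpace ℝ (Fin 2) => (lam / τ) * v 0 (lam⁻¹ • x) 0) 2 volume
          rw [this]
          exact memLp_scaled (FL_smooth (hψB.add hψP) 1) (FL_compact 1) hlam _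
        · have : (fun x : EuclideanSpace ℝ (Fin 2) => (lam / τ) * v 0 (lam⁻¹ • x) 1) =
              fun x => (lam / τ) * F (lam⁻¹ • x) := by
            funext x
            rw [hv1]
          show MemLp (fun x : EuclideanSpace ℝ (Fin 2) => (lam / τ) * v 0 (lam⁻¹ • x) 1) 2 volume
          rw [this]
          exact mF
      exact a1.add a2
    have hnorm : Integrable (fun x => ‖u (τ * T) x + (lam / τ) • v 0 (lam⁻¹ • x)‖ ^ 2) := by
      have e : (fun x => ‖u (τ * T) x + (lam / τ) • v 0 (lam⁻¹ • x)‖ ^ 2) =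
          fun x => ((u (τ * T) x + (lam / τ) • v 0 (lam⁻¹ • x)) 0) ^ 2 +
            ((u (τ * T) x + (lam / τ) • v 0 (lam⁻¹ • x)) 1) ^ 2 := by
        funext x
        rw [EuclideanSpace.norm_sq_eq, Fin.sum_univ_two, Real.norm_eq_abs, Real.norm_eq_abs,
          sq_abs, sq_abs]
      rw [e]
      exact (hcoord 0).integrable_sq.add (hcoord 1).integrable_sq
    apply integral_mono_of_nonneg (Filter.Eventually.of_forall fun x => sq_nonneg _) hnorm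
    apply Filter.Eventually.of_forall
    intro x
    have e : u (τ * T) x 1 + (lam / τ) * F (lam⁻¹ • x) =
        (u (τ * T) x + (lam / τ) • v 0 (lam⁻¹ • x)) 1 := by
      rw [← hv1]
      rfl
    show (u (τ * T) x 1 + (lam / τ) * F (lam⁻¹ • x)) ^ 2 ≤ _
    rw [e]
    exact sq_le_norm_sq _ 1
  have hG2 : ∫ x : EuclideanSpace ℝ (Fin 2), ((m : ℝ)⁻¹ * pd 0 H (lam⁻¹ • x)) ^ 2 ≤
      lam ^ 2 * (Dc B * L ^ 2) := by
    have h1 : ∀ x : EuclideanSpace ℝ (Fin 2), ((m : ℝ)⁻¹ * pd 0 H (lam⁻¹ • x)) ^ 2 =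
        ((m : ℝ)⁻¹) ^ 2 * pd 0 H (lam⁻¹ • x) ^ 2 := fun x => by ring
    simp_rw [h1]
    rw [integral_const_mul, integral_scaled hlam (fun x => pd 0 H x ^ 2)]
    have h2 : ∫ x, pd 0 H x ^ 2 ≤ Dc B * (m : ℝ) ^ 2 * L ^ 2 := int_pd0_HH hB1 hB hmR hL
    calc ((m : ℝ)⁻¹) ^ 2 * (lam ^ 2 * ∫ x, pd 0 H x ^ 2) ≤
        ((m : ℝ)⁻¹) ^ 2 * (lam ^ 2 * (Dc B * (m : ℝ) ^ 2 * L ^ 2)) := by gcongr
      _ = _ := by field_simp
  -- Cauchy-Schwarz
  have hCS := integral_mul_sq_le mw mG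
  simp only [Pi.add_apply] at hCS
  have hwG : (∫ x, (u (τ * T) x 1 + (lam / τ) * F (lam⁻¹ • x)) *
      ((m : ℝ)⁻¹ * pd 0 H (lam⁻¹ • x))) ^ 2 ≤ (lam ^ 3 / (2 * τ) * (μ * L ^ 2)) ^ 2 := by
    refine hCS.trans ?_
    have hw0 : 0 ≤ ∫ x, (u (τ * T) x 1 + (lam / τ) * F (lam⁻¹ • x)) ^ 2 :=
      integral_nonneg fun x => sq_nonneg _
    have hw3 : ∫ x, (u (τ * T) x 1 + (lam / τ) * F (lam⁻¹ • x)) ^ 2 ≤
        lam ^ 4 / τ ^ 2 * (μ ^ 2 * L ^ 2 / (4 * Dc B)) := by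
      refine hw2.trans ?_
      have e : T / τ ^ 3 * lam ^ 4 * (8 * L ^ 2 * δ ^ 2 + CL * L) *
        Real.exp ((4 * ((2 + 2 * (μ * m)) + C₀ * 4) + 1) * T) = lam ^ 4 / τ ^ 2 *
        (T / τ * (8 * L ^ 2 * δ ^ 2 + CL * L) *
        Real.exp ((4 * ((2 + 2 * (μ * m)) + C₀ * 4) + 1) * T)) := by
        field_simp
      rw [e]
      exact mul_le_mul_of_nonneg_left hsmall (by positivity)
    calc (∫ x, (u (τ * T) x 1 + (lam / τ) * F (lam⁻¹ • x)) ^ 2) *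
          ∫ x : EuclideanSpace ℝ (Fin 2), ((m : ℝ)⁻¹ * pd 0 H (lam⁻¹ • x)) ^ 2
        ≤ (lam ^ 4 / τ ^ 2 * (μ ^ 2 * L ^ 2 / (4 * Dc B))) * (lam ^ 2 * (Dc B * L ^ 2)) := by
          apply mul_le_mul hw3 hG2 (integral_nonneg fun x => sq_nonneg _) (by positivity)
      _ = (lam ^ 3 / (2 * τ) * (μ * L ^ 2)) ^ 2 := by
          field_simp
          ring
  have hwG' : |∫ x, (u (τ * T) x 1 + (lam / τ) * F (lam⁻¹ • x)) *
      ((m : ℝ)⁻¹ * pd 0 H (lam⁻¹ • x))| ≤ lam ^ 3 / (2 * τ) * (μ * L ^ 2) :=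
    abs_le_of_sq_le_sq hwG (by positivity)
  -- the main term
  have hmain : μ * L ^ 2 ≤ ∫ x, F x * ((m : ℝ)⁻¹ * pd 0 H x) := by
    apply pairing_main hB1 hB hmR hL hμ hε' hψB hψP (PA.bB00 0)
    · intro x
      have h1 := PA.bB0 0 h0m x
      have h2 := PA.bP0 0 h0m x
      exact (abs_add_le _ _).trans (by linarith)
    · intro x j
      rw [Est.pd_add hψB hψP]
      have h1 := PA.bB1 0 h0m x j
      have h2 := PA.bP1 0 h0m x j
      exact (abs_add_le _ _).trans (by linarith)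
    · exact PA.init
    · exact hLL
  have hint : ∫ x : EuclideanSpace ℝ (Fin 2), ((lam / τ) * F (lam⁻¹ • x)) *
      ((m : ℝ)⁻¹ * pd 0 H (lam⁻¹ • x)) = lam ^ 3 / τ * ∫ x, F x * ((m : ℝ)⁻¹ * pd 0 H x) := by
    have h1 : ∀ x : EuclideanSpace ℝ (Fin 2), ((lam / τ) * F (lam⁻¹ • x)) *
      ((m : ℝ)⁻¹ * pd 0 H (lam⁻¹ • x)) = (lam / τ) * (F (lam⁻¹ • x) *
      ((m : ℝ)⁻¹ * pd 0 H (lam⁻¹ • x))) := fun x => by ring
    simp_rw [h1]
    rw [integral_const_mul, integral_scaled hlam (fun x => F x * ((m : ℝ)⁻¹ * pd 0 H x))]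
    ring
  have hgG : lam ^ 3 / (2 * τ) * (μ * L ^ 2) ≤
      |∫ x, u (τ * T) x 1 * ((m : ℝ)⁻¹ * pd 0 H (lam⁻¹ • x))| := by
    have i1 : Integrable (fun x => u (τ * T) x 1 * ((m : ℝ)⁻¹ * pd 0 H (lam⁻¹ • x))) :=
      MemLp.integrable_mul mu1 mG
    have i2 : Integrable (fun x : EuclideanSpace ℝ (Fin 2) => ((lam / τ) * F (lam⁻¹ • x)) *
      ((m : ℝ)⁻¹ * pd 0 H (lam⁻¹ • x))) := MemLp.integrable_mul mF mG
    have e : ∫ x, (u (τ * T) x 1 + (lam / τ) * F (lam⁻¹ • x)) *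
      ((m : ℝ)⁻¹ * pd 0 H (lam⁻¹ • x)) =
      (∫ x, u (τ * T) x 1 * ((m : ℝ)⁻¹ * pd 0 H (lam⁻¹ • x))) +
        ∫ x : EuclideanSpace ℝ (Fin 2), ((lam / τ) * F (lam⁻¹ • x)) *
          ((m : ℝ)⁻¹ * pd 0 H (lam⁻¹ • x)) := by
      rw [← integral_add i1 i2]
      apply integral_congr_ae
      filter_upwards with x
      ring
    rw [e, hint] at hwG'
    have h3 : lam ^ 3 / τ * (μ * L ^ 2) ≤ lam ^ 3 / τ * ∫ x, F x * ((m : ℝ)⁻¹ * pd 0 H x) :=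
      mul_le_mul_of_nonneg_left hmain (by positivity)
    have h4 : lam ^ 3 / τ * (μ * L ^ 2) = 2 * (lam ^ 3 / (2 * τ) * (μ * L ^ 2)) := by
      field_simp
    have h5 := (abs_le.1 hwG').2
    have h6 := neg_le_abs (∫ x, u (τ * T) x 1 * ((m : ℝ)⁻¹ * pd 0 H (lam⁻¹ • x)))
    linarith
  exact lower_scaled hs hs1 hlam hτ hL0 hD hm0 hμ hHs hHc (int_pd0_HH hB1 hB hmR hL)
    ((int_HH hL).trans (by
      apply mul_le_mul_of_nonneg_right _ (by positivity)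
      unfold Dc
      have : 0 ≤ 12 * (1 + B ^ 2) ^ 2 := by positivity
      linarith)) mu1 hgG

end lower

end Pool.Agent.EulerInflation

end
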